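import Pool.Agent.Lib_MP_6b99df_fc.Defs

/-! PIECE Alg: identities. -/

set_option autoImplicit false

open scoped LinearAlgebra.Projectivization

namespace Pool.Agent.FewConics

variable {p : ℕ} [Fact p.Prime]

theorem qf_smul (M : Matrix (Fin 3) (Fin 3) (ZMod p)) (c : ZMod p) (x : Fin 3 → ZMod p) :
    qf M (c • x) = c ^ 2 * qf M x := by
  simp only [qf, dotProduct, Matrix.mulVec, Fin.sum_univ_three, Pi.smul_apply, smul_eq_mul]
  ring

theorem qf_eq_bf (M : Matrix (Fin 3) (Fin 3) (ZMod p)) (x : Fin 3 → ZMod p) : qf M x = bf M x x := by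
  rfl

theorem bf_comm {M : Matrix (Fin 3) (Fin 3) (ZMod p)} (hM : M.IsSymm) (x y : Fin 3 → ZMod p) :
    bf M x y = bf M y x := by
  have h1 : M 1 0 = M 0 1 := hM.apply 0 1
  have h2 : M 2 0 = M 0 2 := hM.apply 0 2
  have h3 : M 2 1 = M 1 2 := hM.apply 1 2
  simp only [bf, dotProduct, Matrix.mulVec, Fin.sum_univ_three]
  rw [h1, h2, h3]
  ring

theorem qf_add {M : Matrix (Fin 3) (Fin 3) (ZMod p)} (hM : M.IsSymm) (x y : Fin 3 → ZMod p)
    (c d : ZMod p) : qf M (c • x + d • y) = c ^ 2 * qf M x + 2 * c * d * bf M x y + d ^ 2 * qf M y := by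
  have h1 : M 1 0 = M 0 1 := hM.apply 0 1
  have h2 : M 2 0 = M 0 2 := hM.apply 0 2
  have h3 : M 2 1 = M 1 2 := hM.apply 1 2
  simp only [qf, bf, dotProduct, Matrix.mulVec, Fin.sum_univ_three, Pi.add_apply, Pi.smul_apply,
    smul_eq_mul]
  rw [h1, h2, h3]
  ring

/-- The Gram determinant. Expand everything (`Matrix.adjugate_fin_three`, `cross_apply`,
`Fin.sum_univ_three`) and use the six symmetric entries; `ring`. -/
theorem gram {M : Matrix (Fin 3) (Fin 3) (ZMod p)} (hM : M.IsSymm) (x y : Fin 3 → ZMod p) :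
    qf M x * qf M y - bf M x y ^ 2 = qf M.adjugate (crossProduct x y) := by
  have h1 : M 1 0 = M 0 1 := hM.apply 0 1
  have h2 : M 2 0 = M 0 2 := hM.apply 0 2
  have h3 : M 2 1 = M 1 2 := hM.apply 1 2
  rw [Matrix.adjugate_fin_three, cross_apply]
  simp only [qf, bf, dotProduct, Matrix.mulVec, Fin.sum_univ_three, Matrix.of_apply,
    Matrix.cons_val_zero, Matrix.cons_val_one, Matrix.cons_val, h1, h2, h3]
  ring

/-- `gram` for the adjugate matrix, `adjugate (adjugate M) = det M • M`. -/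
theorem gram_adj {M : Matrix (Fin 3) (Fin 3) (ZMod p)} (hM : M.IsSymm) (a b : Fin 3 → ZMod p) :
    bf M.adjugate a b ^ 2 - qf M.adjugate a * qf M.adjugate b =
      -(M.det * qf M (crossProduct a b)) := by
  have h := gram (hM.adjugate) a b
  have h2 : M.adjugate.adjugate = M.det • M := by
    rw [Matrix.adjugate_adjugate']
    simp
  have h3 : qf (M.det • M) (crossProduct a b) = M.det * qf M (crossProduct a b) := by
    simp only [qf, dotProduct, Matrix.mulVec, Fin.sum_univ_three, Matrix.smul_apply, smul_eq_mul]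
    ring
  rw [h2, h3] at h
  linear_combination -h

theorem adj_symm {M : Matrix (Fin 3) (Fin 3) (ZMod p)} (hM : M.IsSymm) : M.adjugate.IsSymm := by
  exact hM.adjugate

theorem adj_det {M : Matrix (Fin 3) (Fin 3) (ZMod p)} (hM : M.det ≠ 0) : M.adjugate.det ≠ 0 := by
  rw [Matrix.det_adjugate]
  exact pow_ne_zero _ hM

/-- `adjugate (adjugate M) = det M • M` -/
theorem adj_ne {M M' : Matrix (Fin 3) (Fin 3) (ZMod p)} (hM : M.det ≠ 0) (hM' : M'.det ≠ 0)
    (h : ∀ c : ZMod p, M' ≠ c • M) : ∀ c : ZMod p, M'.adjugate ≠ c • M.adjugate := by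
  intro c hc
  have h2 : ∀ A : Matrix (Fin 3) (Fin 3) (ZMod p), A.adjugate.adjugate = A.det • A := by
    intro A
    rw [Matrix.adjugate_adjugate']
    simp
  have h3 := congrArg Matrix.adjugate hc
  rw [Matrix.adjugate_smul, h2, h2] at h3
  refine h (M'.det⁻¹ * (c ^ (Fintype.card (Fin 3) - 1) * M.det)) ?_
  calc M' = M'.det⁻¹ • (M'.det • M') := by rw [smul_smul, inv_mul_cancel₀ hM', one_smul]
    _ = _ := by rw [h3, smul_smul, smul_smul, mul_assoc]

/-- If the line `a` has a point of the conic then `-(qf (adj M) a)` is a square: take `z` with `z · x = 1`,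
`y = a × z`; then `x × y = ± a`, and `gram` gives `-(qf (adj M) a) = (bf M x y) ^ 2`. -/
theorem miss {M : Matrix (Fin 3) (Fin 3) (ZMod p)} (hM : M.IsSymm) (a x : Fin 3 → ZMod p)
    (hx : x ≠ 0) (hax : dotProduct a x = 0) (hq : qf M x = 0) : IsSquare (-(qf M.adjugate a)) := by
  obtain ⟨z, hz⟩ : ∃ z : Fin 3 → ZMod p, dotProduct z x = 1 := by
    obtain ⟨i, hi⟩ := Function.ne_iff.1 hx
    have hi' : x i ≠ 0 := by simpa using hi
    refine ⟨Pi.single i (x i)⁻¹, ?_⟩
    rw [single_dotProduct, inv_mul_cancel₀ hi']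
  have hc : crossProduct x (crossProduct a z) = a := by
    rw [cross_cross_eq_smul_sub_smul', dotProduct_comm x z, hz, hax, one_smul, zero_smul, sub_zero]
  have hg := gram hM x (crossProduct a z)
  rw [hc, hq, zero_mul, zero_sub] at hg
  refine ⟨bf M x (crossProduct a z), ?_⟩
  rw [← hg, neg_neg, sq]

/-- hence a line which satisfies `Ext` misses the conic -/
theorem miss_line {M : Matrix (Fin 3) (Fin 3) (ZMod p)} (hM : M.IsSymm) (l P : PG p)
    (hl : Ext M.adjugate l.rep) (hP : Projectivization.orthogonal l P) : ¬ OnConic M P := by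
  intro hq
  have h0 : dotProduct l.rep P.rep = 0 := by
    rw [← l.mk_rep, ← P.mk_rep] at hP
    exact (Projectivization.orthogonal_mk _ _).1 hP
  have h1 := miss hM l.rep P.rep P.rep_nonzero h0 hq
  exact quadraticChar_neg_one_iff_not_isSquare.1 hl h1

theorem onConic_mk (M : Matrix (Fin 3) (Fin 3) (ZMod p)) (x : Fin 3 → ZMod p) (hx : x ≠ 0) :
    OnConic M (Projectivization.mk (ZMod p) x hx) ↔ qf M x = 0 := by
  obtain ⟨c, hc⟩ := Projectivization.exists_smul_eq_mk_rep (ZMod p) x hx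
  unfold OnConic
  rw [← hc]
  have h : qf M (c • x) = (c : ZMod p) ^ 2 * qf M x := qf_smul M (c : ZMod p) x
  rw [h, mul_eq_zero]
  constructor
  · rintro (h | h)
    · exact absurd h (pow_ne_zero _ c.ne_zero)
    · exact h
  · exact Or.inr

theorem ext_smul (N : Matrix (Fin 3) (Fin 3) (ZMod p)) (c : ZMod p) (hc : c ≠ 0)
    (v : Fin 3 → ZMod p) : Ext N (c • v) ↔ Ext N v := by
  unfold Ext
  rw [qf_smul, ← mul_neg, map_mul, map_pow, quadraticChar_sq_one hc, one_mul]

theorem orth_iff (l P : PG p) : Projectivization.orthogonal l P ↔ dotProduct l.rep P.rep = 0 := by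
  conv_lhs => rw [← l.mk_rep, ← P.mk_rep]
  exact Projectivization.orthogonal_mk _ _

end Pool.Agent.FewConics
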