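import Mathlib

/-! PIECE Arith: final inequality. -/

set_option autoImplicit false

open Finset

namespace Pool.Agent.FewConics

/-- Elementary. `u = p / 2 ^ m`, `d = 85 m √p`, `z = 22 m ^ 4`, `0 < K = 300 * 2 ^ m * m ^ 4 * √p < p`, so `d < u / 3`, `u ≤ p / 2`.
`(p + 1) X ≥ (p ^ 2 - 2 m (p + 1) - z) (u - d)` gives `X ≥ (p - 1 - 2 m - z) (u - d)`, and `X ≤ E (u + d) + z (p + 1)`. -/
theorem final_arith (p m : ℕ) (hp : 3 ≤ p) (hm : 0 < m) (E X : ℝ) (hE : 0 ≤ E)
    (hK : 300 * (2 : ℝ) ^ m * m ^ 4 * √p < p)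
    (h1 : X ≤ E * (p / 2 ^ m + 85 * m * √p) + 22 * m ^ 4 * (p + 1))
    (h2 : ((p : ℝ) ^ 2 - 2 * m * (p + 1) - 22 * m ^ 4) * (p / 2 ^ m - 85 * m * √p) ≤ (p + 1) * X) :
    (p : ℝ) - 300 * 2 ^ m * m ^ 4 * √p ≤ E := by
  have hp3 : (3 : ℝ) ≤ p := by exact_mod_cast hp
  have hm1 : (1 : ℝ) ≤ m := by exact_mod_cast hm
  have hs1 : (1 : ℝ) ≤ √p := by
    rw [Real.one_le_sqrt]; linarith
  have hM1 : (1 : ℝ) ≤ (m : ℝ) ^ 4 := one_le_pow₀ hm1
  have hmM : (m : ℝ) ≤ (m : ℝ) ^ 4 := le_self_pow₀ hm1 (by norm_num)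
  have hP1 : (1 : ℝ) ≤ (2 : ℝ) ^ m := one_le_pow₀ (by norm_num)
  have hP0 : (0 : ℝ) < (2 : ℝ) ^ m := by positivity
  generalize hs : √(p : ℝ) = s at *
  generalize hM : (m : ℝ) ^ 4 = M at *
  generalize hP : (2 : ℝ) ^ m = P at *
  obtain ⟨u, hu⟩ : ∃ u : ℝ, u = (p : ℝ) / P := ⟨_, rfl⟩
  have huP : u * P = p := by rw [hu]; field_simp
  rw [← hu] at h1 h2
  have hu0 : 0 < u := by rw [hu]; positivity
  have hup : u ≤ p := by rw [hu]; exact div_le_self (by linarith) hP1
  -- d < u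
  have hd0 : 0 ≤ 85 * (m : ℝ) * s := by positivity
  have hdu : 85 * (m : ℝ) * s ≤ u := by
    have h3 : 85 * (m : ℝ) * s * P ≤ u * P := by
      rw [huP]
      have h4 : (m : ℝ) * s * P ≤ M * s * P := by
        have := mul_le_mul_of_nonneg_right hmM (by positivity : (0 : ℝ) ≤ s * P)
        nlinarith
      have h5 : 0 ≤ M * s * P := by positivity
      nlinarith
    exact le_of_mul_le_mul_right h3 hP0
  -- lower bound for X
  have hX : ((p : ℝ) - 1 - 2 * m - 22 * M) * (u - 85 * m * s) ≤ X := by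
    have h3 : ((p : ℝ) + 1) * (((p : ℝ) - 1 - 2 * m - 22 * M) * (u - 85 * m * s)) ≤
        (p + 1) * X := by
      refine le_trans ?_ h2
      rw [← mul_assoc]
      apply mul_le_mul_of_nonneg_right _ (by linarith)
      have h4 : 0 ≤ M * p := by positivity
      nlinarith
    exact le_of_mul_le_mul_left h3 (by linarith)
  by_contra hcon
  have hcon := not_le.1 hcon
  have h6 : E * (u + 85 * m * s) ≤ (p - 300 * P * M * s) * (u + 85 * m * s) :=
    mul_le_mul_of_nonneg_right hcon.le (by linarith)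
  have h7 : E * (u + 85 * m * s) < (p - 300 * P * M * s) * (u + 85 * m * s) :=
    mul_lt_mul_of_pos_right hcon (by linarith)
  -- K u
  have hKu : 300 * P * M * s * u = 300 * (M * s * p) := by
    rw [← huP]; ring
  have hKd : 0 ≤ 300 * P * M * s * (85 * m * s) := by positivity
  have k1 : 2 * p * (85 * m * s) ≤ 170 * (M * s * p) := by
    have := mul_le_mul_of_nonneg_right hmM (by positivity : (0 : ℝ) ≤ s * p)
    nlinarith
  have k0 : M * p ≤ M * s * p := by
    have := mul_le_mul_of_nonneg_left hs1 (by positivity : (0 : ℝ) ≤ M * p)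
    nlinarith
  have k2 : 22 * M * (p + 1) ≤ 44 * (M * s * p) := by
    have h8 : M ≤ M * p := le_mul_of_one_le_right (by linarith) (by linarith)
    nlinarith
  have k3 : (1 + 2 * m + 22 * M) * (u - 85 * m * s) ≤ 25 * (M * s * p) := by
    have h9 : (1 + 2 * m + 22 * M) * (u - 85 * m * s) ≤ (25 * M) * p :=
      mul_le_mul (by linarith) (by linarith) (by linarith) (by positivity)
    linarith
  have k4 : 0 < M * s * p := by positivity
  have e1 : (p - 300 * P * M * s) * (u + 85 * m * s) = p * u + p * (85 * m * s) -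
      300 * P * M * s * u - 300 * P * M * s * (85 * m * s) := by ring
  have e2 : ((p : ℝ) - 1 - 2 * m - 22 * M) * (u - 85 * m * s) = p * u - p * (85 * m * s) -
      (1 + 2 * m + 22 * M) * (u - 85 * m * s) := by ring
  rw [e1, hKu] at h7
  rw [e2] at hX
  linarith

end Pool.Agent.FewConics
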