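import Pool.Agent.Lib_MP_6b99df_fc.Tang

/-! PIECE Common: two different nondegenerate conics have at most four common points. -/

set_option autoImplicit false

open scoped LinearAlgebra.Projectivization

namespace Pool.Agent.FewConics

variable {p : ℕ} [Fact p.Prime]

private theorem common_cross {P Q : PG p} (h : P ≠ Q) : crossProduct P.rep Q.rep ≠ 0 := by
  intro h0
  apply h
  have := (Projectivization.mk_eq_mk_iff_crossProduct_eq_zero P.rep_nonzero Q.rep_nonzero).2 h0
  rwa [Projectivization.mk_rep, Projectivization.mk_rep] at this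

private theorem common_cramer (u v w q : Fin 3 → ZMod p) :
    (dotProduct (crossProduct u v) w) • q = (dotProduct q (crossProduct v w)) • u +
      (dotProduct q (crossProduct w u)) • v + (dotProduct q (crossProduct u v)) • w := by
  funext i
  fin_cases i <;> simp [cross_apply, dotProduct, Fin.sum_univ_three] <;> ring

private theorem common_dual (u v w a : Fin 3 → ZMod p) :
    (dotProduct (crossProduct u v) w) • a = (dotProduct a u) • (crossProduct v w) +
      (dotProduct a v) • (crossProduct w u) + (dotProduct a w) • (crossProduct u v) := by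
  funext i
  fin_cases i <;> simp [cross_apply, dotProduct, Fin.sum_univ_three] <;> ring

private theorem common_bfl (M : Matrix (Fin 3) (Fin 3) (ZMod p)) (x y z : Fin 3 → ZMod p)
    (a b c : ZMod p) (q : Fin 3 → ZMod p) :
    bf M (a • x + b • y + c • z) q = a * bf M x q + b * bf M y q + c * bf M z q := by
  simp [bf, add_dotProduct, smul_dotProduct]

private theorem common_bfr (M : Matrix (Fin 3) (Fin 3) (ZMod p)) (x y z : Fin 3 → ZMod p)
    (a b c : ZMod p) (q : Fin 3 → ZMod p) :
    bf M q (a • x + b • y + c • z) = a * bf M q x + b * bf M q y + c * bf M q z := by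
  simp [bf, Matrix.mulVec_add, Matrix.mulVec_smul, dotProduct_add, dotProduct_smul]

private theorem common_comb (N N' : Matrix (Fin 3) (Fin 3) (ZMod p)) (A B : ZMod p)
    (x y : Fin 3 → ZMod p) : bf (A • N' - B • N) x y = A * bf N' x y - B * bf N x y := by
  simp [bf, Matrix.sub_mulVec, Matrix.smul_mulVec, dotProduct_sub, dotProduct_smul]

private theorem common_smulr (M : Matrix (Fin 3) (Fin 3) (ZMod p)) (x y : Fin 3 → ZMod p)
    (a b : ZMod p) : bf M (a • x) (b • y) = a * b * bf M x y := by
  simp [bf, Matrix.mulVec_smul, smul_dotProduct, dotProduct_smul]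
  ring

/-- five points with independent reps -/
private theorem common_aux (hp2 : p ≠ 2) {N N' : Matrix (Fin 3) (Fin 3) (ZMod p)} (hN : N.IsSymm)
    (hN' : N'.IsSymm) (hd : N.det ≠ 0) (hne : ∀ c : ZMod p, N' ≠ c • N)
    (f : Fin 5 → Fin 3 → ZMod p) (hf : ∀ i, qf N (f i) = 0) (hf' : ∀ i, qf N' (f i) = 0)
    (hc : ∀ i j, i ≠ j → crossProduct (f i) (f j) ≠ 0) : False := by
  have h2 : (2 : ZMod p) ≠ 0 := by
    intro h
    have : ((2 : ℕ) : ZMod p) = 0 := by exact_mod_cast h
    rw [ZMod.natCast_eq_zero_iff] at this
    exact hp2 ((Nat.prime_dvd_prime_iff_eq Fact.out Nat.prime_two).1 this)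
  have hind : ∀ i j k, i ≠ j → i ≠ k → j ≠ k →
      dotProduct (crossProduct (f i) (f j)) (f k) ≠ 0 := fun i j k hij hik hjk =>
    indep3 hp2 hN hd (f i) (f j) (f k) (hf i) (hf j) (hf k) (hc i j hij) (hc i k hik) (hc j k hjk)
  set u := f 0 with hu
  set v := f 1 with hv
  set w := f 2 with hw
  set A := bf N u v with hA
  set B := bf N' u v with hB
  have hA0 : A ≠ 0 := bf_ne hN hd u v (hf 0) (hf 1) (hc 0 1 (by decide))
  set M := A • N' - B • N with hM
  have hMs : M.IsSymm := (hN'.smul A).sub (hN.smul B)
  have hbf : ∀ x y, bf M x y = A * bf N' x y - B * bf N x y := common_comb N N' A B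
  have hD : dotProduct (crossProduct u v) w ≠ 0 := hind 0 1 2 (by decide) (by decide) (by decide)
  set D := dotProduct (crossProduct u v) w with hDdef
  have hq : ∀ i, bf M (f i) (f i) = 0 := by
    intro i
    rw [hbf, ← qf_eq_bf, ← qf_eq_bf, hf, hf']
    ring
  have huv : bf M u v = 0 := by
    rw [hbf]
    ring
  set b := bf M u w with hb
  set c := bf M v w with hcc
  have hvu : bf M v u = 0 := by rw [bf_comm hMs, huv]
  have hwu : bf M w u = b := by rw [bf_comm hMs]
  have hwv : bf M w v = c := by rw [bf_comm hMs]
  have huu : bf M u u = 0 := hq 0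
  have hvv : bf M v v = 0 := hq 1
  have hww : bf M w w = 0 := hq 2
  have key : ∀ q, D * D * bf M q q = 2 * dotProduct q (crossProduct u v) *
      (b * dotProduct q (crossProduct v w) + c * dotProduct q (crossProduct w u)) := by
    intro q
    rw [← common_smulr M q q D D, common_cramer u v w q, common_bfl, common_bfr, common_bfr,
      common_bfr, huu, hvv, hww, huv, hvu, hwu, hwv]
    ring
  set a := b • crossProduct v w + c • crossProduct w u with ha
  have hau : dotProduct u a = b * D := by
    rw [ha, hDdef]
    simp [cross_apply, dotProduct, Fin.sum_univ_three]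
    ring
  have hav : dotProduct v a = c * D := by
    rw [ha, hDdef]
    simp [cross_apply, dotProduct, Fin.sum_univ_three]
    ring
  have haw : dotProduct a w = 0 := by
    rw [ha]
    simp [cross_apply, dotProduct, Fin.sum_univ_three]
    ring
  have hline : ∀ i, i ≠ 0 → i ≠ 1 → dotProduct a (f i) = 0 := by
    intro i hi0 hi1
    have h1 := key (f i)
    rw [hq i] at h1
    have h3 : dotProduct (f i) (crossProduct u v) ≠ 0 := by
      rw [dotProduct_comm]
      exact hind 0 1 i (by decide) (Ne.symm hi0) (Ne.symm hi1)
    have h4 : b * dotProduct (f i) (crossProduct v w) +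
        c * dotProduct (f i) (crossProduct w u) = 0 := by
      have h5 : 2 * dotProduct (f i) (crossProduct u v) ≠ 0 := mul_ne_zero h2 h3
      have h6 := h1.symm
      rw [mul_zero] at h6
      exact (mul_eq_zero.1 h6).resolve_left h5
    rw [ha, dotProduct_comm, dotProduct_add, dotProduct_smul, dotProduct_smul, smul_eq_mul,
      smul_eq_mul]
    exact h4
  have ha0 : a = 0 := by
    have h1 := common_dual w (f 3) (f 4) a
    rw [haw, hline 3 (by decide) (by decide), hline 4 (by decide) (by decide)] at h1
    have h3 := hind 2 3 4 (by decide) (by decide) (by decide)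
    simp only [zero_smul, add_zero] at h1
    exact (smul_eq_zero.1 h1).resolve_left h3
  have hb0 : b = 0 := by
    rw [ha0, dotProduct_zero] at hau
    exact (mul_eq_zero.1 hau.symm).resolve_right hD
  have hc0 : c = 0 := by
    rw [ha0, dotProduct_zero] at hav
    exact (mul_eq_zero.1 hav.symm).resolve_right hD
  have hall : ∀ x y, bf M x y = 0 := by
    intro x y
    have h1 : D * D * bf M x y = 0 := by
      rw [← common_smulr M x y D D, common_cramer u v w x, common_cramer u v w y, common_bfl,
        common_bfr, common_bfr, common_bfr, huu, hvv, hww, huv, hvu, hwu, hwv, ← hb, ← hcc, hb0,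
        hc0]
      ring
    exact (mul_eq_zero.1 h1).resolve_left (mul_ne_zero hD hD)
  have hM0 : M = 0 := by
    ext i j
    have h1 := hall (Pi.single i 1) (Pi.single j 1)
    simpa [bf] using h1
  apply hne (A⁻¹ * B)
  have h1 : A • N' = B • N := sub_eq_zero.1 hM0
  rw [mul_smul, ← h1, smul_smul, inv_mul_cancel₀ hA0, one_smul]

/-- Suppose there are five different common points `u₁, …, u₅`. Any three are independent (`indep3`). Take the basis
`u₁, u₂, u₃`: `qf N (x, y, z) = 2 (a x y + b x z + c y z)`, `a b c ≠ 0` (`bf_ne`), `qf N' (x, y, z) = 2 (a' x y + b' x z + c' y z)`. The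
coordinates of `u₄` and `u₅` are nonzero. `(a', b', c')` is not a multiple of `(a, b, c)` (otherwise `N' = c • N`), so
`(x y, x z, y z)` is determined up to a factor by the two equations, hence `(x, y, z)` too: `u₄ = u₅`. (Or: `N'' = qf N w • N' - qf N' w • N`
for `w = u₁ + u₂` vanishes on the line `u₁ u₂`, `qf N'' (x, y, z) = 2 z (b'' x + c'' y)`, and `u₃, u₄, u₅` are on the line
`b'' x + c'' y = 0`, against `indep3`.) -/
theorem common_le (hp2 : p ≠ 2) {N N' : Matrix (Fin 3) (Fin 3) (ZMod p)} (hN : N.IsSymm)
    (hN' : N'.IsSymm) (hd : N.det ≠ 0) (hne : ∀ c : ZMod p, N' ≠ c • N) :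
    {l : PG p | OnConic N l ∧ OnConic N' l}.ncard ≤ 4 := by
  by_contra hcon
  set s : Set (PG p) := {l : PG p | OnConic N l ∧ OnConic N' l} with hs
  have h5 : 5 ≤ s.ncard := by omega
  have hfin : s.Finite := Set.finite_of_ncard_pos (by omega)
  rw [Set.ncard_eq_toFinset_card s hfin] at h5
  obtain ⟨t, hts, ht⟩ := Finset.exists_subset_card_eq h5
  let e := (t.equivFinOfCardEq ht).symm
  refine common_aux hp2 hN hN' hd hne (fun i => ((e i : PG p)).rep) ?_ ?_ ?_
  · intro i
    have := hts (e i).2
    rw [Set.Finite.mem_toFinset] at this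
    exact this.1
  · intro i
    have := hts (e i).2
    rw [Set.Finite.mem_toFinset] at this
    exact this.2
  · intro i j hij
    apply common_cross
    intro h
    exact hij (e.injective (Subtype.ext h))

end Pool.Agent.FewConics
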