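import Pool.Agent.Lib_MP_6b99df_fc.PencilA

/-! PIECE PencilB: the lines through a point. -/

set_option autoImplicit false

open scoped LinearAlgebra.Projectivization

namespace Pool.Agent.FewConics

variable {p : ℕ} [Fact p.Prime]

private theorem PencilB_orth {v : Fin 3 → ZMod p} (hv : v ≠ 0) (e : PG p) :
    Projectivization.orthogonal (Projectivization.mk (ZMod p) v hv) e ↔
      dotProduct v e.rep = 0 := by
  conv_lhs => rw [← Projectivization.mk_rep e]
  exact Projectivization.orthogonal_mk hv e.rep_nonzero

private theorem PencilB_orth' (l e : PG p) :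
    Projectivization.orthogonal l e ↔ dotProduct l.rep e.rep = 0 := by
  conv_lhs => rw [← Projectivization.mk_rep l]
  exact PencilB_orth l.rep_nonzero e

private theorem PencilB_S {S : (Fin 3 → ZMod p) → Prop}
    (hS : ∀ c : ZMod p, c ≠ 0 → ∀ v, S (c • v) ↔ S v) {v : Fin 3 → ZMod p} (hv : v ≠ 0) :
    S (Projectivization.mk (ZMod p) v hv).rep ↔ S v := by
  obtain ⟨c, hc⟩ := Projectivization.exists_smul_eq_mk_rep (ZMod p) v hv
  rw [← hc]
  exact hS c c.ne_zero v

private theorem PencilB_cross (a b : Fin 3 → ZMod p) (t : ZMod p) :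
    crossProduct (a + t • b) b = crossProduct a b := by
  rw [map_add, LinearMap.add_apply, map_smul, LinearMap.smul_apply, cross_self, smul_zero,
    add_zero]

/-- The lines through `e` are `mk (a + t b)`, `t ∈ ZMod p`, and `mk b`. -/
theorem pencil_count (e : PG p) (a b : Fin 3 → ZMod p) (ha : dotProduct a e.rep = 0)
    (hb : dotProduct b e.rep = 0) (s : ZMod p) (hs : s ≠ 0) (hab : crossProduct a b = s • e.rep)
    (S : (Fin 3 → ZMod p) → Prop) (hS : ∀ c : ZMod p, c ≠ 0 → ∀ v, S (c • v) ↔ S v) :
    {t : ZMod p | S (a + t • b)}.ncard ≤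
        {l : PG p | S l.rep ∧ Projectivization.orthogonal l e}.ncard ∧
      {l : PG p | S l.rep ∧ Projectivization.orthogonal l e}.ncard ≤
        {t : ZMod p | S (a + t • b)}.ncard + 1 := by
  classical
  have hab0 : crossProduct a b ≠ 0 := by
    rw [hab]
    exact smul_ne_zero hs e.rep_nonzero
  have hb0 : b ≠ 0 := by
    rintro rfl
    exact hab0 (map_zero _)
  have hne : ∀ t : ZMod p, a + t • b ≠ 0 := by
    intro t h
    apply hab0
    rw [← PencilB_cross a b t, h, map_zero, LinearMap.zero_apply]
  have hdot : ∀ t : ZMod p, dotProduct (a + t • b) e.rep = 0 := by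
    intro t
    rw [add_dotProduct, smul_dotProduct, ha, hb, smul_zero, add_zero]
  set φ : ZMod p → PG p := fun t => Projectivization.mk (ZMod p) (a + t • b) (hne t) with hφ
  have hinj : Function.Injective φ := by
    intro t t' h
    have h1 := (Projectivization.mk_eq_mk_iff_crossProduct_eq_zero (hne t) (hne t')).1 h
    have h2 : crossProduct (a + t • b) (a + t' • b) = (t' - t) • crossProduct a b := by
      have h3 : a + t' • b = (a + t • b) + (t' - t) • b := by
        rw [add_assoc, ← add_smul, add_sub_cancel]
      rw [h3, map_add, cross_self, zero_add, map_smul, PencilB_cross]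
    rw [h2] at h1
    rcases smul_eq_zero.1 h1 with h4 | h4
    · exact (sub_eq_zero.1 h4).symm
    · exact absurd h4 hab0
  have hfin : Finite (PG p) := Quotient.finite _
  constructor
  · refine Set.ncard_le_ncard_of_injOn φ ?_ hinj.injOn (Set.toFinite _)
    intro t ht
    exact ⟨(PencilB_S hS (hne t)).2 ht, (PencilB_orth (hne t) e).2 (hdot t)⟩
  · have hsub : {l : PG p | S l.rep ∧ Projectivization.orthogonal l e} ⊆
        insert (Projectivization.mk (ZMod p) b hb0) (φ '' {t : ZMod p | S (a + t • b)}) := by
      rintro l ⟨hl1, hl2⟩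
      obtain ⟨c, d, hcd⟩ := plane_comb e a b ha hb s hs hab l.rep ((PencilB_orth' l e).1 hl2)
      by_cases hc : c = 0
      · left
        rw [hc, zero_smul, zero_add] at hcd
        rw [← Projectivization.mk_rep l, Projectivization.mk_eq_mk_iff']
        exact ⟨d, hcd.symm⟩
      · right
        have h1 : l.rep = c • (a + (c⁻¹ * d) • b) := by
          rw [smul_add, smul_smul, mul_inv_cancel_left₀ hc]
          exact hcd
        refine ⟨c⁻¹ * d, ?_, ?_⟩
        · rw [h1] at hl1
          exact (hS c hc _).1 hl1
        · rw [hφ]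
          conv_rhs => rw [← Projectivization.mk_rep l]
          rw [Projectivization.mk_eq_mk_iff']
          refine ⟨c⁻¹, ?_⟩
          rw [h1, smul_smul, inv_mul_cancel₀ hc, one_smul]
    refine (Set.ncard_le_ncard hsub (Set.toFinite _)).trans ?_
    refine (Set.ncard_insert_le _ _).trans ?_
    exact Nat.add_le_add_right (Set.ncard_image_le (Set.toFinite _)) 1

/-- at most `p + 1` lines through a point, and (by duality) at most `p + 1` points on a line -/
theorem lines_le (e : PG p) : {l : PG p | Projectivization.orthogonal l e}.ncard ≤ p + 1 := by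
  obtain ⟨a, b, ha, hb, s, hs, hab⟩ := exists_basis e
  have h1 := (pencil_count e a b ha hb s hs hab (fun _ => True) (fun _ _ _ => Iff.rfl)).2
  have h2 : {t : ZMod p | True}.ncard = p := by
    rw [Set.ofPred_true, Set.ncard_univ, Nat.card_zmod]
  rw [h2] at h1
  have h3 : {l : PG p | Projectivization.orthogonal l e} =
      {l : PG p | True ∧ Projectivization.orthogonal l e} := by
    ext l
    simp
  rw [h3]
  exact h1

theorem points_le (l : PG p) : {e : PG p | Projectivization.orthogonal l e}.ncard ≤ p + 1 := by
  have h3 : {e : PG p | Projectivization.orthogonal l e} =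
      {e : PG p | Projectivization.orthogonal e l} := by
    ext e
    exact Projectivization.orthogonal_comm
  rw [h3]
  exact lines_le l

end Pool.Agent.FewConics
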