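import Pool.Agent.Lib_MP_6b99df_fc.PencilA

/-! PIECE PencilC: good bases of pencils, the number of points. -/

set_option autoImplicit false

open scoped LinearAlgebra.Projectivization

namespace Pool.Agent.FewConics

variable {p : ℕ} [Fact p.Prime]

/-- A basis such that no form vanishes at the second vector. Take `a₀, b₀` of `exists_basis`; `qf (N i) (a₀ + t b₀)` is a
nonzero polynomial of degree at most `2` in `t` (its discriminant is `≠ 0` by `gram` for `N i`), so at most `2 m < p`
values `t` are forbidden; `b = a₀ + t b₀`, `a = b₀`. -/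
theorem exists_pencil (hp2 : p ≠ 2) {ι : Type} [Fintype ι] (hm : 2 * Fintype.card ι < p)
    (N : ι → Matrix (Fin 3) (Fin 3) (ZMod p)) (hN : ∀ i, (N i).IsSymm) (e : PG p)
    (he : ∀ i, qf (N i).adjugate e.rep ≠ 0) :
    ∃ a b : Fin 3 → ZMod p, dotProduct a e.rep = 0 ∧ dotProduct b e.rep = 0 ∧
      (∃ s : ZMod p, s ≠ 0 ∧ crossProduct a b = s • e.rep) ∧ ∀ i, qf (N i) b ≠ 0 := by
  classical
  obtain ⟨a₀, b₀, ha, hb, s, hs, hab⟩ := exists_basis e
  have h2 : (2 : ZMod p) ≠ 0 := by
    intro h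
    have h1 : (p : ℕ) ∣ 2 := (ZMod.natCast_eq_zero_iff 2 p).1 (by exact_mod_cast h)
    exact hp2 ((Nat.prime_dvd_prime_iff_eq Fact.out Nat.prime_two).1 h1)
  let P : ι → Polynomial (ZMod p) := fun i =>
    Polynomial.C (qf (N i) b₀) * Polynomial.X ^ 2 + Polynomial.C (2 * bf (N i) a₀ b₀) * Polynomial.X +
      Polynomial.C (qf (N i) a₀)
  have hPe : ∀ i t, (P i).eval t = qf (N i) (a₀ + t • b₀) := by
    intro i t
    have h := qf_add (hN i) a₀ b₀ 1 t
    rw [one_smul] at h
    rw [h]
    simp only [P, Polynomial.eval_add, Polynomial.eval_mul, Polynomial.eval_C, Polynomial.eval_pow,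
      Polynomial.eval_X]
    ring
  have hP0 : ∀ i, P i ≠ 0 := by
    intro i h0
    have hg := gram (hN i) a₀ b₀
    rw [hab, qf_smul] at hg
    have hne : s ^ 2 * qf (N i).adjugate e.rep ≠ 0 := mul_ne_zero (pow_ne_zero 2 hs) (he i)
    have hc2 : (P i).coeff 2 = qf (N i) b₀ := by
      simp [P, Polynomial.coeff_X, Polynomial.coeff_C]
    have hc1 : (P i).coeff 1 = 2 * bf (N i) a₀ b₀ := by
      simp [P, Polynomial.coeff_X, Polynomial.coeff_C, Polynomial.coeff_X_pow]
    rw [h0, Polynomial.coeff_zero] at hc2 hc1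
    have hbf : bf (N i) a₀ b₀ = 0 := (mul_eq_zero.1 hc1.symm).resolve_left h2
    rw [← hc2, hbf] at hg
    apply hne
    rw [← hg]
    ring
  have hPd : ∀ i, (P i).natDegree ≤ 2 := fun i => by
    simp only [P]
    exact Polynomial.natDegree_quadratic_le
  have hcard : (Finset.univ.biUnion fun i => (P i).roots.toFinset).card < p := by
    refine lt_of_le_of_lt (Finset.card_biUnion_le.trans (Finset.sum_le_card_nsmul _ _ 2 fun i _ => ?_)) ?_
    · exact (Multiset.toFinset_card_le _).trans ((Polynomial.card_roots' _).trans (hPd i))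
    · rw [Finset.card_univ, smul_eq_mul, mul_comm]
      exact hm
  obtain ⟨t, ht⟩ : ∃ t : ZMod p, t ∉ Finset.univ.biUnion fun i => (P i).roots.toFinset := by
    by_contra hcon
    push Not at hcon
    have h1 : (Finset.univ.biUnion fun i => (P i).roots.toFinset) = (Finset.univ : Finset (ZMod p)) :=
      Finset.eq_univ_of_forall hcon
    rw [h1, Finset.card_univ, ZMod.card] at hcard
    exact lt_irrefl _ hcard
  refine ⟨b₀, a₀ + t • b₀, hb, ?_, ⟨-s, neg_ne_zero.2 hs, ?_⟩, fun i hi => ht ?_⟩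
  · rw [add_dotProduct, smul_dotProduct, ha, hb, smul_zero, add_zero]
  · rw [map_add, map_smul, cross_self, smul_zero, add_zero, neg_smul, ← hab, cross_anticomm]
  · rw [Finset.mem_biUnion]
    refine ⟨i, Finset.mem_univ i, ?_⟩
    rw [Multiset.mem_toFinset, Polynomial.mem_roots (hP0 i), Polynomial.IsRoot.def, hPe, hi]

/-- the points `(x, y, 1)` -/
theorem card_pg : p ^ 2 ≤ Nat.card (PG p) := by
  have h := Projectivization.card_of_finrank (ZMod p) (Fin 3 → ZMod p) (n := 3) (by simp)
  rw [h, Nat.card_zmod, Finset.sum_range_succ]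
  exact Nat.le_add_left _ _

end Pool.Agent.FewConics
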