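import Pool.Agent.Lib_MP_6b99df_fc.Tang
import Pool.Agent.Lib_MP_6b99df_fc.PencilB
import Pool.Agent.Lib_MP_6b99df_fc.PencilC

/-! PIECE Conic: few points on a conic. -/

set_option autoImplicit false

open scoped LinearAlgebra.Projectivization

namespace Pool.Agent.FewConics

variable {p : ℕ} [Fact p.Prime]

/-- Take a point `e` off the conic (`card_pg` > `points`; or: if all points are on the conic, `line_le` gives `p + 1 ≤ 2`).
Every point is on a line through `e` (`exists_line`), there are at most `p + 1` of them (`lines_le`), each with at most two points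
of the conic (`line_le`). (If there is no such `e`... a line has at least three points.) -/
theorem conic_le (hp2 : p ≠ 2) {M : Matrix (Fin 3) (Fin 3) (ZMod p)} (hM : M.IsSymm)
    (hd : M.det ≠ 0) : {P : PG p | OnConic M P}.ncard ≤ 2 * (p + 1) := by
  classical
  have : Fintype (PG p) := Fintype.ofFinite _
  obtain ⟨e⟩ : Nonempty (PG p) := ⟨Projectivization.mk (ZMod p) (fun _ => 1) (fun h => by
    have := congrFun h 0
    exact one_ne_zero this)⟩
  have h1 : {P : PG p | OnConic M P}.ncard =
      (Finset.univ.filter (fun P : PG p => OnConic M P)).card := by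
    rw [← Set.ncard_coe_finset]
    congr 1
    ext P
    simp
  have h2 : {l : PG p | Projectivization.orthogonal l e}.ncard =
      (Finset.univ.filter (fun l : PG p => Projectivization.orthogonal l e)).card := by
    rw [← Set.ncard_coe_finset]
    congr 1
    ext P
    simp
  have h3 : ∀ l : PG p, {P : PG p | OnConic M P ∧ Projectivization.orthogonal l P}.ncard =
      (Finset.univ.filter (fun P : PG p => OnConic M P ∧ Projectivization.orthogonal l P)).card := by
    intro l
    rw [← Set.ncard_coe_finset]
    congr 1
    ext P
    simp
  have h4 : (Finset.univ.filter (fun P : PG p => OnConic M P)) ⊆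
      (Finset.univ.filter (fun l : PG p => Projectivization.orthogonal l e)).biUnion
        (fun l => Finset.univ.filter
          (fun P : PG p => OnConic M P ∧ Projectivization.orthogonal l P)) := by
    intro P hP
    obtain ⟨l, hl1, hl2⟩ := exists_line e P
    rw [Finset.mem_biUnion]
    exact ⟨l, Finset.mem_filter.2 ⟨Finset.mem_univ _, hl1⟩,
      Finset.mem_filter.2 ⟨Finset.mem_univ _, (Finset.mem_filter.1 hP).2, hl2⟩⟩
  have h5 := (Finset.card_le_card h4).trans (Finset.card_biUnion_le_card_mul _ _ 2
    (fun l _ => by rw [← h3]; exact line_le hp2 hM hd l))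
  have h6 := lines_le e
  rw [h2] at h6
  rw [h1]
  calc _ ≤ _ := h5
    _ ≤ (p + 1) * 2 := Nat.mul_le_mul_right 2 h6
    _ = 2 * (p + 1) := Nat.mul_comm _ _

end Pool.Agent.FewConics
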