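import Pool.Agent.Lib_MP_6b99df_fc.Conic

/-! PIECE Lower: lower bound for the number of lines of XX. -/

set_option autoImplicit false

open scoped LinearAlgebra.Projectivization

namespace Pool.Agent.FewConics

variable {p : ℕ} [Fact p.Prime]

/-- `∑_e nn e ≤ (p + 1) #XX` (`points_le`), and at least `p ^ 2 - 2 m (p + 1) - z` points `e` (`card_pg`, `conic_le`) have
`nn e ≥ V`. -/
theorem lower_X (hp2 : p ≠ 2) {ι : Type} [Fintype ι] (M : ι → Matrix (Fin 3) (Fin 3) (ZMod p))
    (hM : ∀ i, (M i).IsSymm) (hd : ∀ i, (M i).det ≠ 0) (V : ℝ) (hV0 : 0 ≤ V)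
    (z : ℕ) (hz : (EE fun i => (M i).adjugate).ncard ≤ z)
    (hV : ∀ e : PG p, (∀ i, ¬ OnConic (M i) e) → e ∉ EE (fun i => (M i).adjugate) →
      V ≤ (nn (fun i => (M i).adjugate) e : ℝ)) :
    ((p : ℝ) ^ 2 - 2 * Fintype.card ι * (p + 1) - z) * V ≤
      (p + 1) * ((XX fun i => (M i).adjugate).ncard : ℝ) := by
  classical
  have : Fintype (PG p) := Fintype.ofFinite _
  generalize hX : (XX fun i => (M i).adjugate) = X at *
  generalize hE : (EE fun i => (M i).adjugate) = E at *
  have hncard : ∀ S : PG p → Prop, {P : PG p | S P}.ncard = (Finset.univ.filter S).card := by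
    intro S
    rw [← Set.ncard_coe_finset]
    congr 1
    ext P
    simp
  have hXc : X.ncard = (Finset.univ.filter (fun l : PG p => l ∈ X)).card := hncard (fun l => l ∈ X)
  have hEc : E.ncard = (Finset.univ.filter (fun l : PG p => l ∈ E)).card := hncard (fun l => l ∈ E)
  have hnn : ∀ e : PG p, nn (fun i => (M i).adjugate) e =
      ∑ l ∈ Finset.univ.filter (fun l : PG p => l ∈ X),
        if Projectivization.orthogonal l e then 1 else 0 := by
    intro e
    unfold nn
    rw [hX, hncard (fun l => l ∈ X ∧ Projectivization.orthogonal l e), ← Finset.card_filter,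
      Finset.filter_filter]
    apply congrArg Finset.card
    ext l
    simp only [Finset.mem_filter, Finset.mem_univ, true_and]
  -- upper bound of the double count
  have hup : ∑ e : PG p, nn (fun i => (M i).adjugate) e ≤ (p + 1) * X.ncard := by
    rw [Finset.sum_congr rfl fun e _ => hnn e, Finset.sum_comm, hXc, Nat.mul_comm]
    refine (Finset.sum_le_card_nsmul _ _ (p + 1) fun l _ => ?_).trans (le_of_eq (smul_eq_mul _ _))
    rw [← Finset.card_filter, ← hncard (fun e => Projectivization.orthogonal l e)]
    exact points_le l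
  -- the good points
  have hgood : p ^ 2 ≤ (Finset.univ.filter (fun e : PG p => (∀ i, ¬ OnConic (M i) e) ∧ e ∉ E)).card +
      Fintype.card ι * (2 * (p + 1)) + z := by
    have h1 : (Finset.univ : Finset (PG p)) ⊆
        ((Finset.univ.filter (fun e : PG p => (∀ i, ¬ OnConic (M i) e) ∧ e ∉ E)) ∪
          (Finset.univ.biUnion fun i : ι => Finset.univ.filter (fun e : PG p => OnConic (M i) e))) ∪
          (Finset.univ.filter (fun e : PG p => e ∈ E)) := by
      intro e _
      simp only [Finset.mem_union, Finset.mem_filter, Finset.mem_univ, true_and,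
        Finset.mem_biUnion]
      by_cases h1 : e ∈ E
      · exact Or.inr h1
      · by_cases h2 : ∃ i, OnConic (M i) e
        · exact Or.inl (Or.inr h2)
        · push Not at h2
          exact Or.inl (Or.inl ⟨h2, h1⟩)
    have h2 := Finset.card_le_card h1
    have h3 : p ^ 2 ≤ (Finset.univ : Finset (PG p)).card := by
      have h := card_pg (p := p)
      rwa [Nat.card_eq_fintype_card] at h
    have h4 : (Finset.univ.biUnion fun i : ι =>
        Finset.univ.filter (fun e : PG p => OnConic (M i) e)).card ≤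
        Fintype.card ι * (2 * (p + 1)) := by
      refine (Finset.card_biUnion_le_card_mul _ _ (2 * (p + 1)) fun i _ => ?_).trans (le_of_eq rfl)
      rw [← hncard (fun e => OnConic (M i) e)]
      exact conic_le hp2 (hM i) (hd i)
    have h5 := (Finset.card_union_le
      ((Finset.univ.filter (fun e : PG p => (∀ i, ¬ OnConic (M i) e) ∧ e ∉ E)) ∪
        (Finset.univ.biUnion fun i : ι => Finset.univ.filter (fun e : PG p => OnConic (M i) e)))
      (Finset.univ.filter (fun e : PG p => e ∈ E)))
    have h6 := (Finset.card_union_le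
      (Finset.univ.filter (fun e : PG p => (∀ i, ¬ OnConic (M i) e) ∧ e ∉ E))
      (Finset.univ.biUnion fun i : ι => Finset.univ.filter (fun e : PG p => OnConic (M i) e)))
    rw [hEc] at hz
    omega
  have hlow : ((Finset.univ.filter (fun e : PG p => (∀ i, ¬ OnConic (M i) e) ∧ e ∉ E)).card : ℝ) * V
      ≤ ∑ e : PG p, (nn (fun i => (M i).adjugate) e : ℝ) := by
    calc ((Finset.univ.filter (fun e : PG p => (∀ i, ¬ OnConic (M i) e) ∧ e ∉ E)).card : ℝ) * V
        = ∑ _e ∈ Finset.univ.filter (fun e : PG p => (∀ i, ¬ OnConic (M i) e) ∧ e ∉ E), V := by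
          rw [Finset.sum_const, nsmul_eq_mul]
      _ ≤ ∑ e ∈ Finset.univ.filter (fun e : PG p => (∀ i, ¬ OnConic (M i) e) ∧ e ∉ E),
          (nn (fun i => (M i).adjugate) e : ℝ) := by
          apply Finset.sum_le_sum
          intro e he
          obtain ⟨h1, h2⟩ := (Finset.mem_filter.1 he).2
          exact hV e h1 h2
      _ ≤ ∑ e : PG p, (nn (fun i => (M i).adjugate) e : ℝ) :=
          Finset.sum_le_sum_of_subset_of_nonneg (Finset.filter_subset _ _)
            fun e _ _ => Nat.cast_nonneg _
  have hup' : ∑ e : PG p, (nn (fun i => (M i).adjugate) e : ℝ) ≤ (p + 1) * (X.ncard : ℝ) := by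
    exact_mod_cast hup
  refine le_trans ?_ (hlow.trans hup')
  apply mul_le_mul_of_nonneg_right _ hV0
  have hg : (p : ℝ) ^ 2 ≤
      ((Finset.univ.filter (fun e : PG p => (∀ i, ¬ OnConic (M i) e) ∧ e ∉ E)).card : ℝ) +
      Fintype.card ι * (2 * (p + 1)) + z := by
    exact_mod_cast hgood
  linarith

end Pool.Agent.FewConics
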