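import Mathlib

/-! PIECE Sq: when a product of quadratic polynomials is a constant times a square. -/

set_option autoImplicit false

open Polynomial

namespace Pool.Agent.FewConics

private theorem sq_aux {ι : Type} [DecidableEq ι] (p : ℕ) [Fact p.Prime] (f : ι → (ZMod p)[X])
    (hdeg : ∀ i, (f i).natDegree = 2) (hsep : ∀ i, (f i).Separable) (I : Finset ι) (i : ι)
    (hi : i ∈ I) (c : ZMod p) (h : (ZMod p)[X]) (hsq : ∏ j ∈ I, f j = C c * h ^ 2)
    (q : (ZMod p)[X]) (hq : Prime q) (hqi : q ∣ f i) : ∃ j, j ≠ i ∧ q ∣ f j := by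
  have hne : ∀ j, f j ≠ 0 := by
    intro j hj
    have := hdeg j
    rw [hj] at this
    simp at this
  have hprod : ∏ j ∈ I, f j ≠ 0 := Finset.prod_ne_zero_iff.mpr (fun j _ => hne j)
  have hc : c ≠ 0 := by
    rintro rfl
    rw [hsq] at hprod
    simp at hprod
  have hqh : q ∣ h := by
    have h1 : q ∣ C c * h ^ 2 := by
      rw [← hsq]
      exact hqi.trans (Finset.dvd_prod_of_mem f hi)
    rcases hq.dvd_or_dvd h1 with h2 | h2
    · exact absurd (isUnit_of_dvd_unit h2 (isUnit_C.mpr hc.isUnit)) hq.not_isUnit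
    · exact hq.dvd_of_dvd_pow h2
  have hq2 : q ^ 2 ∣ f i * ∏ j ∈ I.erase i, f j := by
    rw [Finset.mul_prod_erase I f hi, hsq]
    exact (pow_dvd_pow_of_dvd hqh 2).trans (Dvd.intro_left _ rfl)
  have hnot : ¬ q ^ 2 ∣ f i := by
    intro h3
    rw [pow_two] at h3
    exact hq.not_isUnit ((hsep i).squarefree q h3)
  have h4 : q ∣ ∏ j ∈ I.erase i, f j := by
    by_contra h5
    exact hnot (hq.pow_dvd_of_dvd_mul_right 2 h5 hq2)
  obtain ⟨j, hj, hj2⟩ := (hq.dvd_finsetProd_iff f).mp h4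
  exact ⟨j, (Finset.mem_erase.mp hj).1, hj2⟩

/-- If `f i` has a zero `a`: `f i = (X - a) g`, `g` has a zero `b ≠ a` (`f i` is separable of degree `2`). `X - a` divides
`C c * h ^ 2`, hence `h`, so `(X - a) ^ 2` divides `f i * ∏ j ∈ I.erase i, f j`; as `g (a) ≠ 0`, `X - a` divides some `f j`. In the same way
for `b`. Otherwise `f i` is irreducible (`Polynomial.irreducible_of_degree_le_three_of_not_isRoot`), hence prime; in the same
way `f i` divides some `f j`, `j ∈ I.erase i`, of the same degree. Note `c ≠ 0`, `h ≠ 0`. -/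
theorem sq_cases {ι : Type} [DecidableEq ι] (p : ℕ) [Fact p.Prime] (f : ι → (ZMod p)[X])
    (hdeg : ∀ i, (f i).natDegree = 2) (hsep : ∀ i, (f i).Separable) (I : Finset ι) (i : ι)
    (hi : i ∈ I) (c : ZMod p) (h : (ZMod p)[X]) (hsq : ∏ j ∈ I, f j = C c * h ^ 2) :
    (∃ a b : ZMod p, a ≠ b ∧ (f i).eval a = 0 ∧ (f i).eval b = 0 ∧
      (∃ j, j ≠ i ∧ (f j).eval a = 0) ∧ (∃ j, j ≠ i ∧ (f j).eval b = 0)) ∨
    (∃ j, j ≠ i ∧ ∃ c : ZMod p, f j = C c * f i) := by
  by_cases hroot : ∃ a, (f i).IsRoot a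
  · left
    obtain ⟨a, ha⟩ := hroot
    obtain ⟨g, hg⟩ := dvd_iff_isRoot.mpr ha
    have hgdeg : g.natDegree = 1 := by
      have h1 := hdeg i
      have hg0 : g ≠ 0 := by
        rintro rfl
        rw [hg] at h1
        simp at h1
      rw [hg, natDegree_mul (X_sub_C_ne_zero a) hg0, natDegree_X_sub_C] at h1
      omega
    have hg1 : g.degree = 1 := by
      rw [degree_eq_natDegree, hgdeg]
      · rfl
      · rintro rfl
        simp at hgdeg
    obtain ⟨b, hb⟩ := exists_root_of_degree_eq_one hg1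
    have hfb : (f i).IsRoot b := by
      rw [hg]
      exact root_mul_left_of_isRoot _ hb
    have hab : a ≠ b := by
      rintro rfl
      obtain ⟨g', hg'⟩ := dvd_iff_isRoot.mpr hb
      have h2 : (X - C a) * (X - C a) ∣ f i := by
        rw [hg, hg', ← mul_assoc]
        exact Dvd.intro _ rfl
      exact (prime_X_sub_C a).not_isUnit ((hsep i).squarefree _ h2)
    obtain ⟨j, hj, hj2⟩ := sq_aux p f hdeg hsep I i hi c h hsq _ (prime_X_sub_C a)
      (dvd_iff_isRoot.mpr ha)
    obtain ⟨k, hk, hk2⟩ := sq_aux p f hdeg hsep I i hi c h hsq _ (prime_X_sub_C b)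
      (dvd_iff_isRoot.mpr hfb)
    exact ⟨a, b, hab, ha, hfb, ⟨j, hj, dvd_iff_isRoot.mp hj2⟩, ⟨k, hk, dvd_iff_isRoot.mp hk2⟩⟩
  · right
    push Not at hroot
    have hirr : Irreducible (f i) := by
      apply irreducible_of_degree_le_three_of_not_isRoot
      · rw [hdeg i]
        simp
      · exact hroot
    obtain ⟨j, hj, q, hq⟩ := sq_aux p f hdeg hsep I i hi c h hsq _ hirr.prime dvd_rfl
    refine ⟨j, hj, q.coeff 0, ?_⟩
    have hf0 : f i ≠ 0 := hirr.ne_zero
    have hq0 : q ≠ 0 := by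
      rintro rfl
      have := hdeg j
      rw [hq] at this
      simp at this
    have hqd : q.natDegree = 0 := by
      have h1 := hdeg j
      rw [hq, natDegree_mul hf0 hq0, hdeg i] at h1
      omega
    rw [← eq_C_of_natDegree_eq_zero hqd, hq, mul_comm]

end Pool.Agent.FewConics
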