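import Pool.Agent.Lib_MP_6b99df_fc.Count
import Pool.Agent.Lib_MP_6b99df_fc.Sq
import Pool.Agent.Lib_MP_6b99df_fc.PencilB
import Pool.Agent.Lib_MP_6b99df_fc.PencilC

/-! PIECE Point: the number of lines of XX through a point which is not exceptional. -/

set_option autoImplicit false

open scoped LinearAlgebra.Projectivization

namespace Pool.Agent.FewConics

variable {p : ℕ} [Fact p.Prime]

open Polynomial in
/-- the polynomial of a pencil -/
private noncomputable def Point_f (N : Matrix (Fin 3) (Fin 3) (ZMod p)) (a b : Fin 3 → ZMod p) :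
    (ZMod p)[X] :=
  C (-(qf N b)) * X ^ 2 + C (-(2 * bf N a b)) * X + C (-(qf N a))

private theorem Point_eval {N : Matrix (Fin 3) (Fin 3) (ZMod p)} (hN : N.IsSymm)
    (a b : Fin 3 → ZMod p) (t : ZMod p) : (Point_f N a b).eval t = -(qf N (a + t • b)) := by
  have h := qf_add hN a b 1 t
  rw [one_smul] at h
  rw [h]
  simp [Point_f]
  ring

open Polynomial in
private theorem Point_deg (N : Matrix (Fin 3) (Fin 3) (ZMod p)) (a b : Fin 3 → ZMod p)
    (hb : qf N b ≠ 0) : (Point_f N a b).natDegree = 2 :=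
  natDegree_quadratic (neg_ne_zero.2 hb)

open Polynomial in
private theorem Point_sep (N : Matrix (Fin 3) (Fin 3) (ZMod p)) (a b : Fin 3 → ZMod p)
    (hd : 4 * (bf N a b ^ 2 - qf N a * qf N b) ≠ 0) : (Point_f N a b).Separable := by
  set D := 4 * (bf N a b ^ 2 - qf N a * qf N b) with hD
  have hder : derivative (Point_f N a b) = C (-(2 * qf N b)) * X + C (-(2 * bf N a b)) := by
    unfold Point_f
    simp only [derivative_add, derivative_C_mul, derivative_X_pow, derivative_C, derivative_X,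
      add_zero, mul_one]
    simp only [map_neg, map_mul, C_ofNat]
    norm_num
    rw [show (C (2 : ZMod p) : (ZMod p)[X]) = 2 from map_ofNat C 2]
    ring
  refine ⟨C (4 * qf N b * D⁻¹), (C (-(2 * qf N b)) * X + C (-(2 * bf N a b))) * C (D⁻¹), ?_⟩
  rw [hder]
  have h1 : C D * C (D⁻¹) = (1 : (ZMod p)[X]) := by
    rw [← C_mul, mul_inv_cancel₀ hd, C_1]
  rw [← h1, hD]
  unfold Point_f
  simp only [map_neg, map_mul, C_ofNat, map_sub, map_pow]
  ring

private theorem Point_adj (M : Matrix (Fin 3) (Fin 3) (ZMod p)) (x : Fin 3 → ZMod p) :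
    qf M.adjugate.adjugate x = M.det * qf M x := by
  rw [Matrix.adjugate_adjugate M (by simp)]
  unfold qf
  rw [Matrix.smul_mulVec, dotProduct_smul, smul_eq_mul]
  simp only [Fintype.card_fin]
  rw [show (3 - 2 : ℕ) = 1 from rfl, pow_one]

private theorem Point_cross (a b : Fin 3 → ZMod p) (t u : ZMod p) :
    crossProduct (a + t • b) (a + u • b) = (u - t) • crossProduct a b := by
  rw [cross_apply, cross_apply]
  ext i
  fin_cases i <;> simp <;> ring

private theorem Point_cross' (a b : Fin 3 → ZMod p) (t : ZMod p) :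
    crossProduct (a + t • b) b = crossProduct a b := by
  rw [cross_apply, cross_apply]
  ext i
  fin_cases i <;> simp <;> ring

private theorem Point_orth (e : PG p) (v : Fin 3 → ZMod p) (hv : v ≠ 0)
    (h : dotProduct v e.rep = 0) :
    Projectivization.orthogonal (Projectivization.mk (ZMod p) v hv) e := by
  rw [orth_iff]
  obtain ⟨c, hc⟩ := Projectivization.exists_smul_eq_mk_rep (ZMod p) v hv
  rw [← hc]
  change dotProduct ((c : ZMod p) • v) e.rep = 0
  rw [smul_dotProduct, h, smul_zero]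

/-- `N i = adjugate (M i)`, `a, b` from `exists_pencil` (`(N i).adjugate = det (M i) • M i`), `f i` the polynomial
`-(qf (N i) (a + X b)) = -(qf (N i) a + 2 X bf (N i) a b + X ^ 2 qf (N i) b)`: degree `2`, separable since
`bf ^ 2 - qf * qf = -det * qf M (s • e) ≠ 0` (`gram_adj`). `count_all` gives the bound for `t ∈ ZMod p`, `pencil_count` (with `S v := ∀ i, Ext (N i) v`)
adds at most `1`. Hypothesis of `count_all`: if a product over `I ∋ i` is a constant times a square, then by `sq_cases` either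
`f i (t₁) = f i (t₂) = 0`, `t₁ ≠ t₂`, `f j (t₁) = 0`, `f j' (t₂) = 0`: the lines `mk (a + t₁ b)`, `mk (a + t₂ b)` show that `e ∈ EE N`;
or `f j = C c * f i`: then `qf (N j) v = c * qf (N i) v` for all `v = x a + y b` (compare the three coefficients), i.e. for all
`v` orthogonal to `e` (`plane_comb`): `e ∈ EE N`. -/
theorem nn_bound (hp2 : p ≠ 2) {ι : Type} [Fintype ι] (h0 : 0 < Fintype.card ι)
    (hm : 2 * Fintype.card ι < p)
    (M : ι → Matrix (Fin 3) (Fin 3) (ZMod p)) (hM : ∀ i, (M i).IsSymm) (hd : ∀ i, (M i).det ≠ 0)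
    (e : PG p) (he : ∀ i, ¬ OnConic (M i) e) (hE : e ∉ EE fun i => (M i).adjugate) :
    |(nn (fun i => (M i).adjugate) e : ℝ) - p / 2 ^ (Fintype.card ι)| ≤
      85 * Fintype.card ι * √p := by
  classical
  have hNs : ∀ i, (M i).adjugate.IsSymm := fun i => adj_symm (hM i)
  obtain ⟨a, b, ha, hb, ⟨s, hs, hab⟩, hNb⟩ := exists_pencil hp2 hm (fun i => (M i).adjugate) hNs e
    (fun i => by
      rw [Point_adj]
      exact mul_ne_zero (hd i) (he i))
  set f : ι → Polynomial (ZMod p) := fun i => Point_f (M i).adjugate a b with hf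
  have h2 : (2 : ZMod p) ≠ 0 := by
    intro h
    have h3 : ((2 : ℕ) : ZMod p) = 0 := by exact_mod_cast h
    rw [ZMod.natCast_eq_zero_iff] at h3
    exact hp2 ((Nat.prime_dvd_prime_iff_eq Fact.out Nat.prime_two).1 h3)
  have hdeg : ∀ i, (f i).natDegree = 2 := fun i => Point_deg _ a b (hNb i)
  have hsep : ∀ i, (f i).Separable := by
    intro i
    refine Point_sep _ a b ?_
    rw [gram_adj (hM i), hab, qf_smul]
    have h4 : (4 : ZMod p) ≠ 0 := by
      have : (4 : ZMod p) = 2 * 2 := by norm_num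
      rw [this]
      exact mul_ne_zero h2 h2
    exact mul_ne_zero h4 (neg_ne_zero.2 (mul_ne_zero (hd i) (mul_ne_zero (pow_ne_zero 2 hs) (he i))))
  have heval : ∀ i t, (f i).eval t = -(qf (M i).adjugate (a + t • b)) := fun i t =>
    Point_eval (hNs i) a b t
  have hs0 : s • e.rep ≠ 0 := smul_ne_zero hs e.rep_nonzero
  have hv0 : ∀ t : ZMod p, a + t • b ≠ 0 := by
    intro t h
    have h1 := Point_cross' a b t
    rw [h, hab] at h1
    apply hs0
    rw [← h1]
    simp
  have horth : ∀ t : ZMod p, dotProduct (a + t • b) e.rep = 0 := by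
    intro t
    rw [add_dotProduct, smul_dotProduct, ha, hb, smul_zero, add_zero]
  have hns : ∀ I : Finset ι, I.Nonempty → ∀ (c : ZMod p) (h : Polynomial (ZMod p)),
      ∏ i ∈ I, f i ≠ Polynomial.C c * h ^ 2 := by
    rintro I ⟨i, hi⟩ c h hsq
    rcases sq_cases p f hdeg hsep I i hi c h hsq with
      ⟨t₁, t₂, hne, h1, h3, ⟨j, hj, hj1⟩, ⟨j', hj', hj'1⟩⟩ | ⟨j, hj, c', hc'⟩
    · apply hE
      left
      rw [heval, neg_eq_zero] at h1 h3 hj1 hj'1
      refine ⟨Projectivization.mk (ZMod p) _ (hv0 t₁), Projectivization.mk (ZMod p) _ (hv0 t₂), ?_,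
        Point_orth e _ _ (horth t₁), Point_orth e _ _ (horth t₂),
        ⟨i, j, hj.symm, (onConic_mk _ _ _).2 h1, (onConic_mk _ _ _).2 hj1⟩,
        ⟨i, j', hj'.symm, (onConic_mk _ _ _).2 h3, (onConic_mk _ _ _).2 hj'1⟩⟩
      intro hmk
      rw [Projectivization.mk_eq_mk_iff'] at hmk
      obtain ⟨u, hu⟩ := hmk
      have h4 := Point_cross a b t₁ t₂
      rw [← hu, hab] at h4
      have h5 : crossProduct (u • (a + t₂ • b)) (a + t₂ • b) = 0 := by
        rw [map_smul, LinearMap.smul_apply, cross_self, smul_zero]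
      rw [h5] at h4
      exact smul_ne_zero (sub_ne_zero.2 hne.symm) hs0 h4.symm
    · apply hE
      right
      refine ⟨i, j, hj.symm, c', fun v hv => ?_⟩
      obtain ⟨x, y, rfl⟩ := plane_comb e a b ha hb s hs hab v hv
      have k0 := congrArg (fun q => Polynomial.coeff q 0) hc'
      have k1 := congrArg (fun q => Polynomial.coeff q 1) hc'
      have k2 := congrArg (fun q => Polynomial.coeff q 2) hc'
      simp [hf, Point_f, Polynomial.coeff_X, Polynomial.coeff_C] at k0 k1 k2
      rw [qf_add (hNs j), qf_add (hNs i)]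
      linear_combination x ^ 2 * k0 + x * y * k1 + y ^ 2 * k2
  have hcount := count_all p hp2 f (fun i => (hdeg i).le) hns
  have hpen := pencil_count e a b ha hb s hs hab (fun v => ∀ i, Ext (M i).adjugate v)
    (fun c hc v => forall_congr' fun i => ext_smul _ c hc v)
  have hset : {t : ZMod p | ∀ i, Ext (M i).adjugate (a + t • b)} =
      {t : ZMod p | ∀ i, quadraticChar (ZMod p) ((f i).eval t) = -1} := by
    ext t
    refine forall_congr' fun i => ?_
    rw [heval]
    exact Iff.rfl
  rw [hset] at hpen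
  have hnn : nn (fun i => (M i).adjugate) e =
      {l : PG p | (∀ i, Ext (M i).adjugate l.rep) ∧ Projectivization.orthogonal l e}.ncard := rfl
  rw [hnn]
  have hp1 : (1 : ℝ) ≤ √p := by
    rw [Real.one_le_sqrt]
    exact_mod_cast (Fact.out : p.Prime).one_lt.le
  have hm1 : (1 : ℝ) ≤ (Fintype.card ι : ℝ) := by exact_mod_cast h0
  have h5 : (1 : ℝ) ≤ (Fintype.card ι : ℝ) * √p := by nlinarith
  have h6 : (({t : ZMod p | ∀ i, quadraticChar (ZMod p) ((f i).eval t) = -1}.ncard : ℕ) : ℝ) ≤
      ({l : PG p | (∀ i, Ext (M i).adjugate l.rep) ∧ Projectivization.orthogonal l e}.ncard : ℝ) := by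
    exact_mod_cast hpen.1
  have h7 : ({l : PG p | (∀ i, Ext (M i).adjugate l.rep) ∧
      Projectivization.orthogonal l e}.ncard : ℝ) ≤
      (({t : ZMod p | ∀ i, quadraticChar (ZMod p) ((f i).eval t) = -1}.ncard : ℕ) : ℝ) + 1 := by
    exact_mod_cast hpen.2
  rw [abs_le] at hcount ⊢
  constructor <;> linarith [hcount.1, hcount.2]

end Pool.Agent.FewConics
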