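import Pool.Agent.Lib_MP_6b99df_fc.Alg
import Pool.Agent.Lib_MP_6b99df_fc.PencilB

/-! PIECE Upper: upper bound for the number of lines of XX. -/

set_option autoImplicit false

open scoped LinearAlgebra.Projectivization

namespace Pool.Agent.FewConics

variable {p : ℕ} [Fact p.Prime]

/-- Each line of `XX` meets `E` (it meets `B`, and it misses the conics: `miss_line`): `#XX ≤ ∑_{e ∈ E} nn e`; the points of
`E ∩ EE` (at most `22 m ^ 4`) have `nn e ≤ p + 1`, the others `nn e ≤ U`. -/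
theorem upper_X {ι : Type} [Fintype ι] (M : ι → Matrix (Fin 3) (Fin 3) (ZMod p))
    (hM : ∀ i, (M i).IsSymm) (B : Set (PG p)) (hB : Blocking B) (U : ℝ) (hU0 : 0 ≤ U)
    (z : ℕ) (hz : (EE fun i => (M i).adjugate).ncard ≤ z)
    (hU : ∀ e : PG p, (∀ i, ¬ OnConic (M i) e) → e ∉ EE (fun i => (M i).adjugate) →
      (nn (fun i => (M i).adjugate) e : ℝ) ≤ U) :
    ((XX fun i => (M i).adjugate).ncard : ℝ) ≤
      {P | P ∈ B ∧ ∀ i, ¬ OnConic (M i) P}.ncard * U + z * (p + 1) := by
  classical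
  have hfin : Finite (PG p) := inferInstance
  set N : ι → Matrix (Fin 3) (Fin 3) (ZMod p) := fun i => (M i).adjugate with hN
  have hf : ∀ S : Set (PG p), S.Finite := fun S => Set.toFinite S
  set E : Finset (PG p) := (hf {P | P ∈ B ∧ ∀ i, ¬ OnConic (M i) P}).toFinset with hE
  set X : Finset (PG p) := (hf (XX N)).toFinset with hX
  set T : PG p → Finset (PG p) := fun e =>
    (hf {l | l ∈ XX N ∧ Projectivization.orthogonal l e}).toFinset with hT
  have hTn : ∀ e, (T e).card = nn N e := fun e => by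
    unfold nn
    rw [Set.ncard_eq_toFinset_card _ (hf _)]
  have hsub : X ⊆ E.biUnion T := by
    intro l hl
    rw [hX, Set.Finite.mem_toFinset] at hl
    obtain ⟨P, hPB, hP⟩ := hB l
    rw [Finset.mem_biUnion]
    refine ⟨P, ?_, ?_⟩
    · rw [hE, Set.Finite.mem_toFinset]
      exact ⟨hPB, fun i => miss_line (hM i) l P (hl i) hP⟩
    · rw [hT, Set.Finite.mem_toFinset]
      exact ⟨hl, hP⟩
  have h1 : X.card ≤ ∑ e ∈ E, nn N e := by
    refine (Finset.card_le_card hsub).trans (Finset.card_biUnion_le.trans ?_)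
    exact le_of_eq (Finset.sum_congr rfl fun e _ => hTn e)
  have hnn : ∀ e, nn N e ≤ p + 1 := fun e =>
    (Set.ncard_le_ncard (fun l hl => hl.2) (hf _)).trans (lines_le e)
  have h2 : ∀ e ∈ E, (nn N e : ℝ) ≤ U + (if e ∈ EE N then ((p : ℝ) + 1) else 0) := by
    intro e he
    rw [hE, Set.Finite.mem_toFinset] at he
    by_cases h : e ∈ EE N
    · rw [if_pos h]
      have h3 : (nn N e : ℝ) ≤ (p : ℝ) + 1 := by exact_mod_cast hnn e
      linarith
    · rw [if_neg h, add_zero]
      exact hU e he.2 h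
  have h3 : (X.card : ℝ) ≤ ∑ e ∈ E, (nn N e : ℝ) := by exact_mod_cast h1
  have h4 : ((E.filter fun e => e ∈ EE N).card : ℝ) ≤ z := by
    have h5 : (E.filter fun e => e ∈ EE N).card ≤ (EE N).ncard := by
      rw [Set.ncard_eq_toFinset_card _ (hf (EE N))]
      refine Finset.card_le_card fun e he => ?_
      rw [Set.Finite.mem_toFinset]
      exact (Finset.mem_filter.1 he).2
    exact_mod_cast h5.trans hz
  rw [Set.ncard_eq_toFinset_card _ (hf (XX N)), Set.ncard_eq_toFinset_card _ (hf _)]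
  calc (X.card : ℝ) ≤ ∑ e ∈ E, (nn N e : ℝ) := h3
    _ ≤ ∑ e ∈ E, (U + (if e ∈ EE N then ((p : ℝ) + 1) else 0)) := Finset.sum_le_sum h2
    _ = E.card * U + (E.filter fun e => e ∈ EE N).card * ((p : ℝ) + 1) := by
      rw [Finset.sum_add_distrib, Finset.sum_const, nsmul_eq_mul, ← Finset.sum_filter,
        Finset.sum_const, nsmul_eq_mul]
    _ ≤ E.card * U + z * ((p : ℝ) + 1) := by
      have h6 : (0 : ℝ) ≤ (p : ℝ) + 1 := by positivity
      have h7 := mul_le_mul_of_nonneg_right h4 h6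
      linarith

end Pool.Agent.FewConics
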