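import Pool.Agent.Lib_MP_6b99df_fc.Exc
import Pool.Agent.Lib_MP_6b99df_fc.Point
import Pool.Agent.Lib_MP_6b99df_fc.Upper
import Pool.Agent.Lib_MP_6b99df_fc.Lower
import Pool.Agent.Lib_MP_6b99df_fc.Arith

/-! PIECE Core: double counting (assembly, done). -/

set_option autoImplicit false

open scoped LinearAlgebra.Projectivization

namespace Pool.Agent.FewConics

variable {p : ℕ} [Fact p.Prime]

theorem core (hp2 : p ≠ 2) {ι : Type} [Fintype ι] (h0 : 0 < Fintype.card ι)
    (M : ι → Matrix (Fin 3) (Fin 3) (ZMod p)) (hM : ∀ i, (M i).IsSymm) (hd : ∀ i, (M i).det ≠ 0)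
    (hne : ∀ i j, i ≠ j → ∀ c : ZMod p, M j ≠ c • M i) (B : Set (PG p)) (hB : Blocking B) :
    (p : ℝ) - 300 * 2 ^ (Fintype.card ι) * (Fintype.card ι) ^ 4 * √p ≤
      {P | P ∈ B ∧ ∀ i, ¬ OnConic (M i) P}.ncard := by
  have hp : p.Prime := Fact.out
  have hp3 : 3 ≤ p := by
    have := hp.two_le
    omega
  by_cases hK : 300 * (2 : ℝ) ^ (Fintype.card ι) * (Fintype.card ι) ^ 4 * √p < p
  · have hm : 2 * Fintype.card ι < p := by
      have h1 : (1 : ℝ) ≤ √p := by
        rw [Real.one_le_sqrt]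
        exact_mod_cast hp.one_lt.le
      have h2 : (1 : ℝ) ≤ (Fintype.card ι : ℝ) := by exact_mod_cast h0
      have h3 : (1 : ℝ) ≤ (2 : ℝ) ^ (Fintype.card ι) := one_le_pow₀ (by norm_num)
      have h4 : (Fintype.card ι : ℝ) ≤ (Fintype.card ι : ℝ) ^ 4 := by
        calc (Fintype.card ι : ℝ) = (Fintype.card ι : ℝ) ^ 1 := (pow_one _).symm
          _ ≤ (Fintype.card ι : ℝ) ^ 4 := pow_le_pow_right₀ h2 (by norm_num)
      have h5 : (2 : ℝ) * (Fintype.card ι : ℝ) < p := by
        refine lt_of_le_of_lt ?_ hK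
        have h6 : (Fintype.card ι : ℝ) ≤ (2 : ℝ) ^ (Fintype.card ι) * (Fintype.card ι) ^ 4 := by
          nlinarith
        have h7 : (Fintype.card ι : ℝ) ≤
            (2 : ℝ) ^ (Fintype.card ι) * (Fintype.card ι) ^ 4 * √p := by
          nlinarith
        nlinarith
      exact_mod_cast h5
    have hN : ∀ i, ((M i).adjugate).IsSymm := fun i => adj_symm (hM i)
    have hNd : ∀ i, ((M i).adjugate).det ≠ 0 := fun i => adj_det (hd i)
    have hNne : ∀ i j, i ≠ j → ∀ c : ZMod p, (M j).adjugate ≠ c • (M i).adjugate :=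
      fun i j hij => adj_ne (hd i) (hd j) (hne i j hij)
    have hz := ee_le hp2 (fun i => (M i).adjugate) hN hNd hNne
    have hb := fun e he hE => nn_bound hp2 h0 hm M hM hd e he hE
    have hd0 : (0 : ℝ) ≤ 85 * Fintype.card ι * √p := by positivity
    have hu0 : (0 : ℝ) ≤ (p : ℝ) / 2 ^ (Fintype.card ι) := by positivity
    have hV0 : (0 : ℝ) ≤ (p : ℝ) / 2 ^ (Fintype.card ι) - 85 * Fintype.card ι * √p := by
      rw [sub_nonneg, le_div_iff₀ (by positivity)]
      have h2 : (1 : ℝ) ≤ (Fintype.card ι : ℝ) := by exact_mod_cast h0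
      have h4 : (Fintype.card ι : ℝ) ≤ (Fintype.card ι : ℝ) ^ 4 := by
        calc (Fintype.card ι : ℝ) = (Fintype.card ι : ℝ) ^ 1 := (pow_one _).symm
          _ ≤ (Fintype.card ι : ℝ) ^ 4 := pow_le_pow_right₀ h2 (by norm_num)
      have h8 : (0 : ℝ) ≤ (2 : ℝ) ^ (Fintype.card ι) * √p := by positivity
      nlinarith
    have h1 := upper_X M hM B hB _ (add_nonneg hu0 hd0) _ hz fun e he hE => by
      have := (abs_le.1 (hb e he hE)).2
      linarith
    have h2 := lower_X hp2 M hM hd _ hV0 _ hz fun e he hE => by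
      have := (abs_le.1 (hb e he hE)).1
      linarith
    refine final_arith p (Fintype.card ι) hp3 h0 _ _ (Nat.cast_nonneg _) hK (h1.trans ?_)
      (le_trans ?_ h2)
    · push_cast
      exact le_rfl
    · push_cast
      exact le_rfl
  · have h1 : (0 : ℝ) ≤ ({P | P ∈ B ∧ ∀ i, ¬ OnConic (M i) P}.ncard : ℝ) := Nat.cast_nonneg _
    linarith [not_lt.1 hK]

end Pool.Agent.FewConics
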