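import Pool.Agent.Lib_MP_6b99df_fc.Weil

/-! PIECE Count: the number of parameters at which all values are nonsquares. -/

set_option autoImplicit false

open Polynomial

namespace Pool.Agent.FewConics

private theorem zeros_aux {ι : Type} [Fintype ι] (p : ℕ) [Fact p.Prime]
    (f : ι → (ZMod p)[X]) (hdeg : ∀ i, (f i).natDegree ≤ 2) (h0 : ∀ i, f i ≠ 0) :
    ((Finset.univ.filter fun t : ZMod p => ∃ i, (f i).eval t = 0).card : ℝ) ≤
      2 * Fintype.card ι := by
  classical
  have h1 : (Finset.univ.filter fun t : ZMod p => ∃ i, (f i).eval t = 0) ⊆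
      Finset.univ.biUnion (fun i => (f i).roots.toFinset) := by
    intro t ht
    rw [Finset.mem_filter] at ht
    obtain ⟨i, hi⟩ := ht.2
    rw [Finset.mem_biUnion]
    refine ⟨i, Finset.mem_univ _, ?_⟩
    rw [Multiset.mem_toFinset, Polynomial.mem_roots (h0 i)]
    exact hi
  have h2 : (Finset.univ.filter fun t : ZMod p => ∃ i, (f i).eval t = 0).card ≤
      ∑ _i : ι, 2 := by
    refine (Finset.card_le_card h1).trans (Finset.card_biUnion_le.trans ?_)
    exact Finset.sum_le_sum fun i _ =>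
      (Multiset.toFinset_card_le _).trans ((card_roots' _).trans (hdeg i))
  rw [Finset.sum_const, Finset.card_univ, smul_eq_mul] at h2
  have h3 : ((Finset.univ.filter fun t : ZMod p => ∃ i, (f i).eval t = 0).card : ℝ) ≤
      ((Fintype.card ι * 2 : ℕ) : ℝ) := by exact_mod_cast h2
  rw [Nat.cast_mul, Nat.cast_two] at h3
  linarith

private theorem point_aux {ι : Type} [Fintype ι] (p : ℕ) [Fact p.Prime]
    (f : ι → (ZMod p)[X]) (t : ZMod p) :
    |(2 : ℝ) ^ (Fintype.card ι) *
        (if ∀ i, quadraticChar (ZMod p) ((f i).eval t) = -1 then 1 else 0) -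
      ∏ i, (1 + -(quadraticChar (ZMod p) ((f i).eval t) : ℝ))| ≤
      (2 : ℝ) ^ (Fintype.card ι) * (if ∃ i, (f i).eval t = 0 then 1 else 0) := by
  classical
  by_cases hz : ∃ i, (f i).eval t = 0
  · rw [if_pos hz]
    have h1 : ¬ ∀ i, quadraticChar (ZMod p) ((f i).eval t) = -1 := by
      intro h
      obtain ⟨i, hi⟩ := hz
      have h2 := h i
      rw [hi] at h2
      simp at h2
    rw [if_neg h1, mul_zero, zero_sub, abs_neg, mul_one]
    have h3 : ∀ i, 0 ≤ 1 + -(quadraticChar (ZMod p) ((f i).eval t) : ℝ) ∧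
        1 + -(quadraticChar (ZMod p) ((f i).eval t) : ℝ) ≤ 2 := by
      intro i
      rcases quadraticChar_isQuadratic (ZMod p) ((f i).eval t) with h1 | h1 | h1 <;>
        rw [h1] <;> norm_num
    rw [abs_of_nonneg (Finset.prod_nonneg fun i _ => (h3 i).1)]
    refine (Finset.prod_le_prod (fun i _ => (h3 i).1) (fun i _ => (h3 i).2)).trans ?_
    rw [Finset.prod_const, Finset.card_univ]
  · rw [if_neg hz, mul_zero]
    push Not at hz
    by_cases h1 : ∀ i, quadraticChar (ZMod p) ((f i).eval t) = -1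
    · rw [if_pos h1, mul_one]
      have h2 : ∏ i, (1 + -(quadraticChar (ZMod p) ((f i).eval t) : ℝ)) =
          (2 : ℝ) ^ (Fintype.card ι) := by
        rw [← Finset.card_univ, ← Finset.prod_const]
        refine Finset.prod_congr rfl fun i _ => ?_
        rw [h1 i]
        norm_num
      rw [h2, sub_self, abs_zero]
    · rw [if_neg h1, mul_zero]
      push Not at h1
      obtain ⟨i, hi⟩ := h1
      have h2 : ∏ i, (1 + -(quadraticChar (ZMod p) ((f i).eval t) : ℝ)) = 0 := by
        refine Finset.prod_eq_zero (Finset.mem_univ i) ?_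
        rcases quadraticChar_dichotomy (hz i) with h3 | h3
        · rw [h3]
          norm_num
        · exact absurd h3 hi
      rw [h2, sub_zero, abs_zero]

private theorem term_aux {ι : Type} [Fintype ι] (p : ℕ) [Fact p.Prime] (hp2 : p ≠ 2)
    (f : ι → (ZMod p)[X]) (hdeg : ∀ i, (f i).natDegree ≤ 2)
    (hns : ∀ I : Finset ι, I.Nonempty → ∀ (c : ZMod p) (h : (ZMod p)[X]),
      ∏ i ∈ I, f i ≠ C c * h ^ 2) (I : Finset ι) (hI : I.Nonempty) :
    |∑ t : ZMod p, ∏ i ∈ I, -(quadraticChar (ZMod p) ((f i).eval t) : ℝ)| ≤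
      82 * Fintype.card ι * √p := by
  classical
  have h1 : ∀ t : ZMod p, ∏ i ∈ I, -(quadraticChar (ZMod p) ((f i).eval t) : ℝ) =
      (-1) ^ I.card * (quadraticChar (ZMod p) ((∏ i ∈ I, f i).eval t) : ℝ) := by
    intro t
    rw [Polynomial.eval_prod, map_prod, Int.cast_prod, ← Finset.prod_const,
      ← Finset.prod_mul_distrib]
    exact Finset.prod_congr rfl fun i _ => (neg_one_mul _).symm
  rw [Finset.sum_congr rfl fun t _ => h1 t, ← Finset.mul_sum, abs_mul, abs_pow, abs_neg, abs_one,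
    one_pow, one_mul]
  refine (weil_nonsq p hp2 _ (hns I hI)).trans ?_
  have h2 : (∏ i ∈ I, f i).natDegree ≤ 2 * Fintype.card ι := by
    refine (Polynomial.natDegree_prod_le _ _).trans ?_
    refine (Finset.sum_le_sum fun i _ => hdeg i).trans ?_
    rw [Finset.sum_const, smul_eq_mul, mul_comm]
    exact Nat.mul_le_mul_left 2 (Finset.card_le_univ I)
  have h3 : ((∏ i ∈ I, f i).natDegree : ℝ) ≤ 2 * Fintype.card ι := by exact_mod_cast h2
  have h4 := mul_le_mul_of_nonneg_right h3 (Real.sqrt_nonneg (p : ℝ))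
  nlinarith

/-- `m = card ι`. For `t` which is a zero of no `f i` the indicator function of the set is
`∏ i, (1 - χ (f i (t))) / 2`; at the other `t` (at most `2 m`) the difference is at most `1`. Expand:
`∑ t, ∏ i, (1 - χ (f i (t))) = ∑ I, (-1) ^ #I * ∑ t, χ ((∏ i ∈ I, f i) (t))`; the term `I = ∅` is `p`, the others are
at most `41 * (2 m) * √p` by `weil_nonsq`. Total `82 m √p + 2 m ≤ 84 m √p`. Compare the file
Pool/Agent/Lib_MP_009b3c_lc/Cnt.lean (squares instead of nonsquares). -/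
theorem count_all {ι : Type} [Fintype ι] (p : ℕ) [Fact p.Prime] (hp2 : p ≠ 2)
    (f : ι → (ZMod p)[X]) (hdeg : ∀ i, (f i).natDegree ≤ 2)
    (hns : ∀ I : Finset ι, I.Nonempty → ∀ (c : ZMod p) (h : (ZMod p)[X]),
      ∏ i ∈ I, f i ≠ C c * h ^ 2) :
    |({t : ZMod p | ∀ i, quadraticChar (ZMod p) ((f i).eval t) = -1}.ncard : ℝ) -
      p / 2 ^ (Fintype.card ι)| ≤ 84 * Fintype.card ι * √p := by
  classical
  set m := Fintype.card ι with hm
  have hp1 : (1 : ℝ) ≤ √p := by
    rw [Real.one_le_sqrt]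
    exact_mod_cast (Fact.out : p.Prime).one_lt.le
  have h0 : ∀ i, f i ≠ 0 := by
    intro i
    have h1 := hns {i} (Finset.singleton_nonempty i) 0 0
    rw [Finset.prod_singleton] at h1
    intro h2
    apply h1
    rw [h2]
    simp
  have hcard : ({t : ZMod p | ∀ i, quadraticChar (ZMod p) ((f i).eval t) = -1}.ncard : ℝ) =
      ∑ t : ZMod p, (if ∀ i, quadraticChar (ZMod p) ((f i).eval t) = -1 then (1 : ℝ) else 0) := by
    rw [← Finset.sum_filter, Finset.sum_const, nsmul_eq_mul, mul_one, ← Set.ncard_coe_finset]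
    congr 2
    ext t
    simp
  set N : ℝ := ({t : ZMod p | ∀ i, quadraticChar (ZMod p) ((f i).eval t) = -1}.ncard : ℝ) with hN
  have e1 : |(2 : ℝ) ^ m * N -
      ∑ t : ZMod p, ∏ i, (1 + -(quadraticChar (ZMod p) ((f i).eval t) : ℝ))| ≤
      2 ^ m * (2 * m) := by
    rw [hcard, Finset.mul_sum, ← Finset.sum_sub_distrib]
    refine (Finset.abs_sum_le_sum_abs _ _).trans ?_
    refine (Finset.sum_le_sum fun t _ => point_aux p f t).trans ?_
    rw [← Finset.mul_sum]
    refine mul_le_mul_of_nonneg_left ?_ (by positivity)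
    rw [← Finset.sum_filter, Finset.sum_const, nsmul_eq_mul, mul_one]
    exact zeros_aux p f hdeg h0
  have e2 : ∑ t : ZMod p, ∏ i, (1 + -(quadraticChar (ZMod p) ((f i).eval t) : ℝ)) =
      ∑ I ∈ (Finset.univ : Finset ι).powerset, ∑ t : ZMod p,
        ∏ i ∈ I, -(quadraticChar (ZMod p) ((f i).eval t) : ℝ) := by
    rw [Finset.sum_comm]
    refine Finset.sum_congr rfl fun t _ => ?_
    rw [Finset.prod_one_add]
  have e3 : |(∑ t : ZMod p, ∏ i, (1 + -(quadraticChar (ZMod p) ((f i).eval t) : ℝ))) - p| ≤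
      2 ^ m * (82 * m * √p) := by
    rw [e2, ← Finset.add_sum_erase _ _ (Finset.empty_mem_powerset _)]
    have h1 : ∑ t : ZMod p, ∏ i ∈ (∅ : Finset ι),
        -(quadraticChar (ZMod p) ((f i).eval t) : ℝ) = p := by
      rw [Finset.sum_congr rfl (fun t _ => Finset.prod_empty), Finset.sum_const,
        Finset.card_univ, ZMod.card, nsmul_eq_mul, mul_one]
    rw [h1, add_sub_cancel_left]
    refine (Finset.abs_sum_le_sum_abs _ _).trans ?_
    have h2 : ∀ I ∈ (Finset.univ : Finset ι).powerset.erase ∅,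
        |∑ t : ZMod p, ∏ i ∈ I, -(quadraticChar (ZMod p) ((f i).eval t) : ℝ)| ≤
          82 * m * √p := by
      intro I hI
      rw [Finset.mem_erase] at hI
      exact term_aux p hp2 f hdeg hns I (Finset.nonempty_iff_ne_empty.2 hI.1)
    refine (Finset.sum_le_sum h2).trans ?_
    rw [Finset.sum_const, nsmul_eq_mul]
    refine mul_le_mul_of_nonneg_right ?_ (by positivity)
    have h7 : ((Finset.univ : Finset ι).powerset.erase ∅).card ≤
        (Finset.univ : Finset ι).powerset.card := Finset.card_le_card (Finset.erase_subset _ _)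
    rw [Finset.card_powerset, Finset.card_univ] at h7
    exact_mod_cast h7
  have h2m : (0 : ℝ) < 2 ^ m := by positivity
  have e4 : |(2 : ℝ) ^ m * N - p| ≤ 2 ^ m * (84 * m * √p) := by
    have h1 : (2 : ℝ) ^ m * N - p = ((2 : ℝ) ^ m * N -
        ∑ t : ZMod p, ∏ i, (1 + -(quadraticChar (ZMod p) ((f i).eval t) : ℝ))) +
        ((∑ t : ZMod p, ∏ i, (1 + -(quadraticChar (ZMod p) ((f i).eval t) : ℝ))) - p) := by ring
    rw [h1]
    refine (abs_add_le _ _).trans ((add_le_add e1 e3).trans ?_)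
    rw [← mul_add]
    refine mul_le_mul_of_nonneg_left ?_ h2m.le
    have h3 : (0 : ℝ) ≤ m := Nat.cast_nonneg m
    nlinarith
  have e5 : N - p / 2 ^ m = ((2 : ℝ) ^ m * N - p) / 2 ^ m := by
    field_simp
  rw [e5, abs_div, abs_of_pos h2m, div_le_iff₀ h2m]
  linarith

end Pool.Agent.FewConics
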