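import Mathlib

/-! Blocking sets and conics in the planes over prime fields: definitions. -/

set_option autoImplicit false

open scoped LinearAlgebra.Projectivization

namespace Pool.Agent.FewConics

/-- The points of `PG(2,p)`. The lines of `PG(2,p)` are given by the same type (by the coefficients of
their equations): the point `P` lies on the line `l` iff `Projectivization.orthogonal l P`. -/
abbrev PG (p : ℕ) [Fact p.Prime] : Type := ℙ (ZMod p) (Fin 3 → ZMod p)

/-- The value at `x` of the quadratic form with the (symmetric) matrix `M`. -/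
def qf {p : ℕ} (M : Matrix (Fin 3) (Fin 3) (ZMod p)) (x : Fin 3 → ZMod p) : ZMod p :=
  dotProduct x (Matrix.mulVec M x)

/-- The bilinear form with the matrix `M`. -/
def bf {p : ℕ} (M : Matrix (Fin 3) (Fin 3) (ZMod p)) (x y : Fin 3 → ZMod p) : ZMod p :=
  dotProduct x (Matrix.mulVec M y)

/-- The point `P` lies on the conic with the matrix `M`. -/
def OnConic {p : ℕ} [Fact p.Prime] (M : Matrix (Fin 3) (Fin 3) (ZMod p)) (P : PG p) : Prop :=
  qf M P.rep = 0

/-- `B` meets every line. -/
def Blocking {p : ℕ} [Fact p.Prime] (B : Set (PG p)) : Prop :=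
  ∀ l : PG p, ∃ P ∈ B, Projectivization.orthogonal l P

/-- Every line has at most `k` points of `B`. -/
def AtMost {p : ℕ} [Fact p.Prime] (k : ℕ) (B : Set (PG p)) : Prop :=
  ∀ l : PG p, {P | P ∈ B ∧ Projectivization.orthogonal l P}.ncard ≤ k

/-- Sufficient condition for the line with the equation `v` to miss the conic with the matrix `M`,
`N` the adjugate of `M`. -/
def Ext {p : ℕ} [Fact p.Prime] (N : Matrix (Fin 3) (Fin 3) (ZMod p)) (v : Fin 3 → ZMod p) : Prop :=
  quadraticChar (ZMod p) (-(qf N v)) = -1

/-- The lines which satisfy the condition for all conics. -/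
def XX {p : ℕ} [Fact p.Prime] {ι : Type} (N : ι → Matrix (Fin 3) (Fin 3) (ZMod p)) : Set (PG p) :=
  {l | ∀ i, Ext (N i) l.rep}

/-- The number of lines of `XX N` through the point `e`. -/
noncomputable def nn {p : ℕ} [Fact p.Prime] {ι : Type} (N : ι → Matrix (Fin 3) (Fin 3) (ZMod p))
    (e : PG p) : ℕ :=
  {l | l ∈ XX N ∧ Projectivization.orthogonal l e}.ncard

/-- The exceptional points: points on two different common tangents, and points for which two of the
forms are proportional on the pencil. -/
def EE {p : ℕ} [Fact p.Prime] {ι : Type} (N : ι → Matrix (Fin 3) (Fin 3) (ZMod p)) : Set (PG p) :=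
  {e | (∃ l l' : PG p, l ≠ l' ∧ Projectivization.orthogonal l e ∧
      Projectivization.orthogonal l' e ∧ (∃ i j, i ≠ j ∧ OnConic (N i) l ∧ OnConic (N j) l) ∧
      (∃ i j, i ≠ j ∧ OnConic (N i) l' ∧ OnConic (N j) l')) ∨
    (∃ i j, i ≠ j ∧ ∃ c : ZMod p, ∀ v, dotProduct v e.rep = 0 → qf (N j) v = c * qf (N i) v)}

end Pool.Agent.FewConics
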