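import Pool.Agent.Lib_MP_6b99df_fc.PencilA

/-! PIECE Degen: degenerate conics. -/

set_option autoImplicit false

open scoped LinearAlgebra.Projectivization

namespace Pool.Agent.FewConics

variable {p : ℕ} [Fact p.Prime]

/-- Cramer: the form at `x` in terms of a basis `z, a, b` with `M z = 0` and `qf M a = qf M b = 0`. -/
private theorem cramer_qf {M : Matrix (Fin 3) (Fin 3) (ZMod p)} (hM : M.IsSymm)
    {z a b : Fin 3 → ZMod p} (hz : Matrix.mulVec M z = 0) (ha : qf M a = 0) (hb : qf M b = 0)
    (x y : Fin 3 → ZMod p) :
    dotProduct z (crossProduct a b) ^ 2 * bf M x y =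
      (dotProduct (crossProduct b z) x * dotProduct (crossProduct z a) y +
        dotProduct (crossProduct z a) x * dotProduct (crossProduct b z) y) * bf M a b := by
  have h1 : M 1 0 = M 0 1 := hM.apply 0 1
  have h2 : M 2 0 = M 0 2 := hM.apply 0 2
  have h3 : M 2 1 = M 1 2 := hM.apply 1 2
  have e : ∀ v : Fin 3 → ZMod p, dotProduct z (crossProduct a b) • v =
      dotProduct (crossProduct a b) v • z + dotProduct (crossProduct b z) v • a +
        dotProduct (crossProduct z a) v • b := by
    intro v
    funext j
    simp only [cross_apply, dotProduct, Fin.sum_univ_three, Matrix.cons_val, Pi.add_apply,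
      Pi.smul_apply, smul_eq_mul]
    fin_cases j
    · simp only [Fin.zero_eta, Fin.mk_one, Fin.reduceFinMk]
      ring
    · simp only [Fin.zero_eta, Fin.mk_one, Fin.reduceFinMk]
      ring
    · simp only [Fin.zero_eta, Fin.mk_one, Fin.reduceFinMk]
      ring
  have hzl : ∀ v : Fin 3 → ZMod p, bf M v z = 0 := by
    intro v
    rw [bf, hz, dotProduct_zero]
  have hzr : ∀ v : Fin 3 → ZMod p, bf M z v = 0 := by
    intro v
    rw [bf_comm hM, hzl]
  have hba : bf M b a = bf M a b := bf_comm hM b a
  rw [qf_eq_bf] at ha hb
  have hadd : ∀ u v w : Fin 3 → ZMod p, bf M (u + v) w = bf M u w + bf M v w := by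
    intro u v w
    simp only [bf, add_dotProduct]
  have hadd' : ∀ u v w : Fin 3 → ZMod p, bf M u (v + w) = bf M u v + bf M u w := by
    intro u v w
    simp only [bf, Matrix.mulVec_add, dotProduct_add]
  have hsm : ∀ (c : ZMod p) (u v : Fin 3 → ZMod p), bf M (c • u) v = c * bf M u v := by
    intro c u v
    simp only [bf, smul_dotProduct, smul_eq_mul]
  have hsm' : ∀ (c : ZMod p) (u v : Fin 3 → ZMod p), bf M u (c • v) = c * bf M u v := by
    intro c u v
    simp only [bf, Matrix.mulVec_smul, dotProduct_smul, smul_eq_mul]
  have key : bf M (dotProduct z (crossProduct a b) • x) (dotProduct z (crossProduct a b) • y) =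
      (dotProduct (crossProduct b z) x * dotProduct (crossProduct z a) y +
        dotProduct (crossProduct z a) x * dotProduct (crossProduct b z) y) * bf M a b := by
    rw [e x, e y]
    simp only [hadd, hadd', hsm, hsm', hzl, hzr, ha, hb, hba]
    ring
  rw [← key, hsm, hsm']
  ring

/-- two linear forms which detect all zeros -/
private theorem degenerate_aux (hp2 : p ≠ 2) {M : Matrix (Fin 3) (Fin 3) (ZMod p)} (hM : M.IsSymm)
    (h0 : M ≠ 0) (hd : M.det = 0) : ∃ u v : Fin 3 → ZMod p, u ≠ 0 ∧ v ≠ 0 ∧
      ∀ x : Fin 3 → ZMod p, qf M x = 0 → dotProduct u x = 0 ∨ dotProduct v x = 0 := by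
  obtain ⟨z, hz0, hz⟩ := Matrix.exists_mulVec_eq_zero_iff.2 hd
  by_cases hA : ∃ a b : Fin 3 → ZMod p, qf M a = 0 ∧ qf M b = 0 ∧
      dotProduct z (crossProduct a b) ≠ 0
  · obtain ⟨a, b, ha, hb, hD⟩ := hA
    have hbf : bf M a b ≠ 0 := by
      intro h
      apply h0
      ext i j
      have h1 := cramer_qf hM hz ha hb (Pi.single i 1) (Pi.single j 1)
      rw [h, mul_zero] at h1
      have h2 : bf M (Pi.single i 1) (Pi.single j 1) = M i j := by
        rw [bf, single_dotProduct, one_mul, Matrix.mulVec_single_one]
        rfl
      rw [h2] at h1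
      rcases mul_eq_zero.1 h1 with h3 | h3
      · exact absurd h3 (pow_ne_zero _ hD)
      · simpa using h3
    have h2 : (2 : ZMod p) ≠ 0 := by
      intro h
      have h4 : ((2 : ℕ) : ZMod p) = 0 := by exact_mod_cast h
      rw [ZMod.natCast_eq_zero_iff] at h4
      exact hp2 ((Nat.prime_dvd_prime_iff_eq (Fact.out : p.Prime) Nat.prime_two).1 h4)
    have t1 : dotProduct (crossProduct b z) a = dotProduct z (crossProduct a b) := by
      simp only [cross_apply, dotProduct, Fin.sum_univ_three, Matrix.cons_val]
      ring
    have t2 : dotProduct (crossProduct z a) b = dotProduct z (crossProduct a b) := by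
      simp only [cross_apply, dotProduct, Fin.sum_univ_three, Matrix.cons_val]
      ring
    refine ⟨crossProduct b z, crossProduct z a, ?_, ?_, ?_⟩
    · intro h
      apply hD
      rw [← t1, h, zero_dotProduct]
    · intro h
      apply hD
      rw [← t2, h, zero_dotProduct]
    · intro x hx
      have h3 := cramer_qf hM hz ha hb x x
      rw [← qf_eq_bf, hx, mul_zero] at h3
      have h4 : (2 * (dotProduct (crossProduct b z) x * dotProduct (crossProduct z a) x)) *
          bf M a b = 0 := by
        linear_combination -h3
      rcases mul_eq_zero.1 h4 with h5 | h5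
      · rcases mul_eq_zero.1 h5 with h6 | h6
        · exact absurd h6 h2
        · exact mul_eq_zero.1 h6
      · exact absurd h5 hbf
  · push Not at hA
    by_cases hB : ∃ a : Fin 3 → ZMod p, qf M a = 0 ∧ crossProduct z a ≠ 0
    · obtain ⟨a, ha, hc⟩ := hB
      refine ⟨crossProduct z a, crossProduct z a, hc, hc, ?_⟩
      intro x hx
      left
      rw [← hA a x ha hx]
      simp only [cross_apply, dotProduct, Fin.sum_univ_three, Matrix.cons_val]
      ring
    · push Not at hB
      obtain ⟨i, hi⟩ := Function.ne_iff.1 hz0
      have hi' : z i ≠ 0 := by simpa using hi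
      obtain ⟨j, hj⟩ : ∃ j : Fin 3, j ≠ i := exists_ne i
      refine ⟨z i • Pi.single j 1 - z j • Pi.single i 1, z i • Pi.single j 1 - z j • Pi.single i 1,
        ?_, ?_, ?_⟩
      · intro h
        have h1 := congrFun h j
        simp [Pi.single_eq_of_ne hj] at h1
        exact hi' h1
      · intro h
        have h1 := congrFun h j
        simp [Pi.single_eq_of_ne hj] at h1
        exact hi' h1
      · intro x hx
        left
        have h1 := hB x hx
        rw [sub_dotProduct, smul_dotProduct, smul_dotProduct, single_dotProduct, single_dotProduct,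
          one_mul, one_mul, smul_eq_mul, smul_eq_mul]
        have c0 := congrFun h1 0
        have c1 := congrFun h1 1
        have c2 := congrFun h1 2
        rw [cross_apply] at c0 c1 c2
        simp only [Matrix.cons_val, Pi.zero_apply] at c0 c1 c2
        fin_cases i <;> fin_cases j <;>
          simp only [Fin.zero_eta, Fin.mk_one, Fin.reduceFinMk] at hj ⊢ <;>
          first
            | exact absurd rfl hj
            | linear_combination c0
            | linear_combination c1
            | linear_combination c2
            | linear_combination -c0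
            | linear_combination -c1
            | linear_combination -c2

/-- A nonzero form with determinant `0` vanishes at the points of at most two lines. `z ≠ 0` with `M z = 0`. If there are zeros
`x, y` with `x, y, z` independent, then `qf M (a z + b x + c y) = 2 b c bf M x y` with `bf M x y ≠ 0` (otherwise `M = 0`), so all zeros are
on the lines `z x`, `z y`. Otherwise all zeros are on one line through `z`. (`crossProduct` gives the lines.) -/
theorem degenerate (hp2 : p ≠ 2) {M : Matrix (Fin 3) (Fin 3) (ZMod p)} (hM : M.IsSymm)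
    (h0 : M ≠ 0) (hd : M.det = 0) : ∃ l l' : PG p, ∀ P : PG p, OnConic M P →
      Projectivization.orthogonal l P ∨ Projectivization.orthogonal l' P := by
  obtain ⟨u, v, hu, hv, h⟩ := degenerate_aux hp2 hM h0 hd
  refine ⟨Projectivization.mk (ZMod p) u hu, Projectivization.mk (ZMod p) v hv, fun P hP => ?_⟩
  have hP2 := h P.rep hP
  have t : ∀ (w : Fin 3 → ZMod p) (hw : w ≠ 0), dotProduct w P.rep = 0 →
      Projectivization.orthogonal (Projectivization.mk (ZMod p) w hw) P := by
    intro w hw h1
    have h2 : Projectivization.orthogonal (Projectivization.mk (ZMod p) w hw)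
        (Projectivization.mk (ZMod p) P.rep P.rep_nonzero) ↔ dotProduct w P.rep = 0 :=
      Projectivization.orthogonal_mk hw P.rep_nonzero
    rw [Projectivization.mk_rep] at h2
    exact h2.2 h1
  exact hP2.imp (t u hu) (t v hv)

end Pool.Agent.FewConics
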