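import Pool.Agent.Lib_MP_6b99df_fc.Planes

/-! PIECE Prop: the points for which two forms are proportional on the pencil. -/

set_option autoImplicit false

open scoped LinearAlgebra.Projectivization

namespace Pool.Agent.FewConics

variable {p : ℕ} [Fact p.Prime]

/-- `det (N' - c • N)` is a polynomial in `c` of degree `3` (leading coefficient `- det N`); or: `c` is a root of the
characteristic polynomial of `N⁻¹ * N'` (`Matrix.charpoly_natDegree_eq_dim`, `Polynomial.card_roots'`). -/
theorem pencil_det {N N' : Matrix (Fin 3) (Fin 3) (ZMod p)} (hd : N.det ≠ 0) :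
    {c : ZMod p | (N' - c • N).det = 0}.ncard ≤ 3 := by
  classical
  have hN : IsUnit N.det := isUnit_iff_ne_zero.2 hd
  set A : Matrix (Fin 3) (Fin 3) (ZMod p) := N⁻¹ * N' with hA
  have hsub : {c : ZMod p | (N' - c • N).det = 0} ⊆ (A.charpoly.roots.toFinset : Set (ZMod p)) := by
    intro c hc
    have hne : A.charpoly ≠ 0 := (Matrix.charpoly_monic A).ne_zero
    rw [Finset.mem_coe, Multiset.mem_toFinset, Polynomial.mem_roots hne, Polynomial.IsRoot.def,
      Matrix.eval_charpoly]
    have h1 : N' - c • N = N * (A - Matrix.scalar (Fin 3) c) := by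
      have h2 : N * Matrix.scalar (Fin 3) c = c • N := by
        ext i j
        simp [Matrix.scalar_apply, Matrix.mul_diagonal, mul_comm]
      rw [mul_sub, h2, hA, Matrix.mul_nonsing_inv_cancel_left N N' hN]
    have h3 : (N' - c • N).det = 0 := hc
    rw [h1, Matrix.det_mul] at h3
    have h4 := (mul_eq_zero.1 h3).resolve_left hd
    have h5 : Matrix.scalar (Fin 3) c - A = -(A - Matrix.scalar (Fin 3) c) := by
      rw [neg_sub]
    rw [h5, Matrix.det_neg, h4, mul_zero]
  have h1 := Set.ncard_le_ncard hsub (Finset.finite_toSet _)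
  rw [Set.ncard_coe_finset] at h1
  have h2 : A.charpoly.roots.toFinset.card ≤ A.charpoly.natDegree :=
    (Multiset.toFinset_card_le _).trans (Polynomial.card_roots' _)
  rw [Matrix.charpoly_natDegree_eq_dim, Fintype.card_fin] at h2
  exact h1.trans h2

/-- two independent vectors orthogonal to `a` -/
private theorem prop_basis (a : Fin 3 → ZMod p) (ha : a ≠ 0) : ∃ u v : Fin 3 → ZMod p,
    dotProduct u a = 0 ∧ dotProduct v a = 0 ∧ crossProduct u v ≠ 0 := by
  have h0 : a 0 ≠ 0 ∨ a 1 ≠ 0 ∨ a 2 ≠ 0 := by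
    by_contra hc
    push Not at hc
    apply ha
    funext i
    fin_cases i
    · exact hc.1
    · exact hc.2.1
    · exact hc.2.2
  rcases h0 with h | h | h
  · refine ⟨![-(a 1), a 0, 0], ![-(a 2), 0, a 0], ?_, ?_, fun hc => ?_⟩
    · simp [dotProduct, Fin.sum_univ_three]
      ring
    · simp [dotProduct, Fin.sum_univ_three]
      ring
    · have h1 := congrFun hc 0
      simp [cross_apply, h] at h1
  · refine ⟨![a 1, -(a 0), 0], ![0, -(a 2), a 1], ?_, ?_, fun hc => ?_⟩
    · simp [dotProduct, Fin.sum_univ_three]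
      ring
    · simp [dotProduct, Fin.sum_univ_three]
      ring
    · have h1 := congrFun hc 1
      simp [cross_apply, h] at h1
  · refine ⟨![a 2, 0, -(a 0)], ![0, a 2, -(a 1)], ?_, ?_, fun hc => ?_⟩
    · simp [dotProduct, Fin.sum_univ_three]
      ring
    · simp [dotProduct, Fin.sum_univ_three]
      ring
    · have h1 := congrFun hc 2
      simp [cross_apply, h] at h1

private theorem prop_qf (N N' : Matrix (Fin 3) (Fin 3) (ZMod p)) (c : ZMod p) (v : Fin 3 → ZMod p) :
    qf (N' - c • N) v = qf N' v - c * qf N v := by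
  simp [qf, Matrix.sub_mulVec, Matrix.smul_mulVec, dotProduct_sub, dotProduct_smul]

/-- If `qf K` vanishes on the plane orthogonal to `e` then `det K = 0` (two independent vectors `u, v` of the plane have
`bf K u v = 0`, `bf_ne`). -/
theorem det_of_plane (hp2 : p ≠ 2) {K : Matrix (Fin 3) (Fin 3) (ZMod p)} (hK : K.IsSymm) (e : PG p)
    (h : ∀ v, dotProduct v e.rep = 0 → qf K v = 0) : K.det = 0 := by
  by_contra hd
  have h2 : (2 : ZMod p) ≠ 0 := by
    intro h0
    have : ((2 : ℕ) : ZMod p) = 0 := by exact_mod_cast h0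
    rw [ZMod.natCast_eq_zero_iff] at this
    exact hp2 ((Nat.prime_dvd_prime_iff_eq Fact.out Nat.prime_two).1 this)
  obtain ⟨u, v, hu, hv, huv⟩ := prop_basis e.rep e.rep_nonzero
  have h3 := qf_add hK u v 1 1
  rw [h u hu, h v hv, h (1 • u + 1 • v) (by
    rw [one_smul, one_smul, add_dotProduct, hu, hv, add_zero])] at h3
  have h4 : bf K u v = 0 := by
    have h5 : 2 * bf K u v = 0 := by linear_combination -h3
    exact (mul_eq_zero.1 h5).resolve_left h2
  exact bf_ne hK hd u v (h u hu) (h v hv) huv h4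

/-- The set is contained in the union over the `c` of `pencil_det` of the sets of `planes_le` for `K = N' - c • N`. -/
theorem prop_le (hp2 : p ≠ 2) {N N' : Matrix (Fin 3) (Fin 3) (ZMod p)} (hN : N.IsSymm)
    (hN' : N'.IsSymm) (hd : N.det ≠ 0) (hne : ∀ c : ZMod p, N' ≠ c • N) :
    {e : PG p | ∃ c : ZMod p, ∀ v, dotProduct v e.rep = 0 → qf N' v = c * qf N v}.ncard ≤ 6 := by
  classical
  have : Fintype (PG p) := Fintype.ofFinite _
  set S : Finset (ZMod p) := Finset.univ.filter fun c => (N' - c • N).det = 0 with hS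
  have hScard : S.card ≤ 3 := by
    have h1 := pencil_det (N' := N') hd
    have h2 : {c : ZMod p | (N' - c • N).det = 0} = (S : Set (ZMod p)) := by
      ext c
      simp [hS]
    rwa [h2, Set.ncard_coe_finset] at h1
  have hsub : {e : PG p | ∃ c : ZMod p, ∀ v, dotProduct v e.rep = 0 → qf N' v = c * qf N v} =
      ((S.biUnion fun c => Finset.univ.filter fun e : PG p =>
        ∀ v, dotProduct v e.rep = 0 → qf (N' - c • N) v = 0 : Finset (PG p)) : Set (PG p)) := by
    ext e
    simp only [Set.mem_setOf_eq, Finset.coe_biUnion, Set.mem_iUnion, Finset.mem_coe,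
      Finset.mem_filter, Finset.mem_univ, true_and, exists_prop]
    constructor
    · rintro ⟨c, hc⟩
      have h1 : ∀ v, dotProduct v e.rep = 0 → qf (N' - c • N) v = 0 := fun v hv => by
        rw [prop_qf, hc v hv, sub_self]
      refine ⟨c, ?_, h1⟩
      rw [hS, Finset.mem_filter]
      exact ⟨Finset.mem_univ _, det_of_plane hp2 (hN'.sub (hN.smul c)) e h1⟩
    · rintro ⟨c, -, hc⟩
      refine ⟨c, fun v hv => ?_⟩
      have h1 := hc v hv
      rw [prop_qf] at h1
      exact sub_eq_zero.1 h1
  rw [hsub, Set.ncard_coe_finset]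
  have h5 := Finset.card_biUnion_le_card_mul S (fun c => Finset.univ.filter fun e : PG p =>
    ∀ v, dotProduct v e.rep = 0 → qf (N' - c • N) v = 0) 2 (fun c _ => by
      have h1 := planes_le hp2 (hN'.sub (hN.smul c)) (fun h0 => hne c (sub_eq_zero.1 h0))
      have h2 : {e : PG p | ∀ v, dotProduct v e.rep = 0 → qf (N' - c • N) v = 0} =
          ((Finset.univ.filter fun e : PG p =>
            ∀ v, dotProduct v e.rep = 0 → qf (N' - c • N) v = 0 : Finset (PG p)) : Set (PG p)) := by
        ext e
        simp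
      rwa [h2, Set.ncard_coe_finset] at h1)
  calc _ ≤ S.card * 2 := h5
    _ ≤ 3 * 2 := Nat.mul_le_mul_right 2 hScard

end Pool.Agent.FewConics
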