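import Pool.Agent.Lib_MP_6b99df_fc.Common
import Pool.Agent.Lib_MP_6b99df_fc.Prop
import Pool.Agent.Lib_MP_6b99df_fc.PencilB

/-! PIECE Exc: few exceptional points. -/

set_option autoImplicit false

open scoped LinearAlgebra.Projectivization

namespace Pool.Agent.FewConics

variable {p : ℕ} [Fact p.Prime]

/-- `T` = the lines `l` with `OnConic (N i) l`, `OnConic (N j) l` for some `i ≠ j`: at most `4 m ^ 2` (`common_le`). Points on two
different lines of `T`: at most `(4 m ^ 2) ^ 2 = 16 m ^ 4` (`meet_le`). The other kind: at most `6 m ^ 2` (`prop_le`). -/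
theorem ee_le (hp2 : p ≠ 2) {ι : Type} [Fintype ι] (N : ι → Matrix (Fin 3) (Fin 3) (ZMod p))
    (hN : ∀ i, (N i).IsSymm) (hd : ∀ i, (N i).det ≠ 0)
    (hne : ∀ i j, i ≠ j → ∀ c : ZMod p, N j ≠ c • N i) :
    (EE N).ncard ≤ 22 * Fintype.card ι ^ 4 := by
  classical
  set m := Fintype.card ι with hm
  have hsum : ∀ (k : ℕ) (f : ι × ι → Set (PG p)), (∀ q : ι × ι, q.1 ≠ q.2 → (f q).ncard ≤ k) →
      (⋃ q ∈ Finset.univ.filter (fun q : ι × ι => q.1 ≠ q.2), f q).ncard ≤ k * m ^ 2 := by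
    intro k f hf
    refine (Finset.set_ncard_biUnion_le _ _).trans ?_
    refine (Finset.sum_le_card_nsmul _ _ k fun q hq => hf q (Finset.mem_filter.1 hq).2).trans ?_
    rw [smul_eq_mul, mul_comm]
    refine Nat.mul_le_mul_left k ((Finset.card_filter_le _ _).trans ?_)
    rw [Finset.card_univ, Fintype.card_prod, ← hm, sq]
  let T : Set (PG p) := {l | ∃ i j, i ≠ j ∧ OnConic (N i) l ∧ OnConic (N j) l}
  have hT : T.ncard ≤ 4 * m ^ 2 := by
    refine (Set.ncard_le_ncard ?_ (Set.toFinite _)).trans (hsum 4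
      (fun q => {l : PG p | OnConic (N q.1) l ∧ OnConic (N q.2) l}) fun q hq =>
        common_le hp2 (hN q.1) (hN q.2) (hd q.1) (hne q.1 q.2 hq))
    rintro l ⟨i, j, hij, h1, h2⟩
    simp only [Set.mem_iUnion]
    exact ⟨(i, j), Finset.mem_filter.2 ⟨Finset.mem_univ _, hij⟩, h1, h2⟩
  let A : Set (PG p) := {e | ∃ l l' : PG p, l ≠ l' ∧ Projectivization.orthogonal l e ∧
      Projectivization.orthogonal l' e ∧ (∃ i j, i ≠ j ∧ OnConic (N i) l ∧ OnConic (N j) l) ∧
      (∃ i j, i ≠ j ∧ OnConic (N i) l' ∧ OnConic (N j) l')}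
  let B : Set (PG p) := {e | ∃ i j, i ≠ j ∧ ∃ c : ZMod p, ∀ v, dotProduct v e.rep = 0 →
      qf (N j) v = c * qf (N i) v}
  have hA : A.ncard ≤ (4 * m ^ 2) ^ 2 := by
    let TF : Finset (PG p) := (Set.toFinite T).toFinset
    have hTF : TF.card = T.ncard := (Set.ncard_eq_toFinset_card T (Set.toFinite T)).symm
    have h1 : A ⊆ ⋃ q ∈ (TF ×ˢ TF).filter (fun q => q.1 ≠ q.2), {e : PG p |
        Projectivization.orthogonal q.1 e ∧ Projectivization.orthogonal q.2 e} := by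
      rintro e ⟨l, l', hll, he, he', h2, h3⟩
      simp only [Set.mem_iUnion]
      refine ⟨(l, l'), Finset.mem_filter.2 ⟨Finset.mem_product.2 ⟨?_, ?_⟩, hll⟩, he, he'⟩
      · exact (Set.Finite.mem_toFinset _).2 h2
      · exact (Set.Finite.mem_toFinset _).2 h3
    refine (Set.ncard_le_ncard h1 (Set.toFinite _)).trans ?_
    refine (Finset.set_ncard_biUnion_le _ _).trans ?_
    refine (Finset.sum_le_card_nsmul _ _ 1 fun q hq => ?_).trans ?_
    · exact meet_le q.1 q.2 (Finset.mem_filter.1 hq).2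
    · rw [smul_eq_mul, mul_one]
      refine (Finset.card_filter_le _ _).trans ?_
      rw [Finset.card_product, hTF, sq]
      exact Nat.mul_le_mul hT hT
  have hB : B.ncard ≤ 6 * m ^ 2 := by
    refine (Set.ncard_le_ncard ?_ (Set.toFinite _)).trans (hsum 6
      (fun q => {e : PG p | ∃ c : ZMod p, ∀ v, dotProduct v e.rep = 0 →
        qf (N q.2) v = c * qf (N q.1) v}) fun q hq =>
        prop_le hp2 (hN q.1) (hN q.2) (hd q.1) (hne q.1 q.2 hq))
    rintro e ⟨i, j, hij, h1⟩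
    simp only [Set.mem_iUnion]
    exact ⟨(i, j), Finset.mem_filter.2 ⟨Finset.mem_univ _, hij⟩, h1⟩
  have hE : EE N = A ∪ B := rfl
  rw [hE]
  refine (Set.ncard_union_le A B).trans ?_
  have h4 : m ^ 2 ≤ m ^ 4 := by
    rcases Nat.eq_zero_or_pos m with h | h
    · rw [h]
      norm_num
    · exact Nat.pow_le_pow_right h (by norm_num)
  calc A.ncard + B.ncard ≤ (4 * m ^ 2) ^ 2 + 6 * m ^ 2 := Nat.add_le_add hA hB
    _ = 16 * m ^ 4 + 6 * m ^ 2 := by ring
    _ ≤ 22 * m ^ 4 := by omega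

end Pool.Agent.FewConics
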