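import Pool.Agent.Lib_MP_6b99df_fc.Core

/-! PIECE Fam: arbitrary families of nondegenerate conics. -/

set_option autoImplicit false

open scoped LinearAlgebra.Projectivization

namespace Pool.Agent.FewConics

variable {p : ℕ} [Fact p.Prime]

private theorem qf_smul_fam (c : ZMod p) (M : Matrix (Fin 3) (Fin 3) (ZMod p))
    (x : Fin 3 → ZMod p) : qf (c • M) x = c * qf M x := by
  unfold qf
  rw [Matrix.smul_mulVec, dotProduct_smul, smul_eq_mul]

private def famSetoid {m : ℕ} (M : Fin m → Matrix (Fin 3) (Fin 3) (ZMod p)) : Setoid (Fin m) where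
  r i j := ∃ c : ZMod p, c ≠ 0 ∧ M j = c • M i
  iseqv := by
    refine ⟨fun i => ⟨1, one_ne_zero, (one_smul _ _).symm⟩, ?_, ?_⟩
    · rintro i j ⟨c, hc, h⟩
      exact ⟨c⁻¹, inv_ne_zero hc, by rw [h, smul_smul, inv_mul_cancel₀ hc, one_smul]⟩
    · rintro i j k ⟨c, hc, h⟩ ⟨d, hd, h'⟩
      exact ⟨d * c, mul_ne_zero hd hc, by rw [h', h, smul_smul]⟩

/-- Choose representatives of the classes of the relation `∃ c ≠ 0, M j = c • M i` on `Fin m` (`Quotient`, `Quotient.out`): the number
`m'` of classes satisfies `0 < m' ≤ m`, the representatives are pairwise not proportional (a factor `c = 0` is impossible because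
of the determinants), and the set of points off all conics does not change. The bound of `core` decreases in `m`. -/
theorem family_bound (hp2 : p ≠ 2) (B : Set (PG p)) (hB : Blocking B) (m : ℕ) (hm : 0 < m)
    (M : Fin m → Matrix (Fin 3) (Fin 3) (ZMod p)) (hM : ∀ i, (M i).IsSymm)
    (hd : ∀ i, (M i).det ≠ 0) :
    (p : ℝ) - 300 * 2 ^ m * m ^ 4 * √p ≤ {P | P ∈ B ∧ ∀ i, ¬ OnConic (M i) P}.ncard := by
  classical
  have hcard : Fintype.card (Quotient (famSetoid M)) ≤ m := by
    have h := Fintype.card_quotient_le (famSetoid M)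
    rwa [Fintype.card_fin] at h
  have h0 : 0 < Fintype.card (Quotient (famSetoid M)) :=
    Fintype.card_pos_iff.2 ⟨Quotient.mk _ ⟨0, hm⟩⟩
  have hne : ∀ a b : Quotient (famSetoid M), a ≠ b → ∀ c : ZMod p,
      M b.out ≠ c • M a.out := by
    intro a b hab c h
    by_cases hc : c = 0
    · apply hd b.out
      rw [h, hc, zero_smul, Matrix.det_zero]
    · apply hab
      rw [← Quotient.out_eq a, ← Quotient.out_eq b]
      exact Quotient.sound ⟨c, hc, h⟩
  have hset : {P | P ∈ B ∧ ∀ a : Quotient (famSetoid M), ¬ OnConic (M a.out) P} =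
      {P | P ∈ B ∧ ∀ i, ¬ OnConic (M i) P} := by
    ext P
    refine and_congr_right fun _ => ⟨fun h i hi => ?_, fun h a => h _⟩
    obtain ⟨c, hc, hM'⟩ : ∃ c : ZMod p, c ≠ 0 ∧
        M (Quotient.mk (famSetoid M) i).out = c • M i :=
      (famSetoid M).symm' (Quotient.mk_out (s := famSetoid M) i)
    apply h (Quotient.mk (famSetoid M) i)
    unfold OnConic at hi ⊢
    rw [hM', qf_smul_fam, hi, mul_zero]
  have h1 := core hp2 h0 (fun a : Quotient (famSetoid M) => M a.out) (fun a => hM _)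
    (fun a => hd _) hne B hB
  rw [hset] at h1
  refine le_trans ?_ h1
  have h2 : (2 : ℝ) ^ Fintype.card (Quotient (famSetoid M)) ≤ 2 ^ m :=
    pow_le_pow_right₀ (by norm_num) hcard
  have h3 : (Fintype.card (Quotient (famSetoid M)) : ℝ) ^ 4 ≤ (m : ℝ) ^ 4 :=
    pow_le_pow_left₀ (Nat.cast_nonneg _) (by exact_mod_cast hcard) 4
  have h4 : 300 * (2 : ℝ) ^ Fintype.card (Quotient (famSetoid M)) *
      (Fintype.card (Quotient (famSetoid M)) : ℝ) ^ 4 * √p ≤ 300 * 2 ^ m * m ^ 4 * √p := by
    gcongr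
  linarith

end Pool.Agent.FewConics
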