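import Pool.Agent.Lib_MP_6b99df_fc.Alg

/-! PIECE PencilA: points and lines. -/

set_option autoImplicit false
set_option linter.unusedSimpArgs false

open scoped LinearAlgebra.Projectivization

namespace Pool.Agent.FewConics

variable {p : ℕ} [Fact p.Prime]

/-- some coordinate of the representative is not zero -/
private theorem exists_coord (e : PG p) : ∃ i : Fin 3, e.rep i ≠ 0 := by
  by_contra h
  push Not at h
  exact e.rep_nonzero (funext h)

/-- a basis of the plane orthogonal to `e` (`e = (x, y, z)`: two of `(0, z, -y)`, `(-z, 0, x)`, `(y, -x, 0)`) -/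
theorem exists_basis (e : PG p) : ∃ a b : Fin 3 → ZMod p, dotProduct a e.rep = 0 ∧
    dotProduct b e.rep = 0 ∧ ∃ s : ZMod p, s ≠ 0 ∧ crossProduct a b = s • e.rep := by
  obtain ⟨i, hi⟩ := exists_coord e
  generalize e.rep = v at hi ⊢
  fin_cases i
  · refine ⟨![-v 2, 0, v 0], ![v 1, -v 0, 0], ?_, ?_, v 0, hi, ?_⟩
    · simp only [dotProduct, Fin.sum_univ_three, Matrix.cons_val]
      ring
    · simp only [dotProduct, Fin.sum_univ_three, Matrix.cons_val]
      ring
    · rw [cross_apply]
      ext j
      fin_cases j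
      · simp only [Fin.zero_eta, Fin.mk_one, Fin.reduceFinMk, Matrix.cons_val, Pi.smul_apply, smul_eq_mul]
        ring
      · simp only [Fin.zero_eta, Fin.mk_one, Fin.reduceFinMk, Matrix.cons_val, Pi.smul_apply, smul_eq_mul]
        ring
      · simp only [Fin.zero_eta, Fin.mk_one, Fin.reduceFinMk, Matrix.cons_val, Pi.smul_apply, smul_eq_mul]
        ring
  · refine ⟨![v 1, -v 0, 0], ![0, v 2, -v 1], ?_, ?_, v 1, hi, ?_⟩
    · simp only [dotProduct, Fin.sum_univ_three, Matrix.cons_val]
      ring
    · simp only [dotProduct, Fin.sum_univ_three, Matrix.cons_val]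
      ring
    · rw [cross_apply]
      ext j
      fin_cases j
      · simp only [Fin.zero_eta, Fin.mk_one, Fin.reduceFinMk, Matrix.cons_val, Pi.smul_apply, smul_eq_mul]
        ring
      · simp only [Fin.zero_eta, Fin.mk_one, Fin.reduceFinMk, Matrix.cons_val, Pi.smul_apply, smul_eq_mul]
        ring
      · simp only [Fin.zero_eta, Fin.mk_one, Fin.reduceFinMk, Matrix.cons_val, Pi.smul_apply, smul_eq_mul]
        ring
  · refine ⟨![0, v 2, -v 1], ![-v 2, 0, v 0], ?_, ?_, v 2, hi, ?_⟩
    · simp only [dotProduct, Fin.sum_univ_three, Matrix.cons_val]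
      ring
    · simp only [dotProduct, Fin.sum_univ_three, Matrix.cons_val]
      ring
    · rw [cross_apply]
      ext j
      fin_cases j
      · simp only [Fin.zero_eta, Fin.mk_one, Fin.reduceFinMk, Matrix.cons_val, Pi.smul_apply, smul_eq_mul]
        ring
      · simp only [Fin.zero_eta, Fin.mk_one, Fin.reduceFinMk, Matrix.cons_val, Pi.smul_apply, smul_eq_mul]
        ring
      · simp only [Fin.zero_eta, Fin.mk_one, Fin.reduceFinMk, Matrix.cons_val, Pi.smul_apply, smul_eq_mul]
        ring

/-- every vector of the plane is a combination of the basis -/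
theorem plane_comb (e : PG p) (a b : Fin 3 → ZMod p) (ha : dotProduct a e.rep = 0)
    (hb : dotProduct b e.rep = 0) (s : ZMod p) (hs : s ≠ 0) (hab : crossProduct a b = s • e.rep)
    (v : Fin 3 → ZMod p) (hv : dotProduct v e.rep = 0) : ∃ c d : ZMod p, v = c • a + d • b := by
  obtain ⟨i, hi⟩ := exists_coord e
  obtain ⟨w, hw⟩ : ∃ w : Fin 3 → ZMod p, dotProduct e.rep w ≠ 0 := by
    refine ⟨Pi.single i 1, ?_⟩
    rw [dotProduct_single]
    simpa using hi
  generalize e.rep = u at hab hv hw
  have h0 := congrFun hab 0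
  have h1 := congrFun hab 1
  have h2 := congrFun hab 2
  rw [cross_apply] at h0 h1 h2
  simp only [Matrix.cons_val, Pi.smul_apply, smul_eq_mul] at h0 h1 h2
  simp only [dotProduct, Fin.sum_univ_three] at hv hw
  have hsw : s * (u 0 * w 0 + u 1 * w 1 + u 2 * w 2) ≠ 0 := mul_ne_zero hs hw
  refine ⟨((v 1 * b 2 - v 2 * b 1) * w 0 + (v 2 * b 0 - v 0 * b 2) * w 1 +
      (v 0 * b 1 - v 1 * b 0) * w 2) / (s * (u 0 * w 0 + u 1 * w 1 + u 2 * w 2)),
    ((a 1 * v 2 - a 2 * v 1) * w 0 + (a 2 * v 0 - a 0 * v 2) * w 1 +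
      (a 0 * v 1 - a 1 * v 0) * w 2) / (s * (u 0 * w 0 + u 1 * w 1 + u 2 * w 2)), ?_⟩
  have key : ∀ j : Fin 3, v j * (s * (u 0 * w 0 + u 1 * w 1 + u 2 * w 2)) =
      ((v 1 * b 2 - v 2 * b 1) * w 0 + (v 2 * b 0 - v 0 * b 2) * w 1 +
        (v 0 * b 1 - v 1 * b 0) * w 2) * a j +
      ((a 1 * v 2 - a 2 * v 1) * w 0 + (a 2 * v 0 - a 0 * v 2) * w 1 +
        (a 0 * v 1 - a 1 * v 0) * w 2) * b j := by
    intro j
    fin_cases j
    · simp only [Fin.zero_eta, Fin.mk_one, Fin.reduceFinMk]
      linear_combination (-v 0) * (w 0 * h0 + w 1 * h1 + w 2 * h2) +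
        w 0 * (v 0 * h0 + v 1 * h1 + v 2 * h2) + s * w 0 * hv
    · simp only [Fin.zero_eta, Fin.mk_one, Fin.reduceFinMk]
      linear_combination (-v 1) * (w 0 * h0 + w 1 * h1 + w 2 * h2) +
        w 1 * (v 0 * h0 + v 1 * h1 + v 2 * h2) + s * w 1 * hv
    · simp only [Fin.zero_eta, Fin.mk_one, Fin.reduceFinMk]
      linear_combination (-v 2) * (w 0 * h0 + w 1 * h1 + w 2 * h2) +
        w 2 * (v 0 * h0 + v 1 * h1 + v 2 * h2) + s * w 2 * hv
  funext j
  rw [Pi.add_apply, Pi.smul_apply, Pi.smul_apply, smul_eq_mul, smul_eq_mul, div_mul_eq_mul_div,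
    div_mul_eq_mul_div, ← add_div, ← key j, mul_div_assoc, div_self hsw, mul_one]

private theorem orth_mk (a : Fin 3 → ZMod p) (ha : a ≠ 0) (P : PG p) :
    Projectivization.orthogonal (Projectivization.mk (ZMod p) a ha) P ↔ dotProduct a P.rep = 0 := by
  have h : Projectivization.orthogonal (Projectivization.mk (ZMod p) a ha)
      (Projectivization.mk (ZMod p) P.rep P.rep_nonzero) ↔ dotProduct a P.rep = 0 :=
    Projectivization.orthogonal_mk ha P.rep_nonzero
  rwa [Projectivization.mk_rep] at h

/-- Two points are on a line. (`crossProduct`; any line through `P` if `P = Q`.) -/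
theorem exists_line (P Q : PG p) : ∃ l : PG p, Projectivization.orthogonal l P ∧
    Projectivization.orthogonal l Q := by
  by_cases h : P = Q
  · subst h
    obtain ⟨a, b, ha, hb, s, hs, hab⟩ := exists_basis P
    have ha0 : a ≠ 0 := by
      rintro rfl
      rw [map_zero, LinearMap.zero_apply] at hab
      rcases smul_eq_zero.1 hab.symm with h | h
      · exact hs h
      · exact P.rep_nonzero h
    refine ⟨Projectivization.mk (ZMod p) a ha0, ?_, ?_⟩
    · exact (orth_mk a ha0 P).2 ha
    · exact (orth_mk a ha0 P).2 ha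
  · exact ⟨Projectivization.cross P Q, Projectivization.cross_orthogonal_left h,
      Projectivization.cross_orthogonal_right h⟩

/-- two different lines have at most one common point -/
theorem meet_le (l l' : PG p) (h : l ≠ l') :
    {e : PG p | Projectivization.orthogonal l e ∧ Projectivization.orthogonal l' e}.ncard ≤ 1 := by
  have hsub : {e : PG p | Projectivization.orthogonal l e ∧ Projectivization.orthogonal l' e} ⊆
      {Projectivization.cross l l'} := by
    rintro e ⟨h1, h2⟩
    rw [Set.mem_singleton_iff]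
    induction l using Projectivization.ind with | h u hu =>
    induction l' using Projectivization.ind with | h v hv =>
    induction e using Projectivization.ind with | h w hw =>
    rw [Projectivization.cross_mk_of_ne hu hv h, eq_comm,
      Projectivization.mk_eq_mk_iff_crossProduct_eq_zero]
    rw [Projectivization.orthogonal_mk] at h1 h2
    simp only [dotProduct, Fin.sum_univ_three] at h1 h2
    rw [cross_apply, cross_apply]
    ext j
    fin_cases j
    · simp only [Fin.zero_eta, Fin.mk_one, Fin.reduceFinMk, Matrix.cons_val, Pi.zero_apply]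
      linear_combination v 0 * h1 - u 0 * h2
    · simp only [Fin.zero_eta, Fin.mk_one, Fin.reduceFinMk, Matrix.cons_val, Pi.zero_apply]
      linear_combination v 1 * h1 - u 1 * h2
    · simp only [Fin.zero_eta, Fin.mk_one, Fin.reduceFinMk, Matrix.cons_val, Pi.zero_apply]
      linear_combination v 2 * h1 - u 2 * h2
  refine (Set.ncard_le_ncard hsub (Set.finite_singleton _)).trans ?_
  rw [Set.ncard_singleton]

end Pool.Agent.FewConics
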