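import Pool.Agent.Lib_MP_6b99df_fc.Tang

/-! PIECE Planes: a nonzero form vanishes on at most two planes. -/

set_option autoImplicit false

open scoped LinearAlgebra.Projectivization

namespace Pool.Agent.FewConics

variable {p : ℕ} [Fact p.Prime]

private theorem planes_cross {P Q : PG p} (h : P ≠ Q) : crossProduct P.rep Q.rep ≠ 0 := by
  intro h0
  apply h
  have := (Projectivization.mk_eq_mk_iff_crossProduct_eq_zero P.rep_nonzero Q.rep_nonzero).2 h0
  rwa [Projectivization.mk_rep, Projectivization.mk_rep] at this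

private theorem planes_ex {a : Fin 3 → ZMod p} (ha : a ≠ 0) :
    ∃ y : Fin 3 → ZMod p, dotProduct y a = 1 := by
  obtain ⟨i, hi⟩ := Function.ne_iff.1 ha
  have hi' : a i ≠ 0 := by simpa using hi
  refine ⟨Pi.single i (a i)⁻¹, ?_⟩
  rw [single_dotProduct, inv_mul_cancel₀ hi']

private theorem planes_ex2 {a b : Fin 3 → ZMod p} (ha : a ≠ 0) (hb : b ≠ 0) :
    ∃ y : Fin 3 → ZMod p, dotProduct y a ≠ 0 ∧ dotProduct y b ≠ 0 := by
  obtain ⟨y, hy⟩ := planes_ex ha
  obtain ⟨z, hz⟩ := planes_ex hb
  by_cases h1 : dotProduct y b = 0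
  · by_cases h2 : dotProduct z a = 0
    · refine ⟨y + z, ?_, ?_⟩
      · rw [add_dotProduct, hy, h2, add_zero]
        exact one_ne_zero
      · rw [add_dotProduct, h1, hz, zero_add]
        exact one_ne_zero
    · exact ⟨z, h2, by rw [hz]; exact one_ne_zero⟩
  · exact ⟨y, by rw [hy]; exact one_ne_zero, h1⟩

private theorem planes_cramer (u v w q : Fin 3 → ZMod p) :
    (dotProduct (crossProduct u v) w) • q = (dotProduct q (crossProduct v w)) • u +
      (dotProduct q (crossProduct w u)) • v + (dotProduct q (crossProduct u v)) • w := by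
  funext i
  fin_cases i <;> simp [cross_apply, dotProduct, Fin.sum_univ_three] <;> ring

private theorem planes_dual (u v w a : Fin 3 → ZMod p) :
    (dotProduct (crossProduct u v) w) • a = (dotProduct a u) • (crossProduct v w) +
      (dotProduct a v) • (crossProduct w u) + (dotProduct a w) • (crossProduct u v) := by
  funext i
  fin_cases i <;> simp [cross_apply, dotProduct, Fin.sum_univ_three] <;> ring

private theorem planes_bfl (M : Matrix (Fin 3) (Fin 3) (ZMod p)) (x y z : Fin 3 → ZMod p)
    (a b c : ZMod p) (q : Fin 3 → ZMod p) :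
    bf M (a • x + b • y + c • z) q = a * bf M x q + b * bf M y q + c * bf M z q := by
  simp [bf, add_dotProduct, smul_dotProduct]

private theorem planes_bfr (M : Matrix (Fin 3) (Fin 3) (ZMod p)) (x y z : Fin 3 → ZMod p)
    (a b c : ZMod p) (q : Fin 3 → ZMod p) :
    bf M q (a • x + b • y + c • z) = a * bf M q x + b * bf M q y + c * bf M q z := by
  simp [bf, Matrix.mulVec_add, Matrix.mulVec_smul, dotProduct_add, dotProduct_smul]

/-- the bilinear form vanishes on a plane on which the quadratic form vanishes -/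
private theorem planes_bf (hp2 : p ≠ 2) {K : Matrix (Fin 3) (Fin 3) (ZMod p)} (hK : K.IsSymm)
    (e : Fin 3 → ZMod p) (H : ∀ v, dotProduct v e = 0 → qf K v = 0) (x y : Fin 3 → ZMod p)
    (hx : dotProduct x e = 0) (hy : dotProduct y e = 0) : bf K x y = 0 := by
  have h2 : (2 : ZMod p) ≠ 0 := by
    intro h
    have : ((2 : ℕ) : ZMod p) = 0 := by exact_mod_cast h
    rw [ZMod.natCast_eq_zero_iff] at this
    exact hp2 ((Nat.prime_dvd_prime_iff_eq Fact.out Nat.prime_two).1 this)
  have h1 := qf_add hK x y 1 1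
  rw [H x hx, H y hy, H _ (by simp [add_dotProduct, hx, hy])] at h1
  have h3 : 2 * bf K x y = 0 := by linear_combination -h1
  exact (mul_eq_zero.1 h3).resolve_left h2

private theorem planes_key (hp2 : p ≠ 2) {K : Matrix (Fin 3) (Fin 3) (ZMod p)} (hK : K.IsSymm)
    (e f g : Fin 3 → ZMod p) (hef : crossProduct e f ≠ 0) (heg : crossProduct e g ≠ 0)
    (hfg : crossProduct f g ≠ 0) (He : ∀ v, dotProduct v e = 0 → qf K v = 0)
    (Hf : ∀ v, dotProduct v f = 0 → qf K v = 0) (Hg : ∀ v, dotProduct v g = 0 → qf K v = 0) :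
    K = 0 := by
  have h2 : (2 : ZMod p) ≠ 0 := by
    intro h
    have : ((2 : ℕ) : ZMod p) = 0 := by exact_mod_cast h
    rw [ZMod.natCast_eq_zero_iff] at this
    exact hp2 ((Nat.prime_dvd_prime_iff_eq Fact.out Nat.prime_two).1 this)
  obtain ⟨z, hz⟩ := planes_ex hef
  have hz' : dotProduct (crossProduct e f) z = 1 := by rw [dotProduct_comm]; exact hz
  -- the dual basis
  have hdec : ∀ q : Fin 3 → ZMod p, q = (dotProduct q e) • (crossProduct f z) +
      (dotProduct q f) • (crossProduct z e) + (dotProduct q z) • (crossProduct e f) := by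
    intro q
    have h := planes_dual e f z q
    rw [hz', one_smul] at h
    exact h
  have o1 : dotProduct (crossProduct z e) e = 0 := by
    simp [cross_apply, dotProduct, Fin.sum_univ_three]; ring
  have o2 : dotProduct (crossProduct e f) e = 0 := by
    simp [cross_apply, dotProduct, Fin.sum_univ_three]; ring
  have o3 : dotProduct (crossProduct f z) f = 0 := by
    simp [cross_apply, dotProduct, Fin.sum_univ_three]; ring
  have o4 : dotProduct (crossProduct e f) f = 0 := by
    simp [cross_apply, dotProduct, Fin.sum_univ_three]; ring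
  have b11 := planes_bf hp2 hK e He _ _ o1 o1
  have b12 := planes_bf hp2 hK e He _ _ o1 o2
  have b21 := planes_bf hp2 hK e He _ _ o2 o1
  have b22 := planes_bf hp2 hK e He _ _ o2 o2
  have b33 := planes_bf hp2 hK f Hf _ _ o3 o3
  have b34 := planes_bf hp2 hK f Hf _ _ o3 o4
  have b43 := planes_bf hp2 hK f Hf _ _ o4 o3
  set t := bf K (crossProduct f z) (crossProduct z e) with ht
  have ht' : bf K (crossProduct z e) (crossProduct f z) = t := bf_comm hK _ _
  have hbf : ∀ x y : Fin 3 → ZMod p, bf K x y =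
      (dotProduct x e * dotProduct y f + dotProduct x f * dotProduct y e) * t := by
    intro x y
    conv_lhs => rw [hdec x, hdec y]
    rw [planes_bfl, planes_bfr, planes_bfr, planes_bfr, b11, b12, b21, b22, b33, b34, b43, ht', ← ht]
    ring
  have ht0 : t = 0 := by
    obtain ⟨y, hy1, hy2⟩ := planes_ex2 heg hfg
    have hq : dotProduct (crossProduct g y) g = 0 := by
      simp [cross_apply, dotProduct, Fin.sum_univ_three]; ring
    have h1 := Hg _ hq
    rw [qf_eq_bf, hbf] at h1
    have h3 : dotProduct (crossProduct g y) e = dotProduct y (crossProduct e g) := by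
      simp [cross_apply, dotProduct, Fin.sum_univ_three]; ring
    have h4 : dotProduct (crossProduct g y) f = dotProduct y (crossProduct f g) := by
      simp [cross_apply, dotProduct, Fin.sum_univ_three]; ring
    rw [h3, h4] at h1
    have h5 : 2 * (dotProduct y (crossProduct e g) * dotProduct y (crossProduct f g)) * t = 0 := by
      linear_combination h1
    exact (mul_eq_zero.1 h5).resolve_left (mul_ne_zero h2 (mul_ne_zero hy1 hy2))
  ext i j
  have h1 := hbf (Pi.single i 1) (Pi.single j 1)
  rw [ht0, mul_zero] at h1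
  simpa [bf] using h1

/-- A nonzero form vanishes on at most two planes. If it vanishes on `e₁^⊥` and `e₂^⊥`, `e₁ ≠ e₂`: with `w = e₁ × e₂`,
`v₁ ∈ e₁^⊥`, `v₂ ∈ e₂^⊥` independent, `qf K (a w + b v₁ + c v₂) = 2 b c bf K v₁ v₂` with `bf K v₁ v₂ ≠ 0`, so the zeros are in
`e₁^⊥ ∪ e₂^⊥`; a plane in the union of two planes is one of them. -/
theorem planes_le (hp2 : p ≠ 2) {K : Matrix (Fin 3) (Fin 3) (ZMod p)} (hK : K.IsSymm) (h0 : K ≠ 0) :
    {e : PG p | ∀ v, dotProduct v e.rep = 0 → qf K v = 0}.ncard ≤ 2 := by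
  by_contra hcon
  have hlt : 2 < {e : PG p | ∀ v, dotProduct v e.rep = 0 → qf K v = 0}.ncard := by omega
  have hfin : {e : PG p | ∀ v, dotProduct v e.rep = 0 → qf K v = 0}.Finite :=
    Set.finite_of_ncard_pos (by omega)
  obtain ⟨a, b, c, ha, hb, hc, hab, hac, hbc⟩ := (Set.two_lt_ncard_iff hfin).1 hlt
  exact h0 (planes_key hp2 hK a.rep b.rep c.rep (planes_cross hab) (planes_cross hac)
    (planes_cross hbc) ha hb hc)

end Pool.Agent.FewConics
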