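import Pool.Agent.Lib_MP_6b99df_fc.Fam
import Pool.Agent.Lib_MP_6b99df_fc.Degen

/-! PIECE Red: arbitrary families of conics. -/

set_option autoImplicit false

open scoped LinearAlgebra.Projectivization

namespace Pool.Agent.FewConics

variable {p : ℕ} [Fact p.Prime]

/-- Apply `family_bound` to the family in which the degenerate matrices are replaced by the identity matrix; the degenerate conics
contain at most `2 k` points of `B` each (`degenerate`, `AtMost`). -/
theorem bounded_family (hp2 : p ≠ 2) (k : ℕ) (B : Set (PG p)) (hB : Blocking B) (hk : AtMost k B)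
    (m : ℕ) (hm : 0 < m) (M : Fin m → Matrix (Fin 3) (Fin 3) (ZMod p)) (hM : ∀ i, (M i).IsSymm)
    (h0 : ∀ i, M i ≠ 0) :
    (p : ℝ) - 300 * 2 ^ m * m ^ 4 * √p - 2 * k * m ≤
      {P | P ∈ B ∧ ∀ i, ¬ OnConic (M i) P}.ncard := by
  classical
  have : Finite (PG p) := inferInstance
  have h1 := family_bound hp2 B hB m hm (fun i => if (M i).det = 0 then 1 else M i)
    (fun i => by
      split_ifs with h
      · exact Matrix.isSymm_one
      · exact hM i)
    (fun i => by
      split_ifs with h
      · rw [Matrix.det_one]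
        exact one_ne_zero
      · exact h)
  -- the degenerate conics
  have h2 : ∀ i, (if (M i).det = 0 then {P : PG p | P ∈ B ∧ OnConic (M i) P} else ∅).ncard ≤
      2 * k := by
    intro i
    split_ifs with h
    · obtain ⟨l, l', hll⟩ := degenerate hp2 (hM i) (h0 i) h
      have hsub : {P : PG p | P ∈ B ∧ OnConic (M i) P} ⊆
          {P | P ∈ B ∧ Projectivization.orthogonal l P} ∪
            {P | P ∈ B ∧ Projectivization.orthogonal l' P} := by
        rintro P ⟨hPB, hP⟩
        rcases hll P hP with h | h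
        · exact Or.inl ⟨hPB, h⟩
        · exact Or.inr ⟨hPB, h⟩
      refine (Set.ncard_le_ncard hsub (Set.toFinite _)).trans ((Set.ncard_union_le _ _).trans ?_)
      have := hk l
      have := hk l'
      omega
    · simp
  have h3 : {P : PG p | P ∈ B ∧ ∀ i, ¬ OnConic (if (M i).det = 0 then 1 else M i) P} ⊆
      {P | P ∈ B ∧ ∀ i, ¬ OnConic (M i) P} ∪
        ⋃ i, (if (M i).det = 0 then {P : PG p | P ∈ B ∧ OnConic (M i) P} else ∅) := by
    rintro P ⟨hPB, hP⟩
    by_cases hall : ∀ i, ¬ OnConic (M i) P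
    · exact Or.inl ⟨hPB, hall⟩
    · push Not at hall
      obtain ⟨i, hi⟩ := hall
      refine Or.inr (Set.mem_iUnion.2 ⟨i, ?_⟩)
      have hPi := hP i
      by_cases h : (M i).det = 0
      · rw [if_pos h]
        exact ⟨hPB, hi⟩
      · rw [if_neg h] at hPi
        exact absurd hi hPi
  have h4 : (⋃ i, (if (M i).det = 0 then {P : PG p | P ∈ B ∧ OnConic (M i) P} else ∅)).ncard ≤
      m * (2 * k) := by
    have h5 := Set.ncard_iUnion_le_of_fintype
      (fun i : Fin m => (if (M i).det = 0 then {P : PG p | P ∈ B ∧ OnConic (M i) P} else ∅))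
    refine h5.trans ?_
    calc _ ≤ ∑ _i : Fin m, 2 * k := Finset.sum_le_sum fun i _ => h2 i
      _ = m * (2 * k) := by simp
  have h5 := (Set.ncard_le_ncard h3 (Set.toFinite _)).trans (Set.ncard_union_le _ _)
  have h6 : ({P : PG p | P ∈ B ∧ ∀ i, ¬ OnConic (if (M i).det = 0 then 1 else M i) P}.ncard : ℝ) ≤
      {P : PG p | P ∈ B ∧ ∀ i, ¬ OnConic (M i) P}.ncard + m * (2 * k) := by
    exact_mod_cast h5.trans (Nat.add_le_add_left h4 _)
  linarith

end Pool.Agent.FewConics
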