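import Pool.Agent.Lib_MP_6b99df_fc.SymA

/-! PIECE Rigid: isometries which fix two points. -/

set_option autoImplicit false

open scoped LinearAlgebra.Projectivization

namespace Pool.Agent.FewConics

variable {p : ℕ} [Fact p.Prime]

/-- a vector orthogonal to `u` and `v` is proportional to `u × v` -/
private theorem rigid_par (u v y z : Fin 3 → ZMod p) (hu : dotProduct u z = 0)
    (hv : dotProduct v z = 0) (i : Fin 3) :
    dotProduct y (crossProduct u v) * z i = dotProduct y z * crossProduct u v i := by
  simp only [dotProduct, Fin.sum_univ_three] at hu hv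
  fin_cases i
  · simp only [dotProduct, Fin.sum_univ_three, cross_apply, Matrix.cons_val_zero,
      Matrix.cons_val_one, Matrix.cons_val_two, Matrix.head_cons, Matrix.tail_cons, Fin.zero_eta]
    linear_combination (y 1 * u 2 - y 2 * u 1) * hv - (y 1 * v 2 - y 2 * v 1) * hu
  · simp only [dotProduct, Fin.sum_univ_three, cross_apply, Matrix.cons_val_zero,
      Matrix.cons_val_one, Matrix.cons_val_two, Matrix.head_cons, Matrix.tail_cons, Fin.mk_one]
    linear_combination (y 2 * u 0 - y 0 * u 2) * hv - (y 2 * v 0 - y 0 * v 2) * hu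
  · simp only [dotProduct, Fin.sum_univ_three, cross_apply, Matrix.cons_val_zero,
      Matrix.cons_val_one, Matrix.cons_val_two, Matrix.head_cons, Matrix.tail_cons, Fin.reduceFinMk]
    linear_combination (y 0 * u 1 - y 1 * u 0) * hv - (y 0 * v 1 - y 1 * v 0) * hu

/-- the triple product as a determinant -/
private theorem rigid_det (u v y : Fin 3 → ZMod p) :
    (Matrix.of ![u, v, y]).det = dotProduct y (crossProduct u v) := by
  rw [Matrix.det_fin_three]
  simp only [dotProduct, Fin.sum_univ_three, cross_apply, Matrix.of_apply, Matrix.cons_val_zero,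
      Matrix.cons_val_one, Matrix.cons_val_two, Matrix.head_cons, Matrix.tail_cons]
  ring

/-- Cramer's rule -/
private theorem rigid_cramer (u v y x : Fin 3 → ZMod p) :
    dotProduct y (crossProduct u v) • x = dotProduct y (crossProduct x v) • u +
      dotProduct y (crossProduct u x) • v + dotProduct x (crossProduct u v) • y := by
  ext i
  fin_cases i <;>
  · simp only [dotProduct, Fin.sum_univ_three, cross_apply, Matrix.cons_val_zero, Pi.smul_apply,
      Pi.add_apply, smul_eq_mul,
      Matrix.cons_val_one, Matrix.cons_val_two, Matrix.head_cons, Matrix.tail_cons, Fin.mk_one, Fin.zero_eta, Fin.reduceFinMk]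
    ring

/-- An isometry of determinant `1` which fixes two independent vectors `u, v` is the identity. For `y` let `n = R y - y`:
`bf M n w = bf M (R y) (R w) - bf M y w = 0` for `w` in `W = ⟨u, v⟩`. Suppose `n ≠ 0`. The orthogonal space of `W` is spanned by `n` (dimension `1`).
If `n` is not in `W`: `R n` is orthogonal to `W = R W`, so `R n = t n`, `t = det R = 1` (basis `u, v, n`), so `R = 1`, `n = 0`. If `n ∈ W`:
`qf M n = 0` and `0 = qf M (R y) - qf M y = qf M n + 2 bf M y n`, so `n` is orthogonal to `y` and to `W`; `y ∉ W` (otherwise `n = 0`), so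
`M n = 0`, `n = 0`. -/
theorem rigid (hp2 : p ≠ 2) {M : Matrix (Fin 3) (Fin 3) (ZMod p)} (hM : M.IsSymm)
    (hd : M.det ≠ 0) (R : (Fin 3 → ZMod p) →ₗ[ZMod p] (Fin 3 → ZMod p))
    (h : ∀ x, qf M (R x) = qf M x) (hdet : LinearMap.det R = 1) (u v : Fin 3 → ZMod p)
    (huv : crossProduct u v ≠ 0) (hu : R u = u) (hv : R v = v) : ∀ y, R y = y := by
  have h2 : (2 : ZMod p) ≠ 0 := by
    intro h0
    have h1 : ((2 : ℕ) : ZMod p) = 0 := by exact_mod_cast h0
    rw [ZMod.natCast_eq_zero_iff] at h1
    exact hp2 ((Nat.prime_dvd_prime_iff_eq Fact.out Nat.prime_two).1 h1)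
  have hbf : ∀ x y, bf M (R x) (R y) = bf M x y := by
    intro x y
    have := bf_map hp2 hM R 1 (fun x => by rw [one_mul]; exact h x) x y
    rwa [one_mul] at this
  -- a vector off the plane
  obtain ⟨i, hi⟩ : ∃ i, crossProduct u v i ≠ 0 := by
    by_contra hcon
    push Not at hcon
    exact huv (funext hcon)
  obtain ⟨y, hy⟩ : ∃ y : Fin 3 → ZMod p, dotProduct y (crossProduct u v) ≠ 0 :=
    ⟨Pi.single i 1, by rwa [single_one_dotProduct]⟩
  set n := R y - y with hn
  have hRy : R y = y + n := by rw [hn]; abel
  have hnu : bf M u n = 0 := by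
    have h3 := hbf u y
    rw [hu, hRy] at h3
    unfold bf at h3 ⊢
    rw [Matrix.mulVec_add, dotProduct_add] at h3
    linear_combination h3
  have hnv : bf M v n = 0 := by
    have h3 := hbf v y
    rw [hv, hRy] at h3
    unfold bf at h3 ⊢
    rw [Matrix.mulVec_add, dotProduct_add] at h3
    linear_combination h3
  -- the determinant
  have hwn : dotProduct n (crossProduct u v) = 0 := by
    have h3 : (Matrix.of ![u, v, y + n]).det = (Matrix.of ![u, v, y]).det := by
      have h4 : Matrix.of ![u, v, y + n] = Matrix.of ![u, v, y] * (LinearMap.toMatrix' R).transpose := by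
        ext a b
        have h5 : ∀ x : Fin 3 → ZMod p, ∀ b, (Matrix.vecMul x (LinearMap.toMatrix' R).transpose) b = R x b := by
          intro x b
          rw [Matrix.vecMul_transpose, LinearMap.toMatrix'_mulVec]
        have h6 : (Matrix.of ![u, v, y] * (LinearMap.toMatrix' R).transpose) a b =
            (Matrix.vecMul (Matrix.of ![u, v, y] a) (LinearMap.toMatrix' R).transpose) b := rfl
        rw [h6, h5]
        fin_cases a
        · show u b = R u b
          rw [hu]
        · show v b = R v b
          rw [hv]
        · show (y + n) b = R y b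
          rw [hRy]
      rw [h4, Matrix.det_mul, Matrix.det_transpose, LinearMap.det_toMatrix', hdet, mul_one]
    rw [rigid_det, rigid_det, add_dotProduct] at h3
    linear_combination h3
  have hz : ∀ i, dotProduct y (crossProduct u v) * (M.mulVec n) i =
      dotProduct y (M.mulVec n) * crossProduct u v i := rigid_par u v y _ hnu hnv
  have hq : qf M n = 0 := by
    have h3 : dotProduct y (crossProduct u v) * qf M n =
        dotProduct y (M.mulVec n) * dotProduct n (crossProduct u v) := by
      unfold qf
      simp only [dotProduct, Finset.mul_sum]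
      refine Finset.sum_congr rfl fun i _ => ?_
      have h4 := hz i
      simp only [dotProduct] at h4
      linear_combination n i * h4
    rw [hwn, mul_zero] at h3
    exact (mul_eq_zero.1 h3).resolve_left hy
  have hyz : dotProduct y (M.mulVec n) = 0 := by
    have h3 := h y
    have h4 := qf_add hM y n 1 1
    rw [one_smul, one_smul, ← hRy, h3, hq] at h4
    have h5 : 2 * bf M y n = 0 := by linear_combination -h4
    exact (mul_eq_zero.1 h5).resolve_left h2
  have hMn : M.mulVec n = 0 := by
    funext i
    have h3 := hz i
    rw [hyz, zero_mul] at h3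
    exact (mul_eq_zero.1 h3).resolve_left hy
  have hn0 : n = 0 := by
    by_contra hne
    exact hd (Matrix.exists_mulVec_eq_zero_iff.1 ⟨n, hne, hMn⟩)
  intro x
  have h3 := rigid_cramer u v y x
  have h4 := congrArg R h3
  rw [map_smul, map_add, map_add, map_smul, map_smul, map_smul, hu, hv, hRy, hn0, add_zero, ← h3] at h4
  exact smul_right_injective _ hy h4

end Pool.Agent.FewConics
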