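import Pool.Agent.Lib_MP_6b99df_fc.Alg

/-! PIECE SymA: collineations which preserve a conic. -/

set_option autoImplicit false

open scoped LinearAlgebra.Projectivization

namespace Pool.Agent.FewConics

variable {p : ℕ} [Fact p.Prime]

/-- the bilinear form is multiplied by `mu` too (polarisation) -/
theorem bf_map (hp2 : p ≠ 2) {M : Matrix (Fin 3) (Fin 3) (ZMod p)} (hM : M.IsSymm)
    (g : (Fin 3 → ZMod p) →ₗ[ZMod p] (Fin 3 → ZMod p)) (mu : ZMod p)
    (h : ∀ x, qf M (g x) = mu * qf M x) (x y : Fin 3 → ZMod p) :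
    bf M (g x) (g y) = mu * bf M x y := by
  have h2 : (2 : ZMod p) ≠ 0 := by
    intro h0
    have h1 : ((2 : ℕ) : ZMod p) = 0 := by exact_mod_cast h0
    rw [ZMod.natCast_eq_zero_iff] at h1
    exact hp2 ((Nat.prime_dvd_prime_iff_eq Fact.out Nat.prime_two).1 h1)
  have e1 := qf_add hM x y 1 1
  have e2 := qf_add hM (g x) (g y) 1 1
  rw [one_smul, one_smul] at e1 e2
  have e3 := h (x + y)
  rw [map_add, e1, e2, h x, h y] at e3
  have e4 : 2 * bf M (g x) (g y) = 2 * (mu * bf M x y) := by linear_combination e3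
  exact mul_left_cancel₀ h2 e4

private theorem symA_two (hp2 : p ≠ 2) : (2 : ZMod p) ≠ 0 := by
  intro h0
  have h1 : ((2 : ℕ) : ZMod p) = 0 := by exact_mod_cast h0
  rw [ZMod.natCast_eq_zero_iff] at h1
  exact hp2 ((Nat.prime_dvd_prime_iff_eq Fact.out Nat.prime_two).1 h1)

/-- `Rᵀ M R = M`, `det R = 1` give a fixed vector -/
private theorem symA_fix (hp2 : p ≠ 2) {M R : Matrix (Fin 3) (Fin 3) (ZMod p)} (hd : M.det ≠ 0)
    (hR : R.transpose * M * R = M) (hdet : R.det = 1) : ∃ v ≠ 0, R.mulVec v = v := by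
  have h1 : R.transpose * M * (R - 1) = (1 - R).transpose * M := by
    rw [Matrix.mul_sub, hR, Matrix.mul_one, Matrix.transpose_sub, Matrix.transpose_one, Matrix.sub_mul,
      Matrix.one_mul]
  have h2 := congrArg Matrix.det h1
  rw [Matrix.det_mul, Matrix.det_mul, Matrix.det_mul, Matrix.det_transpose, Matrix.det_transpose, hdet,
    one_mul] at h2
  have h3 : (1 - R).det = -(R - 1).det := by
    rw [← neg_sub, Matrix.det_neg, Fintype.card_fin]
    ring
  rw [h3] at h2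
  have h4 : 2 * (M.det * (R - 1).det) = 0 := by linear_combination h2
  have h5 : (R - 1).det = 0 := by
    rcases mul_eq_zero.1 h4 with h | h
    · exact absurd h (symA_two hp2)
    · rcases mul_eq_zero.1 h with h | h
      · exact absurd h hd
      · exact h
  obtain ⟨v, hv, hv0⟩ := Matrix.exists_mulVec_eq_zero_iff.2 h5
  refine ⟨v, hv, ?_⟩
  rw [Matrix.sub_mulVec, Matrix.one_mulVec, sub_eq_zero] at hv0
  exact hv0

/-- `A` = matrix of `g`: `Aᵀ M A = mu M`, so `det A ^ 2 = mu ^ 3`; `nu = det A / mu` has `nu ^ 2 = mu` and `det A = nu ^ 3`.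
`R = A / nu` has `Rᵀ M R = M`, `det R = 1`; `Rᵀ M (R - 1) = M - Rᵀ M = (1 - R)ᵀ M`, hence `det (R - 1) = det (1 - R) = - det (R - 1)`,
`det (R - 1) = 0`, and there is `v ≠ 0` with `R v = v`. -/
theorem fix_vector (hp2 : p ≠ 2) {M : Matrix (Fin 3) (Fin 3) (ZMod p)} (hM : M.IsSymm)
    (hd : M.det ≠ 0) (g : (Fin 3 → ZMod p) ≃ₗ[ZMod p] (Fin 3 → ZMod p)) (mu : ZMod p)
    (h : ∀ x, qf M (g x) = mu * qf M x) :
    ∃ (nu : ZMod p) (v : Fin 3 → ZMod p), nu ≠ 0 ∧ nu ^ 2 = mu ∧ v ≠ 0 ∧ g v = nu • v ∧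
      LinearMap.det (g : (Fin 3 → ZMod p) →ₗ[ZMod p] (Fin 3 → ZMod p)) = nu ^ 3 := by
  set A : Matrix (Fin 3) (Fin 3) (ZMod p) :=
    LinearMap.toMatrix' (g : (Fin 3 → ZMod p) →ₗ[ZMod p] (Fin 3 → ZMod p)) with hA
  have hAv : ∀ x, A.mulVec x = g x := by
    intro x
    rw [hA, LinearMap.toMatrix'_mulVec]
    rfl
  have hbf : ∀ x y, bf M (g x) (g y) = mu * bf M x y :=
    bf_map hp2 hM (g : (Fin 3 → ZMod p) →ₗ[ZMod p] (Fin 3 → ZMod p)) mu h
  have hAM : A.transpose * M * A = mu • M := by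
    ext i j
    have h1 := hbf (Pi.single i 1) (Pi.single j 1)
    rw [← hAv, ← hAv] at h1
    have h2 : ∀ (C : Matrix (Fin 3) (Fin 3) (ZMod p)) (a b : Fin 3),
        dotProduct (Pi.single a 1) (C.mulVec (Pi.single b 1)) = C a b := by
      intro C a b
      rw [Matrix.mulVec_single_one, single_one_dotProduct]
      rfl
    have h3 : dotProduct (Pi.single i 1) ((A.transpose * M * A).mulVec (Pi.single j 1)) =
        bf M (A.mulVec (Pi.single i 1)) (A.mulVec (Pi.single j 1)) := by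
      unfold bf
      rw [← Matrix.mulVec_mulVec, ← Matrix.mulVec_mulVec, Matrix.dotProduct_mulVec, Matrix.vecMul_transpose]
    rw [← h2 (A.transpose * M * A) i j, h3, h1]
    unfold bf
    rw [h2, Matrix.smul_apply, smul_eq_mul]
  have hdetA : A.det = LinearMap.det (g : (Fin 3 → ZMod p) →ₗ[ZMod p] (Fin 3 → ZMod p)) :=
    LinearMap.det_toMatrix' _
  have hA0 : A.det ≠ 0 := by
    rw [hdetA]
    exact (LinearEquiv.isUnit_det' g).ne_zero
  have hsq : A.det ^ 2 = mu ^ 3 := by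
    have h1 := congrArg Matrix.det hAM
    rw [Matrix.det_mul, Matrix.det_mul, Matrix.det_transpose, Matrix.det_smul, Fintype.card_fin] at h1
    have h2 : M.det * A.det ^ 2 = M.det * mu ^ 3 := by linear_combination h1
    exact mul_left_cancel₀ hd h2
  have hmu : mu ≠ 0 := by
    rintro rfl
    rw [zero_pow (by norm_num)] at hsq
    exact hA0 (pow_eq_zero_iff (by norm_num) |>.1 hsq)
  have hnu2 : (A.det / mu) ^ 2 = mu := by
    rw [div_pow, hsq]
    field_simp
  have hnu0 : A.det / mu ≠ 0 := div_ne_zero hA0 hmu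
  have hnu3 : (A.det / mu) ^ 3 = A.det := by
    rw [pow_succ, hnu2]
    field_simp
  set nu := A.det / mu with hnu
  have hR : (nu⁻¹ • A).transpose * M * (nu⁻¹ • A) = M := by
    rw [Matrix.transpose_smul, Matrix.smul_mul, Matrix.smul_mul, Matrix.mul_smul, hAM, smul_smul, smul_smul]
    have h1 : nu⁻¹ * nu⁻¹ * mu = 1 := by
      rw [← hnu2]
      field_simp
    rw [h1, one_smul]
  have hdR : (nu⁻¹ • A).det = 1 := by
    rw [Matrix.det_smul, Fintype.card_fin, inv_pow, hnu3, inv_mul_cancel₀ hA0]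
  obtain ⟨v, hv, hRv⟩ := symA_fix hp2 hd hR hdR
  refine ⟨nu, v, hnu0, hnu2, hv, ?_, ?_⟩
  · rw [Matrix.smul_mulVec, hAv] at hRv
    rw [← hRv, smul_smul, mul_inv_cancel₀ hnu0, one_smul]
    rw [hRv]
  · rw [← hdetA, hnu3]

end Pool.Agent.FewConics
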