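import Mathlib

/-! PIECE SymArith: asymptotics. -/

set_option autoImplicit false

open Finset

namespace Pool.Agent.FewConics

/-- Elementary. Let `C = 20 (k + 1)`, suppose `n > C p / log p`. Then `m - 2 ≤ k (p + 1) log p / (C p) ≤ (log p) / 10`, so `m ≤ 2 + log p / 10`,
`2 ^ m ≤ 4 * p ^ (1/10)`, `m ^ 4 ≤ (log p) ^ 4`, and the right side is `o (p)`. -/
theorem sym_arith (k : ℕ) : ∃ (C : ℝ) (p₀ : ℕ), ∀ p : ℕ, p₀ ≤ p → ∀ n m : ℕ, 0 < m →
    n * (m - 2) ≤ k * (p + 1) → (p : ℝ) ≤ 300 * 2 ^ m * m ^ 4 * √p + 2 * k * m →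
    (n : ℝ) ≤ C * p / Real.log p := by
  have ht : Filter.Tendsto (fun x : ℝ => 300 * Real.exp 2 * (5 / 2) ^ 4 *
      ((2 / 5 * x) ^ 4 * Real.exp (-(2 / 5 * x))) + 2 * k * (x ^ 1 * Real.exp (-x)))
      Filter.atTop (nhds (300 * Real.exp 2 * (5 / 2) ^ 4 * 0 + 2 * k * 0)) := by
    refine Filter.Tendsto.add ?_ ?_
    · refine Filter.Tendsto.const_mul _ ?_
      exact (Real.tendsto_pow_mul_exp_neg_atTop_nhds_zero 4).comp
        (Filter.tendsto_id.const_mul_atTop (by norm_num : (0 : ℝ) < 2 / 5))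
    · exact Filter.Tendsto.const_mul _ (Real.tendsto_pow_mul_exp_neg_atTop_nhds_zero 1)
  rw [mul_zero, mul_zero, add_zero] at ht
  have hev := ht.eventually (gt_mem_nhds (zero_lt_one))
  obtain ⟨X0, hX0⟩ := Filter.eventually_atTop.1 hev
  refine ⟨20 * (k + 1), ⌈Real.exp (max X0 3)⌉₊, fun p hp n m hm h1 h2 => ?_⟩
  have hp' : Real.exp (max X0 3) ≤ p := (Nat.le_ceil _).trans (by exact_mod_cast hp)
  have hp0 : (0 : ℝ) < p := (Real.exp_pos _).trans_le hp'
  set x := Real.log p with hx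
  have hpx : (p : ℝ) = Real.exp x := (Real.exp_log hp0).symm
  have hxX : max X0 3 ≤ x := by
    rw [hx, Real.le_log_iff_exp_le hp0]
    exact hp'
  have hx3 : 3 ≤ x := (le_max_right _ _).trans hxX
  have hlt := hX0 x ((le_max_left _ _).trans hxX)
  have hx0 : 0 < x := by linarith
  have hp1 : (1 : ℝ) ≤ p := by
    rw [hpx]
    exact Real.one_le_exp hx0.le
  by_contra hc
  have hn : 20 * ((k : ℝ) + 1) * p / x < n := not_le.1 hc
  have hk0 : (0 : ℝ) ≤ k := Nat.cast_nonneg k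
  -- bound for `m`
  have hm1 : ((m - 2 : ℕ) : ℝ) ≤ x / 10 := by
    have h3 : (n : ℝ) * ((m - 2 : ℕ) : ℝ) ≤ k * (p + 1) := by exact_mod_cast h1
    have h4 : 20 * ((k : ℝ) + 1) * p / x * ((m - 2 : ℕ) : ℝ) ≤ 2 * k * p := by
      have h5 : 20 * ((k : ℝ) + 1) * p / x * ((m - 2 : ℕ) : ℝ) ≤ n * ((m - 2 : ℕ) : ℝ) :=
        mul_le_mul_of_nonneg_right hn.le (Nat.cast_nonneg _)
      nlinarith
    have h6 : 20 * ((k : ℝ) + 1) * p * ((m - 2 : ℕ) : ℝ) ≤ 2 * k * p * x := by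
      have h7 := mul_le_mul_of_nonneg_right h4 hx0.le
      have h8 : 20 * ((k : ℝ) + 1) * p / x * ((m - 2 : ℕ) : ℝ) * x =
          20 * ((k : ℝ) + 1) * p * ((m - 2 : ℕ) : ℝ) := by
        field_simp
      rw [h8] at h7
      exact h7
    have h9 : 0 < ((k : ℝ) + 1) * p := by positivity
    have h10 : 20 * ((m - 2 : ℕ) : ℝ) * (((k : ℝ) + 1) * p) ≤ 2 * x * (((k : ℝ) + 1) * p) := by
      have h11 : 0 ≤ 2 * p * x := by positivity
      nlinarith
    have h12 := le_of_mul_le_mul_right h10 h9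
    linarith
  have hm2 : (m : ℝ) ≤ 2 + x / 10 := by
    have h3 : (m : ℝ) ≤ ((m - 2 : ℕ) : ℝ) + 2 := by
      have : m ≤ (m - 2) + 2 := by omega
      exact_mod_cast this
    linarith
  have hmx : (m : ℝ) ≤ x := by linarith
  have h2m : (2 : ℝ) ^ m ≤ Real.exp (2 + x / 10) := by
    have h3 : (2 : ℝ) ≤ Real.exp 1 := by
      have := Real.add_one_le_exp (1 : ℝ)
      linarith
    calc (2 : ℝ) ^ m ≤ (Real.exp 1) ^ m := pow_le_pow_left₀ (by norm_num) h3 m
      _ = Real.exp m := by rw [← Real.exp_nat_mul, mul_one]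
      _ ≤ Real.exp (2 + x / 10) := Real.exp_le_exp.2 hm2
  have hsq : √(p : ℝ) = Real.exp (x / 2) := by
    rw [hpx, Real.sqrt_eq_iff_mul_self_eq (Real.exp_pos _).le (Real.exp_pos _).le, ← Real.exp_add]
    congr 1
    ring
  have hm4 : (m : ℝ) ^ 4 ≤ x ^ 4 := pow_le_pow_left₀ (Nat.cast_nonneg _) hmx 4
  have hR : 300 * (2 : ℝ) ^ m * m ^ 4 * √(p : ℝ) + 2 * k * m ≤
      300 * Real.exp (2 + x / 10) * x ^ 4 * Real.exp (x / 2) + 2 * k * x := by
    rw [hsq]
    have h3 : 300 * (2 : ℝ) ^ m * m ^ 4 ≤ 300 * Real.exp (2 + x / 10) * x ^ 4 := by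
      refine mul_le_mul ?_ hm4 (by positivity) (by positivity)
      linarith
    have h4 := mul_le_mul_of_nonneg_right h3 (Real.exp_pos (x / 2)).le
    have h5 : 2 * (k : ℝ) * m ≤ 2 * k * x := mul_le_mul_of_nonneg_left hmx (by positivity)
    linarith
  have hfin : 300 * Real.exp (2 + x / 10) * x ^ 4 * Real.exp (x / 2) + 2 * k * x < Real.exp x := by
    have h3 := mul_lt_mul_of_pos_right hlt (Real.exp_pos x)
    rw [one_mul] at h3
    refine lt_of_eq_of_lt ?_ h3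
    have e1 : Real.exp (-(2 / 5 * x)) * Real.exp x = Real.exp (x / 10) * Real.exp (x / 2) := by
      rw [← Real.exp_add, ← Real.exp_add]
      congr 1
      ring
    have e2 : Real.exp (-x) * Real.exp x = 1 := by
      rw [← Real.exp_add, neg_add_cancel, Real.exp_zero]
    have e3 : Real.exp (2 + x / 10) = Real.exp 2 * Real.exp (x / 10) := Real.exp_add _ _
    rw [e3]
    calc 300 * (Real.exp 2 * Real.exp (x / 10)) * x ^ 4 * Real.exp (x / 2) + 2 * k * x
        = 300 * Real.exp 2 * x ^ 4 * (Real.exp (x / 10) * Real.exp (x / 2)) + 2 * k * x * 1 := by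
          ring
      _ = 300 * Real.exp 2 * x ^ 4 * (Real.exp (-(2 / 5 * x)) * Real.exp x) +
          2 * k * x * (Real.exp (-x) * Real.exp x) := by rw [e1, e2]
      _ = _ := by ring
  rw [← hpx] at hfin
  linarith

end Pool.Agent.FewConics
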