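import Pool.Agent.Lib_MP_6b99df_fc.Rigid
import Pool.Agent.Lib_MP_6b99df_fc.PencilB

/-! PIECE SymB: orbits of collineations which preserve a conic. -/

set_option autoImplicit false

open scoped LinearAlgebra.Projectivization

namespace Pool.Agent.FewConics

variable {p : ℕ} [Fact p.Prime]

/-- `bf M v (g x) = nu * bf M v x`: `nu * bf M v (g x) = bf M (g v) (g x) = mu * bf M v x = nu ^ 2 * bf M v x`. -/
theorem lin_map (hp2 : p ≠ 2) {M : Matrix (Fin 3) (Fin 3) (ZMod p)} (hM : M.IsSymm)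
    (g : (Fin 3 → ZMod p) ≃ₗ[ZMod p] (Fin 3 → ZMod p)) (mu nu : ZMod p) (hnu : nu ≠ 0)
    (hmu : nu ^ 2 = mu) (h : ∀ x, qf M (g x) = mu * qf M x) (v : Fin 3 → ZMod p)
    (hv : g v = nu • v) (x : Fin 3 → ZMod p) : bf M v (g x) = nu * bf M v x := by
  have h1 := bf_map hp2 hM (g : (Fin 3 → ZMod p) →ₗ[ZMod p] (Fin 3 → ZMod p)) mu h v x
  have h2 : bf M (g v) (g x) = nu * bf M v (g x) := by
    rw [hv]
    unfold bf
    rw [smul_dotProduct, smul_eq_mul]
  have h3 : nu * bf M v (g x) = nu * (nu * bf M v x) := by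
    rw [← h2]
    refine h1.trans ?_
    rw [← hmu]
    ring
  exact mul_left_cancel₀ hnu h3

/-- A point `x` with `bf M v x ≠ 0`, different from `v`, is not fixed by a power of `g` which is not the identity on the points. If
`g ^ j x = t x` then `t = nu ^ j` (`lin_map`); `R = nu ^ (-j) g ^ j` is an isometry of determinant `1` which fixes `x` and `v`, so it is the
identity (`rigid`). (`g ^ j` acts on the points by `(g ^ j) • mk x = mk ((g ^ j) x)`, `Projectivization.smul_mk`.) -/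
theorem not_fixed (hp2 : p ≠ 2) {M : Matrix (Fin 3) (Fin 3) (ZMod p)} (hM : M.IsSymm)
    (hd : M.det ≠ 0) (g : (Fin 3 → ZMod p) ≃ₗ[ZMod p] (Fin 3 → ZMod p)) (mu nu : ZMod p)
    (hnu : nu ≠ 0) (hmu : nu ^ 2 = mu) (h : ∀ x, qf M (g x) = mu * qf M x) (v : Fin 3 → ZMod p)
    (hv0 : v ≠ 0) (hv : g v = nu • v)
    (hdet : LinearMap.det (g : (Fin 3 → ZMod p) →ₗ[ZMod p] (Fin 3 → ZMod p)) = nu ^ 3)
    (P : PG p) (hP : bf M v P.rep ≠ 0) (hPv : crossProduct v P.rep ≠ 0) (j : ℕ)
    (hj : ∃ Q : PG p, g ^ j • Q ≠ Q) : g ^ j • P ≠ P := by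
  intro hfix
  have hstep : ∀ (i : ℕ) (x : Fin 3 → ZMod p), (g ^ (i + 1)) x = g ((g ^ i) x) := by
    intro i x
    rw [pow_succ']
    rfl
  have hgv : ∀ i : ℕ, (g ^ i) v = nu ^ i • v := by
    intro i
    induction i with
    | zero =>
      rw [pow_zero, pow_zero, one_smul]
      rfl
    | succ i ih => rw [hstep, ih, map_smul, hv, smul_smul, pow_succ]
  have hgq : ∀ (i : ℕ) (x : Fin 3 → ZMod p), qf M ((g ^ i) x) = mu ^ i * qf M x := by
    intro i x
    induction i with
    | zero =>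
      rw [pow_zero, pow_zero, one_mul]
      rfl
    | succ i ih =>
      rw [hstep, h, ih, pow_succ]
      ring
  have hgl : ∀ (i : ℕ) (x : Fin 3 → ZMod p), bf M v ((g ^ i) x) = nu ^ i * bf M v x := by
    intro i x
    induction i with
    | zero =>
      rw [pow_zero, pow_zero, one_mul]
      rfl
    | succ i ih =>
      rw [hstep, lin_map hp2 hM g mu nu hnu hmu h v hv, ih, pow_succ]
      ring
  have hnj : nu ^ j ≠ 0 := pow_ne_zero _ hnu
  -- the eigenvalue
  have h1 : g ^ j • Projectivization.mk (ZMod p) P.rep P.rep_nonzero =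
      Projectivization.mk (ZMod p) P.rep P.rep_nonzero := by
    rw [Projectivization.mk_rep]
    exact hfix
  rw [Projectivization.smul_mk, Projectivization.mk_eq_mk_iff'] at h1
  obtain ⟨t, ht⟩ := h1
  have ht' : (g ^ j) P.rep = t • P.rep := ht.symm
  have htn : t = nu ^ j := by
    have h2 := hgl j P.rep
    rw [ht'] at h2
    have h3 : bf M v (t • P.rep) = t * bf M v P.rep := by
      unfold bf
      rw [Matrix.mulVec_smul, dotProduct_smul, smul_eq_mul]
    rw [h3] at h2
    exact mul_right_cancel₀ hP h2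
  rw [htn] at ht'
  -- the isometry
  let R : (Fin 3 → ZMod p) →ₗ[ZMod p] (Fin 3 → ZMod p) :=
    (nu ^ j)⁻¹ • ((g ^ j : (Fin 3 → ZMod p) ≃ₗ[ZMod p] (Fin 3 → ZMod p)) :
      (Fin 3 → ZMod p) →ₗ[ZMod p] (Fin 3 → ZMod p))
  have hRx : ∀ x, R x = (nu ^ j)⁻¹ • (g ^ j) x := fun x => rfl
  have hRq : ∀ x, qf M (R x) = qf M x := by
    intro x
    rw [hRx, qf_smul, hgq, ← hmu, ← pow_mul, inv_pow, ← pow_mul, mul_comm j 2, ← mul_assoc,
      inv_mul_cancel₀ (pow_ne_zero _ hnu), one_mul]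
  have hRd : LinearMap.det R = 1 := by
    change LinearMap.det ((nu ^ j)⁻¹ • ((g ^ j : (Fin 3 → ZMod p) ≃ₗ[ZMod p] (Fin 3 → ZMod p)) :
      (Fin 3 → ZMod p) →ₗ[ZMod p] (Fin 3 → ZMod p))) = 1
    rw [LinearMap.det_smul, ← LinearEquiv.coe_det, map_pow, Units.val_pow_eq_pow_val, LinearEquiv.coe_det,
      hdet, Module.finrank_fin_fun, inv_pow, ← pow_mul, ← pow_mul, mul_comm j 3,
      inv_mul_cancel₀ (pow_ne_zero _ hnu)]
  have hRv : R v = v := by
    rw [hRx, hgv, smul_smul, inv_mul_cancel₀ hnj, one_smul]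
  have hRP : R P.rep = P.rep := by
    rw [hRx, ht', smul_smul, inv_mul_cancel₀ hnj, one_smul]
  have hid := rigid hp2 hM hd R hRq hRd v P.rep hPv hRv hRP
  obtain ⟨Q, hQ⟩ := hj
  apply hQ
  have h2 : g ^ j • Projectivization.mk (ZMod p) Q.rep Q.rep_nonzero =
      Projectivization.mk (ZMod p) Q.rep Q.rep_nonzero := by
    rw [Projectivization.smul_mk, Projectivization.mk_eq_mk_iff']
    refine ⟨nu ^ j, ?_⟩
    have h3 := hid Q.rep
    rw [hRx] at h3
    change nu ^ j • Q.rep = (g ^ j) Q.rep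
    conv_lhs => rw [← h3]
    rw [smul_smul, mul_inv_cancel₀ hnj, one_smul]
  rwa [Projectivization.mk_rep] at h2

/-- Fix any point `e`: every point is on one of the at most `p + 1` lines through `e` (`exists_line`, `lines_le`), and each of them has at
most `k` points of `B`. -/
theorem card_le (k : ℕ) (B : Set (PG p)) (hk : AtMost k B) : B.ncard ≤ k * (p + 1) := by
  classical
  have : Finite (PG p) := inferInstance
  have hne : (Pi.single 0 1 : Fin 3 → ZMod p) ≠ 0 := by
    intro h0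
    have h1 := congrFun h0 0
    rw [Pi.single_eq_same] at h1
    exact one_ne_zero h1
  let e : PG p := Projectivization.mk (ZMod p) _ hne
  let L : Finset (PG p) := (Set.toFinite {l : PG p | Projectivization.orthogonal l e}).toFinset
  have hL : L.card ≤ p + 1 := by
    rw [← Set.ncard_eq_toFinset_card _ (Set.toFinite {l : PG p | Projectivization.orthogonal l e})]
    exact lines_le e
  let T : PG p → Finset (PG p) := fun l =>
    (Set.toFinite {P | P ∈ B ∧ Projectivization.orthogonal l P}).toFinset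
  have hT : ∀ l, (T l).card ≤ k := by
    intro l
    rw [← Set.ncard_eq_toFinset_card _ (Set.toFinite {P | P ∈ B ∧ Projectivization.orthogonal l P})]
    exact hk l
  have hsub : B ⊆ (L.biUnion T : Finset (PG p)) := by
    intro P hP
    obtain ⟨l, hl1, hl2⟩ := exists_line P e
    rw [Finset.mem_coe, Finset.mem_biUnion]
    exact ⟨l, (Set.Finite.mem_toFinset _).2 hl2, (Set.Finite.mem_toFinset _).2 ⟨hP, hl1⟩⟩
  calc B.ncard ≤ ((L.biUnion T : Finset (PG p)) : Set (PG p)).ncard :=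
        Set.ncard_le_ncard hsub (Set.toFinite _)
    _ = (L.biUnion T).card := Set.ncard_coe_finset _
    _ ≤ ∑ l ∈ L, (T l).card := Finset.card_biUnion_le
    _ ≤ ∑ l ∈ L, k := Finset.sum_le_sum fun l _ => hT l
    _ = k * L.card := by rw [Finset.sum_const, smul_eq_mul, mul_comm]
    _ ≤ k * (p + 1) := Nat.mul_le_mul_left _ hL

end Pool.Agent.FewConics
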