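import Pool.Agent.Lib_MP_6b99df_fc.Values
import Pool.Agent.Lib_MP_6b99df_fc.Red

/-! PIECE SymC: a bounded blocking set is not invariant under such collineations of large order. -/

set_option autoImplicit false

open scoped LinearAlgebra.Projectivization

namespace Pool.Agent.FewConics

variable {p : ℕ} [Fact p.Prime]

/-- the matrix of the form `(bf M v x) ^ 2` is `Matrix.vecMulVec w w`, `w = M v` -/
theorem square_form {M : Matrix (Fin 3) (Fin 3) (ZMod p)} (hM : M.IsSymm) (hd : M.det ≠ 0)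
    (v : Fin 3 → ZMod p) (hv : v ≠ 0) : ∃ W : Matrix (Fin 3) (Fin 3) (ZMod p), W.IsSymm ∧
      W ≠ 0 ∧ (∀ x, qf W x = bf M v x ^ 2) ∧ ∀ c : ZMod p, M - c • W ≠ 0 := by
  classical
  have hs : ∀ i j, M i j = M j i := fun i j => hM.apply j i
  set w : Fin 3 → ZMod p := Matrix.mulVec M v with hw
  have hw0 : w ≠ 0 := by
    intro h
    exact hv (Matrix.eq_zero_of_mulVec_eq_zero hd h)
  have hbf : ∀ x, bf M v x = dotProduct w x := by
    intro x
    rw [bf, hw]
    simp only [dotProduct, Matrix.mulVec, Fin.sum_univ_three]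
    rw [hs 1 0, hs 2 0, hs 2 1]
    ring
  refine ⟨Matrix.vecMulVec w w, ?_, ?_, ?_, ?_⟩
  · ext i j
    rw [Matrix.transpose_apply, Matrix.vecMulVec_apply, Matrix.vecMulVec_apply, mul_comm]
  · intro h
    apply hw0
    funext i
    have h1 := congrFun (congrFun h i) i
    rw [Matrix.vecMulVec_apply, Matrix.zero_apply] at h1
    rcases mul_eq_zero.1 h1 with h2 | h2 <;> exact h2
  · intro x
    rw [hbf, qf]
    simp only [dotProduct, Matrix.mulVec, Fin.sum_univ_three, Matrix.vecMulVec_apply]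
    ring
  · intro c h
    apply hd
    rw [sub_eq_zero.1 h, Matrix.det_fin_three]
    simp only [Matrix.smul_apply, Matrix.vecMulVec_apply, smul_eq_mul]
    ring

/-- `bounded_family` for the `#S + 1` conics `M - c • W`, `c ∈ S`, and `W` (`square_form`): they contain `B`, so the right side is `0`.
`m = #S + 1`, `n * (m - 2) ≤ k (p + 1)` by `values_le`. -/
theorem sym_bound (hp2 : p ≠ 2) {M : Matrix (Fin 3) (Fin 3) (ZMod p)} (hM : M.IsSymm)
    (hd : M.det ≠ 0) (g : (Fin 3 → ZMod p) ≃ₗ[ZMod p] (Fin 3 → ZMod p)) (mu : ZMod p)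
    (h : ∀ x, qf M (g x) = mu * qf M x) (k : ℕ) (B : Set (PG p)) (hB : Blocking B)
    (hk : AtMost k B) (hgB : ∀ P ∈ B, g • P ∈ B) (n : ℕ)
    (hn : ∀ j, 0 < j → j < n → ∃ Q : PG p, g ^ j • Q ≠ Q) :
    ∃ m : ℕ, 0 < m ∧ n * (m - 2) ≤ k * (p + 1) ∧
      (p : ℝ) ≤ 300 * 2 ^ m * m ^ 4 * √p + 2 * k * m := by
  classical
  obtain ⟨nu, v, hnu, hmu, hv0, hv, hdet⟩ := fix_vector hp2 hM hd g mu h
  obtain ⟨S, hS1, hS2⟩ := values_le hp2 hM hd g mu nu hnu hmu h v hv0 hv hdet k B hk hgB n hn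
  obtain ⟨W, hW, hW0, hWq, hMW⟩ := square_form hM hd v hv0
  refine ⟨S.card + 1, Nat.succ_pos _, ?_, ?_⟩
  · have h1 : S.card + 1 - 2 = S.card - 1 := by omega
    rw [h1]
    exact hS1
  have hb := bounded_family hp2 k B hB hk (S.card + 1) (Nat.succ_pos _)
    (fun i => Fin.cases W (fun j => M - ((S.equivFin.symm j : S) : ZMod p) • W) i)
    (fun i => by
      refine Fin.cases ?_ (fun j => ?_) i
      · exact hW
      · exact hM.sub (hW.smul _))
    (fun i => by
      refine Fin.cases ?_ (fun j => ?_) i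
      · exact hW0
      · exact hMW _)
  have h0 : {P | P ∈ B ∧ ∀ i : Fin (S.card + 1), ¬ OnConic
      ((fun i => Fin.cases W (fun j => M - ((S.equivFin.symm j : S) : ZMod p) • W) i :
        Fin (S.card + 1) → Matrix (Fin 3) (Fin 3) (ZMod p)) i) P} = ∅ := by
    refine Set.eq_empty_of_forall_notMem fun P hP => ?_
    obtain ⟨hPB, hPi⟩ := hP
    by_cases hb0 : bf M v P.rep = 0
    · refine hPi 0 ?_
      change qf W P.rep = 0
      rw [hWq, hb0]
      ring
    · obtain ⟨c, hc, hcq⟩ := hS2 P hPB hb0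
      refine hPi (Fin.succ (S.equivFin ⟨c, hc⟩)) ?_
      change qf (M - ((S.equivFin.symm (S.equivFin ⟨c, hc⟩) : S) : ZMod p) • W) P.rep = 0
      rw [Equiv.symm_apply_apply]
      have h1 : qf (M - c • W) P.rep = qf M P.rep - c * qf W P.rep := by
        simp only [qf, Matrix.sub_mulVec, Matrix.smul_mulVec, dotProduct_sub, dotProduct_smul,
          smul_eq_mul]
      rw [h1, hWq, hcq]
      ring
  rw [h0, Set.ncard_empty, Nat.cast_zero] at hb
  linarith

end Pool.Agent.FewConics
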