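import Pool.Agent.Lib_MP_6b99df_fc.Alg

/-! PIECE Tang: points of nondegenerate conics on lines. -/

set_option autoImplicit false

open scoped LinearAlgebra.Projectivization

namespace Pool.Agent.FewConics

variable {p : ℕ} [Fact p.Prime]

private theorem Tang_cross {a b w : Fin 3 → ZMod p} (hw : w ≠ 0) (ha : crossProduct a w = 0)
    (hb : crossProduct b w = 0) : crossProduct a b = 0 := by
  rw [cross_apply] at ha hb ⊢
  have a0 : a 1 * w 2 - a 2 * w 1 = 0 := congrFun ha 0
  have a1 : a 2 * w 0 - a 0 * w 2 = 0 := congrFun ha 1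
  have a2 : a 0 * w 1 - a 1 * w 0 = 0 := congrFun ha 2
  have b0 : b 1 * w 2 - b 2 * w 1 = 0 := congrFun hb 0
  have b1 : b 2 * w 0 - b 0 * w 2 = 0 := congrFun hb 1
  have b2 : b 0 * w 1 - b 1 * w 0 = 0 := congrFun hb 2
  have key : ∀ i : Fin 3, w i ≠ 0 → a 1 * b 2 - a 2 * b 1 = 0 ∧ a 2 * b 0 - a 0 * b 2 = 0 ∧
      a 0 * b 1 - a 1 * b 0 = 0 := by
    intro i hi
    have h2 : w i * w i ≠ 0 := mul_ne_zero hi hi
    fin_cases i
    · simp only [Fin.zero_eta] at h2
      refine ⟨?_, ?_, ?_⟩ <;> apply mul_left_cancel₀ h2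
      · linear_combination (-(b 2 * w 0)) * a2 + (-(b 1 * w 0)) * a1 + (a 0 * w 2) * b2 + (a 0 * w 1) * b1
      · linear_combination (b 0 * w 0) * a1 - (a 0 * w 0) * b1
      · linear_combination (b 0 * w 0) * a2 - (a 0 * w 0) * b2
    · simp only [Fin.mk_one] at h2
      refine ⟨?_, ?_, ?_⟩ <;> apply mul_left_cancel₀ h2
      · linear_combination (b 1 * w 1) * a0 - (a 1 * w 1) * b0
      · linear_combination (-(b 0 * w 1)) * a0 + (-(b 2 * w 1)) * a2 + (a 1 * w 0) * b0 + (a 1 * w 2) * b2
      · linear_combination (b 1 * w 1) * a2 - (a 1 * w 1) * b2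
    · simp only [Fin.reduceFinMk] at h2
      refine ⟨?_, ?_, ?_⟩ <;> apply mul_left_cancel₀ h2
      · linear_combination (b 2 * w 2) * a0 - (a 2 * w 2) * b0
      · linear_combination (b 2 * w 2) * a1 - (a 2 * w 2) * b1
      · linear_combination (-(b 1 * w 2)) * a1 + (-(b 0 * w 2)) * a0 + (a 2 * w 1) * b1 + (a 2 * w 0) * b0
  obtain ⟨i, hi⟩ := Function.ne_iff.1 hw
  obtain ⟨k0, k1, k2⟩ := key i hi
  rw [k0, k1, k2]
  ext j
  fin_cases j <;> rfl

/-- If `bf N u v = 0` then `N u` and `N v` are orthogonal to `u` and `v`, so both are multiples of `crossProduct u v`, and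
a nontrivial combination of `u` and `v` is in the kernel of `N`. -/
theorem bf_ne {N : Matrix (Fin 3) (Fin 3) (ZMod p)} (hN : N.IsSymm) (hd : N.det ≠ 0)
    (u v : Fin 3 → ZMod p) (hu : qf N u = 0) (hv : qf N v = 0) (h : crossProduct u v ≠ 0) :
    bf N u v ≠ 0 := by
  intro h0
  have h0' : bf N v u = 0 := by rw [bf_comm hN, h0]
  have e1 : crossProduct (Matrix.mulVec N u) (crossProduct u v) = 0 := by
    rw [cross_cross_eq_smul_sub_smul']
    have h1 : dotProduct (Matrix.mulVec N u) v = 0 := by rw [dotProduct_comm]; exact h0'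
    have h2 : dotProduct u (Matrix.mulVec N u) = 0 := hu
    simp [h1, h2]
  have e2 : crossProduct (Matrix.mulVec N v) (crossProduct u v) = 0 := by
    rw [cross_cross_eq_smul_sub_smul']
    have h1 : dotProduct (Matrix.mulVec N v) v = 0 := by rw [dotProduct_comm]; exact hv
    have h2 : dotProduct u (Matrix.mulVec N v) = 0 := h0
    simp [h1, h2]
  have e3 := Tang_cross h e1 e2
  have e4 : Matrix.mulVec N.transpose (crossProduct (Matrix.mulVec N u) (Matrix.mulVec N v)) =
      N.det • crossProduct u v := by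
    rw [cross_apply, cross_apply, Matrix.det_fin_three]
    ext j
    fin_cases j <;>
      simp [Matrix.mulVec, dotProduct, Fin.sum_univ_three, Matrix.transpose_apply] <;> ring
  rw [e3, Matrix.mulVec_zero] at e4
  exact h ((smul_eq_zero.1 e4.symm).resolve_left hd)

/-- three different points of a nondegenerate conic are independent: `w = c u + d v`, `qf N w = 2 c d bf N u v` -/
theorem indep3 (hp2 : p ≠ 2) {N : Matrix (Fin 3) (Fin 3) (ZMod p)} (hN : N.IsSymm)
    (hd : N.det ≠ 0) (u v w : Fin 3 → ZMod p) (hu : qf N u = 0) (hv : qf N v = 0) (hw : qf N w = 0)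
    (huv : crossProduct u v ≠ 0) (huw : crossProduct u w ≠ 0) (hvw : crossProduct v w ≠ 0) :
    dotProduct (crossProduct u v) w ≠ 0 := by
  intro h0
  have h2 : (2 : ZMod p) ≠ 0 := by
    intro h
    have h1 : p ∣ 2 := (ZMod.natCast_eq_zero_iff 2 p).1 (by exact_mod_cast h)
    exact hp2 ((Nat.prime_dvd_prime_iff_eq Fact.out Nat.prime_two).1 h1)
  have key : N.det * dotProduct (crossProduct u v) w ^ 2 =
      qf N u * qf N v * qf N w + 2 * bf N u v * bf N u w * bf N v w - qf N u * bf N v w ^ 2 -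
        qf N v * bf N u w ^ 2 - qf N w * bf N u v ^ 2 := by
    have h1 : N 1 0 = N 0 1 := hN.apply 0 1
    have h2 : N 2 0 = N 0 2 := hN.apply 0 2
    have h3 : N 2 1 = N 1 2 := hN.apply 1 2
    rw [cross_apply, Matrix.det_fin_three]
    simp only [qf, bf, dotProduct, Matrix.mulVec, Fin.sum_univ_three,
      Matrix.cons_val_zero, Matrix.cons_val_one, Matrix.cons_val, h1, h2, h3]
    ring
  rw [h0, hu, hv, hw] at key
  have h3 : 2 * bf N u v * bf N u w * bf N v w = 0 := by linear_combination -key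
  have n1 := bf_ne hN hd u v hu hv huv
  have n2 := bf_ne hN hd u w hu hw huw
  have n3 := bf_ne hN hd v w hv hw hvw
  exact mul_ne_zero (mul_ne_zero (mul_ne_zero h2 n1) n2) n3 h3

/-- a line has at most two points of a nondegenerate conic (`indep3`) -/
theorem line_le (hp2 : p ≠ 2) {M : Matrix (Fin 3) (Fin 3) (ZMod p)} (hM : M.IsSymm)
    (hd : M.det ≠ 0) (l : PG p) :
    {P : PG p | OnConic M P ∧ Projectivization.orthogonal l P}.ncard ≤ 2 := by
  by_contra hc
  push Not at hc
  have hfin : {P : PG p | OnConic M P ∧ Projectivization.orthogonal l P}.Finite := Set.toFinite _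
  obtain ⟨P, Q, R, ⟨hP, lP⟩, ⟨hQ, lQ⟩, ⟨hR, lR⟩, hPQ, hPR, hQR⟩ := (Set.two_lt_ncard_iff hfin).1 hc
  have horth : ∀ S : PG p, Projectivization.orthogonal l S → dotProduct l.rep S.rep = 0 := by
    intro S hS
    rw [← l.mk_rep, ← S.mk_rep] at hS
    exact (Projectivization.orthogonal_mk _ _).1 hS
  have hcr : ∀ S T : PG p, S ≠ T → crossProduct S.rep T.rep ≠ 0 := by
    intro S T hST h0
    apply hST
    rw [← S.mk_rep, ← T.mk_rep]
    exact (Projectivization.mk_eq_mk_iff_crossProduct_eq_zero _ _).2 h0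
  have hdet := indep3 hp2 hM hd P.rep Q.rep R.rep hP hQ hR (hcr P Q hPQ) (hcr P R hPR) (hcr Q R hQR)
  have key : ∀ a u v w : Fin 3 → ZMod p, dotProduct (crossProduct u v) w • a =
      dotProduct a u • crossProduct v w + dotProduct a v • crossProduct w u +
        dotProduct a w • crossProduct u v := by
    intro a u v w
    rw [cross_apply, cross_apply, cross_apply]
    ext j
    fin_cases j <;> simp [dotProduct, Fin.sum_univ_three] <;> ring
  have h1 := key l.rep P.rep Q.rep R.rep
  rw [horth P lP, horth Q lQ, horth R lR] at h1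
  simp only [zero_smul, add_zero] at h1
  exact l.rep_nonzero ((smul_eq_zero.1 h1).resolve_left hdet)

end Pool.Agent.FewConics
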