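import Pool.Agent.Lib_MP_6b99df_fc.Alg

/-! Collineations of order `p`. -/

set_option autoImplicit false

open scoped LinearAlgebra.Projectivization

namespace Pool.Agent.FewConics

variable {p : ℕ} [Fact p.Prime]

/-- a linear bijection which fixes all points is a scalar -/
theorem scalar_of_trivial (g : (Fin 3 → ZMod p) ≃ₗ[ZMod p] (Fin 3 → ZMod p))
    (h : ∀ Q : PG p, g • Q = Q) : ∃ s : ZMod p, s ≠ 0 ∧ ∀ x, g x = s • x := by
  obtain ⟨a, ha⟩ := (g : (Fin 3 → ZMod p) →ₗ[ZMod p]
    (Fin 3 → ZMod p)).exists_eq_smul_id_of_forall_notLinearIndependent fun v => by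
      intro hli
      by_cases hv : v = 0
      · exact (LinearIndependent.ne_zero (0 : Fin 2) hli) (by simpa using hv)
      · have h1 := h (Projectivization.mk (ZMod p) v hv)
        rw [Projectivization.smul_mk, Projectivization.mk_eq_mk_iff'] at h1
        obtain ⟨c, hc⟩ := h1
        rw [LinearIndependent.pair_iff' hv] at hli
        exact hli c hc
  have h2 : ∀ x, g x = a • x := fun x => by
    have := LinearMap.congr_fun ha x
    simpa using this
  refine ⟨a, ?_, h2⟩
  rintro rfl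
  have h3 : g (fun _ => 1) = 0 := by rw [h2, zero_smul]
  have h4 := (LinearEquiv.map_eq_zero_iff g).1 h3
  exact one_ne_zero (congrFun h4 0)

theorem trivial_of_scalar (g : (Fin 3 → ZMod p) ≃ₗ[ZMod p] (Fin 3 → ZMod p)) (s : ZMod p)
    (h : ∀ x, g x = s • x) (Q : PG p) : g • Q = Q := by
  induction Q using Projectivization.ind with
  | _ v hv =>
    rw [Projectivization.smul_mk, Projectivization.mk_eq_mk_iff']
    exact ⟨s, (h v).symm⟩

/-- a collineation with trivial `p`-th power is a scalar times a unipotent map -/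
theorem unip (g : (Fin 3 → ZMod p) ≃ₗ[ZMod p] (Fin 3 → ZMod p))
    (h : ∀ Q : PG p, g ^ p • Q = Q) : ∃ (s : ZMod p)
      (N : (Fin 3 → ZMod p) →ₗ[ZMod p] (Fin 3 → ZMod p)), s ≠ 0 ∧
      (∀ x, g x = s • (x + N x)) ∧ ∀ x, N (N (N x)) = 0 := by
  have hp : p.Prime := Fact.out
  obtain ⟨s, hs, hg⟩ := scalar_of_trivial (g ^ p) h
  set G : Module.End (ZMod p) (Fin 3 → ZMod p) :=
    (g : (Fin 3 → ZMod p) →ₗ[ZMod p] (Fin 3 → ZMod p)) with hG
  have hpow : ∀ n : ℕ, ∀ x, (G ^ n) x = (g ^ n) x := by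
    intro n
    induction n with
    | zero => intro x; rfl
    | succ n ih =>
      intro x
      rw [pow_succ', pow_succ', Module.End.mul_apply, ih]
      rfl
  have : CharP (Module.End (ZMod p) (Fin 3 → ZMod p)) p :=
    charP_of_injective_algebraMap
      (algebraMap (ZMod p) (Module.End (ZMod p) (Fin 3 → ZMod p))).injective p
  set N : Module.End (ZMod p) (Fin 3 → ZMod p) := s⁻¹ • G - 1 with hN
  have hNp : N ^ p = 0 := by
    rw [hN, sub_pow_char_of_commute _ (Commute.one_right _), one_pow, smul_pow]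
    have h1 : (s⁻¹ : ZMod p) ^ p = s⁻¹ := ZMod.pow_card _
    rw [h1, sub_eq_zero]
    refine LinearMap.ext fun x => ?_
    rw [LinearMap.smul_apply, hpow, hg, smul_smul, inv_mul_cancel₀ hs, one_smul]
    rfl
  have hnil : IsNilpotent N := ⟨p, hNp⟩
  have h3 : N ^ 3 = 0 := by
    have h4 := hnil.charpoly_eq_X_pow_finrank
    have h5 := LinearMap.aeval_self_charpoly N
    rw [h4, map_pow, Polynomial.aeval_X, Module.finrank_fin_fun] at h5
    exact h5
  refine ⟨s, N, hs, fun x => ?_, fun x => ?_⟩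
  · rw [hN, LinearMap.sub_apply, LinearMap.smul_apply, Module.End.one_apply]
    rw [add_sub_cancel, smul_smul, mul_inv_cancel₀ hs, one_smul]
    rfl
  · have h6 := LinearMap.congr_fun h3 x
    rw [pow_succ, pow_two, Module.End.mul_apply, Module.End.mul_apply] at h6
    exact h6

/-- A regular unipotent map preserves a nondegenerate form: `b ^ 2 - 2 a c` in the basis `x`, `N x - N² x / 2`, `N² x`. -/
theorem form_of_unip (hp2 : p ≠ 2) (N : (Fin 3 → ZMod p) →ₗ[ZMod p] (Fin 3 → ZMod p))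
    (h3 : ∀ x, N (N (N x)) = 0) (y : Fin 3 → ZMod p) (hy : N (N y) ≠ 0) :
    ∃ M : Matrix (Fin 3) (Fin 3) (ZMod p), M.IsSymm ∧ M.det ≠ 0 ∧
      ∀ x, qf M (x + N x) = qf M x := by
  have h2 : (2 : ZMod p) ≠ 0 := by
    intro h
    have hp : p.Prime := Fact.out
    have h1 : ((2 : ℕ) : ZMod p) = 0 := by exact_mod_cast h
    rw [ZMod.natCast_eq_zero_iff] at h1
    exact hp2 ((Nat.prime_dvd_prime_iff_eq hp Nat.prime_two).1 h1)
  set e : Fin 3 → Fin 3 → ZMod p := ![y, N y - (2 : ZMod p)⁻¹ • N (N y), N (N y)] with he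
  have e0 : e 0 = y := rfl
  have e1 : e 1 = N y - (2 : ZMod p)⁻¹ • N (N y) := rfl
  have e2 : e 2 = N (N y) := rfl
  have n0 : N (e 0) = e 1 + (2 : ZMod p)⁻¹ • e 2 := by
    rw [e0, e1, e2, sub_add_cancel]
  have n1 : N (e 1) = e 2 := by
    rw [e1, e2, map_sub, map_smul, h3, smul_zero, sub_zero]
  have n2 : N (e 2) = 0 := by rw [e2, h3]
  have hli : LinearIndependent (ZMod p) e := by
    rw [Fintype.linearIndependent_iff]
    intro c hc
    rw [Fin.sum_univ_three] at hc
    have k1 := congrArg N hc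
    rw [map_add, map_add, map_smul, map_smul, map_smul, n0, n1, n2, smul_zero, add_zero,
      map_zero] at k1
    have k2 := congrArg N k1
    rw [map_add, map_smul, map_smul, map_add, map_smul, n1, n2, smul_zero, smul_zero, add_zero,
      add_zero, map_zero] at k2
    have hc0 : c 0 = 0 := (smul_eq_zero.1 k2).resolve_right hy
    rw [hc0, zero_smul, zero_add] at k1
    have hc1 : c 1 = 0 := (smul_eq_zero.1 k1).resolve_right hy
    rw [hc0, hc1, zero_smul, zero_smul, zero_add, zero_add] at hc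
    have hc2 : c 2 = 0 := (smul_eq_zero.1 hc).resolve_right hy
    intro i
    fin_cases i
    · exact hc0
    · exact hc1
    · exact hc2
  -- the matrix with the columns `e`
  set P : Matrix (Fin 3) (Fin 3) (ZMod p) := (Matrix.of e).transpose with hP
  have hPdet : P.det ≠ 0 := by
    rw [hP, Matrix.det_transpose]
    intro h0
    obtain ⟨v, hv0, hv⟩ := Matrix.exists_vecMul_eq_zero_iff.2 h0
    rw [Fintype.linearIndependent_iff] at hli
    apply hv0
    funext i
    refine hli v ?_ i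
    rw [Matrix.vecMul_eq_sum] at hv
    exact hv
  have hPu : IsUnit P.det := isUnit_iff_ne_zero.2 hPdet
  have hPe : ∀ c : Fin 3 → ZMod p, Matrix.mulVec P c = c 0 • e 0 + c 1 • e 1 + c 2 • e 2 := by
    intro c
    funext i
    rw [hP]
    simp only [Matrix.mulVec, dotProduct, Fin.sum_univ_three, Matrix.transpose_apply,
      Matrix.of_apply, Pi.add_apply, Pi.smul_apply, smul_eq_mul]
    ring
  set Q0 : Matrix (Fin 3) (Fin 3) (ZMod p) := !![0, 0, -1; 0, 1, 0; -1, 0, 0] with hQ0
  have hQs : Q0.IsSymm := by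
    ext i j
    fin_cases i <;> fin_cases j <;> simp [hQ0]
  have hQd : Q0.det ≠ 0 := by
    rw [hQ0, Matrix.det_fin_three]
    simp
  have hQq : ∀ c : Fin 3 → ZMod p, dotProduct c (Matrix.mulVec Q0 c) = c 1 ^ 2 - 2 * c 0 * c 2 := by
    intro c
    rw [hQ0]
    simp only [Matrix.mulVec, dotProduct, Fin.sum_univ_three, Matrix.of_apply, Matrix.cons_val',
      Matrix.cons_val_zero, Matrix.cons_val_one, Matrix.cons_val]
    ring
  refine ⟨(P⁻¹).transpose * Q0 * P⁻¹, ?_, ?_, fun x => ?_⟩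
  · rw [Matrix.IsSymm, Matrix.transpose_mul, Matrix.transpose_mul, Matrix.transpose_transpose,
      hQs.eq, Matrix.mul_assoc]
  · rw [Matrix.det_mul, Matrix.det_mul, Matrix.det_transpose]
    have h4 : (P⁻¹).det ≠ 0 := left_ne_zero_of_mul_eq_one (Matrix.det_nonsing_inv_mul_det P hPu)
    exact mul_ne_zero (mul_ne_zero h4 hQd) h4
  · have hq : ∀ c : Fin 3 → ZMod p, qf ((P⁻¹).transpose * Q0 * P⁻¹) (Matrix.mulVec P c) =
        c 1 ^ 2 - 2 * c 0 * c 2 := by
      intro c
      rw [qf, Matrix.mulVec_mulVec, Matrix.mul_assoc _ P⁻¹ P, Matrix.nonsing_inv_mul P hPu,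
        Matrix.mul_one, ← Matrix.mulVec_mulVec, Matrix.dotProduct_mulVec,
        Matrix.vecMul_transpose, Matrix.mulVec_mulVec, Matrix.nonsing_inv_mul P hPu,
        Matrix.one_mulVec, hQq]
    obtain ⟨c, rfl⟩ : ∃ c, Matrix.mulVec P c = x :=
      ⟨Matrix.mulVec P⁻¹ x, by rw [Matrix.mulVec_mulVec, Matrix.mul_nonsing_inv P hPu,
        Matrix.one_mulVec]⟩
    have h5 : Matrix.mulVec P c + N (Matrix.mulVec P c) =
        Matrix.mulVec P ![c 0, c 0 + c 1, (2 : ZMod p)⁻¹ * c 0 + c 1 + c 2] := by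
      rw [hPe, hPe, map_add, map_add, map_smul, map_smul, map_smul, n0, n1, n2]
      simp only [Matrix.cons_val_zero, Matrix.cons_val_one, Matrix.cons_val]
      module
    rw [h5, hq, hq]
    simp only [Matrix.cons_val_zero, Matrix.cons_val_one, Matrix.cons_val]
    have h6 : (2 : ZMod p) * (2 : ZMod p)⁻¹ = 1 := mul_inv_cancel₀ h2
    linear_combination (-(c 0) ^ 2) * h6

end Pool.Agent.FewConics
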