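import Pool.Agent.Lib_MP_6b99df_fc.UnipA
import Pool.Agent.Lib_MP_6b99df_fc.SymC
import Pool.Agent.Lib_MP_6b99df_fc.SymArith

/-! No collineation of order `p` leaves a bounded blocking set invariant. -/

set_option autoImplicit false

open scoped LinearAlgebra.Projectivization

namespace Pool.Agent.FewConics

/-- collineations which preserve a conic -/
theorem large_order (k : ℕ) : ∃ (C : ℝ) (p₀ : ℕ), ∀ (p : ℕ) [Fact p.Prime], p₀ ≤ p →
      ∀ B : Set (PG p), Blocking B → AtMost k B →
      ∀ g : (Fin 3 → ZMod p) ≃ₗ[ZMod p] (Fin 3 → ZMod p), (∀ P ∈ B, g • P ∈ B) →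
      (∃ (M : Matrix (Fin 3) (Fin 3) (ZMod p)) (mu : ZMod p), M.IsSymm ∧ M.det ≠ 0 ∧
        ∀ x, qf M (g x) = mu * qf M x) →
      ∀ n : ℕ, (∀ j, 0 < j → j < n → ∃ P : PG p, g ^ j • P ≠ P) →
        (n : ℝ) ≤ C * p / Real.log p := by
  obtain ⟨C, p₀, h⟩ := sym_arith k
  refine ⟨C, max p₀ 3, fun p _ hp B hB hk g hgB hM n hn => ?_⟩
  obtain ⟨M, mu, hM, hd, hmu⟩ := hM
  have hp2 : p ≠ 2 := by
    have := (le_max_right p₀ 3).trans hp
    omega
  obtain ⟨m, hm, h1, h2⟩ := sym_bound hp2 hM hd g mu hmu k B hB hk hgB n hn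
  exact h p ((le_max_left _ _).trans hp) n m hm h1 h2

variable {p : ℕ} [Fact p.Prime]

/-- the orbits of an elation are on lines -/
theorem elation_orbit (g : (Fin 3 → ZMod p) ≃ₗ[ZMod p] (Fin 3 → ZMod p)) (s : ZMod p)
    (N : (Fin 3 → ZMod p) →ₗ[ZMod p] (Fin 3 → ZMod p))
    (hg : ∀ x, g x = s • (x + N x)) (h2 : ∀ x, N (N x) = 0) (P : PG p) (hP : N P.rep ≠ 0) :
    ∃ l : PG p, p ≤ {Q | (∃ j : ℕ, Q = g ^ j • P) ∧ Projectivization.orthogonal l Q}.ncard := by
  classical
  set x := P.rep with hx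
  set w := N x with hw
  have hli : ∀ a b : ZMod p, a • x + b • w = 0 → a = 0 ∧ b = 0 := by
    intro a b h
    have h3 := congrArg N h
    rw [map_add, map_smul, map_smul, map_zero, ← hw, hw, h2, smul_zero, add_zero, ← hw] at h3
    have ha : a = 0 := (smul_eq_zero.1 h3).resolve_right hP
    rw [ha, zero_smul, zero_add] at h
    exact ⟨ha, (smul_eq_zero.1 h).resolve_right hP⟩
  have hcr : crossProduct x w ≠ 0 := by
    rw [crossProduct_ne_zero_iff_linearIndependent, LinearIndependent.pair_iff]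
    exact hli
  have hpow : ∀ j : ℕ, (g ^ j) x = s ^ j • (x + (j : ZMod p) • w) := by
    intro j
    induction j with
    | zero => simp
    | succ j ih =>
      rw [pow_succ']
      change g ((g ^ j) x) = _
      rw [ih, map_smul, hg, map_add, map_smul, ← hw, hw, h2, smul_zero, add_zero, smul_smul,
        ← pow_succ, Nat.cast_succ, add_smul, one_smul, add_assoc, add_comm ((j : ZMod p) • N x)]
  have hne : ∀ j : ℕ, x + (j : ZMod p) • w ≠ 0 := by
    intro j h
    have h4 := hli 1 j (by rw [one_smul]; exact h)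
    exact one_ne_zero h4.1
  have hmk : ∀ j : ℕ, g ^ j • P = Projectivization.mk (ZMod p) (x + (j : ZMod p) • w) (hne j) := by
    intro j
    conv_lhs => rw [← Projectivization.mk_rep P]
    rw [Projectivization.smul_mk, Projectivization.mk_eq_mk_iff']
    exact ⟨s ^ j, (hpow j).symm⟩
  refine ⟨Projectivization.mk (ZMod p) (crossProduct x w) hcr, ?_⟩
  have hinj : Set.InjOn (fun j : ℕ => g ^ j • P) (Finset.range p : Set ℕ) := by
    intro i hi j hj hij
    simp only [hmk] at hij
    rw [Projectivization.mk_eq_mk_iff'] at hij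
    obtain ⟨c, hc⟩ := hij
    have h4 := hli (c - 1) (c * j - i) (by
      have h5 : c • (x + (j : ZMod p) • w) - (x + (i : ZMod p) • w) = 0 := by
        rw [hc, sub_self]
      rw [← h5]
      module)
    have hc1 : c = 1 := sub_eq_zero.1 h4.1
    rw [hc1, one_mul] at h4
    have h6 := sub_eq_zero.1 h4.2
    rw [ZMod.natCast_eq_natCast_iff'] at h6
    rw [Finset.coe_range, Set.mem_Iio] at hi hj
    rw [Nat.mod_eq_of_lt hi, Nat.mod_eq_of_lt hj] at h6
    exact h6.symm
  have hcard : ((Finset.range p).image fun j : ℕ => g ^ j • P).card = p := by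
    rw [Finset.card_image_of_injOn hinj, Finset.card_range]
  calc p = ((Finset.range p).image fun j : ℕ => g ^ j • P).card := hcard.symm
    _ = (((Finset.range p).image fun j : ℕ => g ^ j • P : Finset (PG p)) : Set (PG p)).ncard :=
        (Set.ncard_coe_finset _).symm
    _ ≤ _ := by
        refine Set.ncard_le_ncard ?_ (Set.toFinite _)
        intro Q hQ
        rw [Finset.coe_image, Set.mem_image] at hQ
        obtain ⟨j, -, rfl⟩ := hQ
        refine ⟨⟨j, rfl⟩, ?_⟩
        simp only [hmk]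
        rw [Projectivization.orthogonal_mk, dotProduct_comm, add_dotProduct, smul_dotProduct,
          dot_self_cross, dot_cross_self, smul_zero, add_zero]

theorem no_order_p (k : ℕ) : ∃ p₀ : ℕ, ∀ (p : ℕ) [Fact p.Prime], p₀ ≤ p →
      ∀ B : Set (PG p), Blocking B → AtMost k B →
      ∀ g : (Fin 3 → ZMod p) ≃ₗ[ZMod p] (Fin 3 → ZMod p), (∀ P ∈ B, g • P ∈ B) →
      (∀ Q : PG p, g ^ p • Q = Q) → ∀ Q : PG p, g • Q = Q := by
  obtain ⟨C, p₁, h1⟩ := large_order k
  refine ⟨max (max p₁ (2 * k + 1)) (max 1440000 (⌈Real.exp C⌉₊ + 1)), ?_⟩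
  intro p _ hp B hB hk g hgB hgp
  have hp' : p.Prime := Fact.out
  have hp1 : p₁ ≤ p := (le_max_left _ _).trans ((le_max_left _ _).trans hp)
  have hpk : 2 * k + 1 ≤ p := (le_max_right _ _).trans ((le_max_left _ _).trans hp)
  have hpl : 1440000 ≤ p := (le_max_left _ _).trans ((le_max_right _ _).trans hp)
  have hpe : ⌈Real.exp C⌉₊ + 1 ≤ p := (le_max_right _ _).trans ((le_max_right _ _).trans hp)
  have hp2 : p ≠ 2 := by omega
  obtain ⟨s, N, hs, hg, h3⟩ := unip g hgp
  by_contra hc
  push Not at hc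
  by_cases hN2 : ∀ x, N (N x) = 0
  · -- elation
    have hN0 : ∃ x, N x ≠ 0 := by
      by_contra h0
      push Not at h0
      obtain ⟨Q, hQ⟩ := hc
      exact hQ (trivial_of_scalar g s (fun x => by rw [hg, h0, add_zero]) Q)
    have hex : ∃ P ∈ B, N P.rep ≠ 0 := by
      by_contra h0
      push Not at h0
      obtain ⟨x, hx⟩ := hN0
      -- a coordinate of `N`
      obtain ⟨i, hi⟩ : ∃ i, N x i ≠ 0 := by
        by_contra h4
        push Not at h4
        exact hx (funext h4)
      set w : Fin 3 → ZMod p := (LinearMap.toMatrix' N) i with hw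
      have hNw : ∀ z, N z i = dotProduct w z := by
        intro z
        have h5 : N z = Matrix.mulVec (LinearMap.toMatrix' N) z := by
          rw [← Matrix.toLin'_apply, Matrix.toLin'_toMatrix']
        rw [h5]
        rfl
      have hw0 : w ≠ 0 := by
        intro h6
        rw [hNw, h6, zero_dotProduct] at hi
        exact hi rfl
      have hline : ∀ P ∈ B, Projectivization.orthogonal (Projectivization.mk (ZMod p) w hw0) P := by
        intro P hP
        rw [← Projectivization.mk_rep P, Projectivization.orthogonal_mk, ← hNw, h0 P hP]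
        rfl
      have hBk : B.ncard ≤ k := by
        have h7 := hk (Projectivization.mk (ZMod p) w hw0)
        have h8 : {P | P ∈ B ∧ Projectivization.orthogonal (Projectivization.mk (ZMod p) w hw0) P} =
            B := by
          ext P
          exact ⟨fun h => h.1, fun h => ⟨h, hline P h⟩⟩
        rw [h8] at h7
        exact h7
      have h9 := family_bound hp2 B hB 1 one_pos (fun _ => 1)
        (fun _ => Matrix.transpose_one) (fun _ => by rw [Matrix.det_one]; exact one_ne_zero)
      have h10 : {P | P ∈ B ∧ ∀ _ : Fin 1, ¬ OnConic (1 : Matrix (Fin 3) (Fin 3) (ZMod p)) P}.ncard ≤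
          B.ncard := Set.ncard_le_ncard (fun P hP => hP.1) (Set.toFinite _)
      have h11 : (p : ℝ) - 600 * √p ≤ k := by
        have h12 : (({P | P ∈ B ∧ ∀ _ : Fin 1,
          ¬ OnConic (1 : Matrix (Fin 3) (Fin 3) (ZMod p)) P}.ncard : ℕ) : ℝ) ≤ k := by
          exact_mod_cast h10.trans hBk
        have h13 := h9.trans h12
        norm_num at h13
        linarith
      have h14 : (1200 : ℝ) ≤ √p := by
        rw [Real.le_sqrt (by norm_num) (Nat.cast_nonneg _)]
        norm_num
        exact_mod_cast hpl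
      have h15 : √(p : ℝ) * √p = p := Real.mul_self_sqrt (Nat.cast_nonneg _)
      have h16 : (2 : ℝ) * k + 1 ≤ p := by exact_mod_cast hpk
      nlinarith
    obtain ⟨P, hPB, hP⟩ := hex
    obtain ⟨l, hl⟩ := elation_orbit g s N hg hN2 P hP
    have horb : ∀ j : ℕ, g ^ j • P ∈ B := by
      intro j
      induction j with
      | zero => simpa using hPB
      | succ j ih =>
        rw [pow_succ', mul_smul]
        exact hgB _ ih
    have h4 := hk l
    have h5 : {Q | (∃ j : ℕ, Q = g ^ j • P) ∧ Projectivization.orthogonal l Q}.ncard ≤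
        {P | P ∈ B ∧ Projectivization.orthogonal l P}.ncard := by
      refine Set.ncard_le_ncard ?_ (Set.toFinite _)
      rintro Q ⟨⟨j, rfl⟩, h6⟩
      exact ⟨horb j, h6⟩
    omega
  · push Not at hN2
    obtain ⟨y, hy⟩ := hN2
    obtain ⟨M, hM, hd, hq⟩ := form_of_unip hp2 N h3 y hy
    have h4 := h1 p hp1 B hB hk g hgB ⟨M, s ^ 2, hM, hd, fun x => by
      rw [hg, qf_smul, hq]⟩ p (fun j hj0 hjp => by
      by_contra h5
      push Not at h5
      obtain ⟨Q, hQ⟩ := hc
      apply hQ
      have h6 : MulAction.toPermHom ((Fin 3 → ZMod p) ≃ₗ[ZMod p] (Fin 3 → ZMod p)) (PG p) g ^ j =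
          1 := by
        rw [← map_pow]
        exact Equiv.ext h5
      have h7 : MulAction.toPermHom ((Fin 3 → ZMod p) ≃ₗ[ZMod p] (Fin 3 → ZMod p)) (PG p) g ^ p =
          1 := by
        rw [← map_pow]
        exact Equiv.ext hgp
      have h8 : Nat.gcd j p = 1 := ((Nat.Prime.coprime_iff_not_dvd hp').2
        (Nat.not_dvd_of_pos_of_lt hj0 hjp)).symm
      have h9 := pow_gcd_eq_one.2 ⟨h6, h7⟩
      rw [h8, pow_one] at h9
      exact Equiv.ext_iff.1 h9 Q)
    have hp0 : (0 : ℝ) < p := by exact_mod_cast hp'.pos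
    have hlog : C < Real.log p := by
      rw [Real.lt_log_iff_exp_lt hp0]
      refine (Nat.le_ceil _).trans_lt ?_
      exact_mod_cast hpe
    have hlog0 : 0 < Real.log p := Real.log_pos (by exact_mod_cast hp'.one_lt)
    rw [le_div_iff₀ hlog0, mul_comm C] at h4
    exact absurd (le_of_mul_le_mul_left h4 hp0) (not_le.2 hlog)

end Pool.Agent.FewConics
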