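import Pool.Agent.Lib_MP_6b99df_fc.SymB

/-! PIECE Values: few invariant conics. -/

set_option autoImplicit false

open scoped LinearAlgebra.Projectivization

namespace Pool.Agent.FewConics

variable {p : ℕ} [Fact p.Prime]

private theorem values_bf_smul (M : Matrix (Fin 3) (Fin 3) (ZMod p)) (v x : Fin 3 → ZMod p) (a : ZMod p) :
    bf M v (a • x) = a * bf M v x := by
  unfold bf
  rw [Matrix.mulVec_smul, dotProduct_smul, smul_eq_mul]

/-- the function -/
private noncomputable def valuesC (M : Matrix (Fin 3) (Fin 3) (ZMod p)) (v : Fin 3 → ZMod p) (P : PG p) : ZMod p :=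
  qf M P.rep / bf M v P.rep ^ 2

private theorem values_mk (M : Matrix (Fin 3) (Fin 3) (ZMod p)) (v x : Fin 3 → ZMod p) (hx : x ≠ 0)
    (hb : bf M v x ≠ 0) : bf M v (Projectivization.mk (ZMod p) x hx).rep ≠ 0 ∧
      valuesC M v (Projectivization.mk (ZMod p) x hx) = qf M x / bf M v x ^ 2 := by
  obtain ⟨a, ha⟩ := Projectivization.exists_smul_eq_mk_rep (ZMod p) x hx
  have ha' : (a : ZMod p) • x = (Projectivization.mk (ZMod p) x hx).rep := ha
  have ha0 : (a : ZMod p) ≠ 0 := a.ne_zero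
  unfold valuesC
  rw [← ha', values_bf_smul, qf_smul]
  refine ⟨mul_ne_zero ha0 hb, ?_⟩
  rw [mul_pow]
  exact mul_div_mul_left _ _ (pow_ne_zero 2 ha0)

private theorem values_step (hp2 : p ≠ 2) {M : Matrix (Fin 3) (Fin 3) (ZMod p)} (hM : M.IsSymm)
    (g : (Fin 3 → ZMod p) ≃ₗ[ZMod p] (Fin 3 → ZMod p)) (mu nu : ZMod p)
    (hnu : nu ≠ 0) (hmu : nu ^ 2 = mu) (h : ∀ x, qf M (g x) = mu * qf M x) (v : Fin 3 → ZMod p)
    (hv : g v = nu • v) (P : PG p) (hP : bf M v P.rep ≠ 0) :
    bf M v (g • P).rep ≠ 0 ∧ valuesC M v (g • P) = valuesC M v P := by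
  have h1 : g • P = Projectivization.mk (ZMod p) (g P.rep) (by
      intro h0
      exact P.rep_nonzero (g.map_eq_zero_iff.1 h0)) := by
    conv_lhs => rw [← P.mk_rep]
    rw [Projectivization.smul_mk]
    rfl
  have h2 : bf M v (g P.rep) = nu * bf M v P.rep := lin_map hp2 hM g mu nu hnu hmu h v hv P.rep
  have h3 := values_mk M v (g P.rep) (by
      intro h0
      exact P.rep_nonzero (g.map_eq_zero_iff.1 h0)) (by
      rw [h2]
      exact mul_ne_zero hnu hP)
  rw [h1]
  refine ⟨h3.1, h3.2.trans ?_⟩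
  rw [h2, h, mul_pow, hmu]
  unfold valuesC
  refine mul_div_mul_left _ _ ?_
  rw [← hmu]
  exact pow_ne_zero 2 hnu

private theorem values_pow (hp2 : p ≠ 2) {M : Matrix (Fin 3) (Fin 3) (ZMod p)} (hM : M.IsSymm)
    (g : (Fin 3 → ZMod p) ≃ₗ[ZMod p] (Fin 3 → ZMod p)) (mu nu : ZMod p)
    (hnu : nu ≠ 0) (hmu : nu ^ 2 = mu) (h : ∀ x, qf M (g x) = mu * qf M x) (v : Fin 3 → ZMod p)
    (hv : g v = nu • v) (P : PG p) (hP : bf M v P.rep ≠ 0) (j : ℕ) :
    bf M v (g ^ j • P).rep ≠ 0 ∧ valuesC M v (g ^ j • P) = valuesC M v P := by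
  induction j with
  | zero =>
    rw [pow_zero, one_smul]
    exact ⟨hP, rfl⟩
  | succ j ih =>
    rw [pow_succ', mul_smul]
    have h1 := values_step hp2 hM g mu nu hnu hmu h v hv _ ih.1
    exact ⟨h1.1, h1.2.trans ih.2⟩

/-- The values `c (P) = qf M P.rep / (bf M v P.rep) ^ 2` for `P ∈ B`, `bf M v P.rep ≠ 0`: the function is invariant under `g`, and each
value except possibly `c (mk v)` is taken at least `n` times on `B` (the points `g ^ j • P`, `j < n`, are different: `not_fixed`), so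
`n * (#S - 1) ≤ #B ≤ k (p + 1)`. -/
theorem values_le (hp2 : p ≠ 2) {M : Matrix (Fin 3) (Fin 3) (ZMod p)} (hM : M.IsSymm)
    (hd : M.det ≠ 0) (g : (Fin 3 → ZMod p) ≃ₗ[ZMod p] (Fin 3 → ZMod p)) (mu nu : ZMod p)
    (hnu : nu ≠ 0) (hmu : nu ^ 2 = mu) (h : ∀ x, qf M (g x) = mu * qf M x) (v : Fin 3 → ZMod p)
    (hv0 : v ≠ 0) (hv : g v = nu • v)
    (hdet : LinearMap.det (g : (Fin 3 → ZMod p) →ₗ[ZMod p] (Fin 3 → ZMod p)) = nu ^ 3)
    (k : ℕ) (B : Set (PG p)) (hk : AtMost k B) (hgB : ∀ P ∈ B, g • P ∈ B) (n : ℕ)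
    (hn : ∀ j, 0 < j → j < n → ∃ Q : PG p, g ^ j • Q ≠ Q) :
    ∃ S : Finset (ZMod p), n * (S.card - 1) ≤ k * (p + 1) ∧
      ∀ P ∈ B, bf M v P.rep ≠ 0 → ∃ c ∈ S, qf M P.rep = c * bf M v P.rep ^ 2 := by
  classical
  have hfin : ∀ S : Set (PG p), S.Finite := fun S => Set.toFinite S
  set B' : Finset (PG p) := (hfin {P | P ∈ B ∧ bf M v P.rep ≠ 0}).toFinset with hB'
  have hmem : ∀ P, P ∈ B' ↔ P ∈ B ∧ bf M v P.rep ≠ 0 := fun P => by
    rw [hB', Set.Finite.mem_toFinset]
    exact Iff.rfl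
  refine ⟨B'.image (valuesC M v), ?_, ?_⟩
  · set S := B'.image (valuesC M v) with hS
    set s0 : ZMod p := qf M v / qf M v ^ 2 with hs0
    -- points for the values
    have hex : ∀ s : ZMod p, ∃ P : PG p, s ∈ S.erase s0 →
        (P ∈ B ∧ bf M v P.rep ≠ 0 ∧ valuesC M v P = s ∧ crossProduct v P.rep ≠ 0) := by
      intro s
      by_cases hs : s ∈ S.erase s0
      · obtain ⟨hne, hs'⟩ := Finset.mem_erase.1 hs
        obtain ⟨P, hP, hPs⟩ := Finset.mem_image.1 hs'
        obtain ⟨hPB, hPb⟩ := (hmem P).1 hP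
        refine ⟨P, fun _ => ⟨hPB, hPb, hPs, ?_⟩⟩
        intro hc
        have h1 := (Projectivization.mk_eq_mk_iff_crossProduct_eq_zero hv0 P.rep_nonzero).2 hc
        rw [Projectivization.mk_rep] at h1
        have hbv : bf M v v ≠ 0 := by
          obtain ⟨a, ha⟩ := Projectivization.exists_smul_eq_mk_rep (ZMod p) v hv0
          have ha' : (a : ZMod p) • v = (Projectivization.mk (ZMod p) v hv0).rep := ha
          rw [← h1, ← ha', values_bf_smul] at hPb
          exact right_ne_zero_of_mul hPb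
        apply hne
        rw [← hPs, ← h1, (values_mk M v v hv0 hbv).2]
        rfl
      · obtain ⟨Q⟩ : Nonempty (PG p) := ⟨Projectivization.mk (ZMod p) v hv0⟩
        exact ⟨Q, fun h => absurd h hs⟩
    choose P hP using hex
    have hinj : Set.InjOn (fun x : ZMod p × ℕ => g ^ x.2 • P x.1)
        (((S.erase s0) ×ˢ Finset.range n : Finset (ZMod p × ℕ)) : Set (ZMod p × ℕ)) := by
      rintro ⟨s, i⟩ hx ⟨s', i'⟩ hx' heq
      rw [Finset.mem_coe, Finset.mem_product] at hx hx'
      have heq' : g ^ i • P s = g ^ i' • P s' := heq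
      obtain ⟨hs, hi⟩ := hx
      obtain ⟨hs', hi'⟩ := hx'
      rw [Finset.mem_range] at hi hi'
      obtain ⟨hB1, hb1, hc1, hx1⟩ := hP s hs
      obtain ⟨hB2, hb2, hc2, hx2⟩ := hP s' hs'
      have e1 := (values_pow hp2 hM g mu nu hnu hmu h v hv (P s) hb1 i).2
      have e2 := (values_pow hp2 hM g mu nu hnu hmu h v hv (P s') hb2 i').2
      rw [heq', e2, hc1, hc2] at e1
      subst e1
      have key : ∀ a b : ℕ, a < b → b < n → g ^ a • P s' = g ^ b • P s' → False := by
        intro a b hab hbn hab'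
        obtain ⟨d, rfl⟩ := Nat.exists_eq_add_of_lt hab
        have h1 : g ^ (d + 1) • P s' = P s' := by
          rw [add_assoc, pow_add, mul_smul] at hab'
          exact (smul_left_cancel _ hab').symm
        exact not_fixed hp2 hM hd g mu nu hnu hmu h v hv0 hv hdet (P s') hb2 hx2 (d + 1)
          (hn (d + 1) (by omega) (by omega)) h1
      have hii : i = i' := by
        rcases lt_trichotomy i i' with hlt | heq | hlt
        · exact (key i i' hlt hi' heq').elim
        · exact heq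
        · exact (key i' i hlt hi heq'.symm).elim
      rw [hii]
    have hmap : Set.MapsTo (fun x : ZMod p × ℕ => g ^ x.2 • P x.1)
        (((S.erase s0) ×ˢ Finset.range n : Finset (ZMod p × ℕ)) : Set (ZMod p × ℕ))
        ((hfin B).toFinset : Set (PG p)) := by
      rintro ⟨s, i⟩ hx
      rw [Finset.mem_coe, Finset.mem_product] at hx
      rw [Finset.mem_coe, Set.Finite.mem_toFinset]
      obtain ⟨hB1, -, -, -⟩ := hP s hx.1
      have hall : ∀ j : ℕ, g ^ j • P s ∈ B := by
        intro j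
        induction j with
        | zero =>
          rw [pow_zero, one_smul]
          exact hB1
        | succ j ih =>
          rw [pow_succ', mul_smul]
          exact hgB _ ih
      exact hall i
    have h1 := Finset.card_le_card_of_injOn _ hmap hinj
    rw [Finset.card_product, Finset.card_range, ← Set.ncard_eq_toFinset_card] at h1
    have h2 : S.card - 1 ≤ (S.erase s0).card := Finset.pred_card_le_card_erase
    calc n * (S.card - 1) ≤ n * (S.erase s0).card := Nat.mul_le_mul_left _ h2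
      _ = (S.erase s0).card * n := Nat.mul_comm _ _
      _ ≤ B.ncard := h1
      _ ≤ k * (p + 1) := card_le k B hk
  · intro P hPB hPb
    refine ⟨valuesC M v P, Finset.mem_image_of_mem _ ((hmem P).2 ⟨hPB, hPb⟩), ?_⟩
    unfold valuesC
    rw [div_mul_cancel₀ _ (pow_ne_zero 2 hPb)]

end Pool.Agent.FewConics
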