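import Mathlib
import Pool.Agent.Lib_MP_009b3c_lc.SD

/-! PIECE Weil: Weil's bound for polynomials which are not a constant times a square. -/

set_option autoImplicit false

open Polynomial

namespace Pool.Agent.FewConics

private theorem roots_aux (p : ℕ) [Fact p.Prime] (f : (ZMod p)[X]) (hf : f ≠ 0) :
    (Finset.univ.filter fun x : ZMod p => f.eval x = 0).card ≤ f.natDegree := by
  have h1 : (Finset.univ.filter fun x : ZMod p => f.eval x = 0) ⊆ f.roots.toFinset := by
    intro x hx
    rw [Finset.mem_filter] at hx
    rw [Multiset.mem_toFinset, Polynomial.mem_roots hf]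
    exact hx.2
  exact (Finset.card_le_card h1).trans ((Multiset.toFinset_card_le _).trans (card_roots' f))

private theorem weil_aux (p : ℕ) [Fact p.Prime] (hp2 : p ≠ 2) (n : ℕ) :
    ∀ G : (ZMod p)[X], G.natDegree = n → (∀ (c : ZMod p) (h : (ZMod p)[X]), G ≠ C c * h ^ 2) →
    |∑ x : ZMod p, (quadraticChar (ZMod p) (G.eval x) : ℝ)| ≤ 41 * (n : ℝ) * √p := by
  induction n using Nat.strong_induction_on with
  | _ n ih =>
    intro G hn hG
    have hp1 : (1 : ℝ) ≤ √p := by
      rw [Real.one_le_sqrt]
      exact_mod_cast (Fact.out : p.Prime).one_lt.le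
    have hG0 : G ≠ 0 := by
      have := hG 0 1
      simpa using this
    by_cases hsq : Squarefree G
    · have hsep : G.Separable := PerfectField.separable_iff_squarefree.mpr hsq
      have hdeg : 1 ≤ G.natDegree := by
        by_contra hc
        have h0 : G.natDegree = 0 := by omega
        have h1 := Polynomial.eq_C_of_natDegree_eq_zero h0
        exact hG (G.coeff 0) 1 (by rw [one_pow, mul_one]; exact h1)
      have h2 := Pool.Agent.SkewGem.weil_bound p hp2 G hsep hdeg
      rw [hn] at h2
      refine h2.trans ?_
      have h3 : (0 : ℝ) ≤ (n : ℝ) * √p := by positivity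
      nlinarith
    · rw [Squarefree] at hsq
      push Not at hsq
      obtain ⟨d, ⟨G', hG'⟩, hd⟩ := hsq
      have hd0 : d ≠ 0 := by
        rintro rfl
        apply hG0
        rw [hG']
        simp
      have hG'0 : G' ≠ 0 := by
        rintro rfl
        apply hG0
        rw [hG']
        simp
      have hdd : 1 ≤ d.natDegree := by
        by_contra hc
        have h0 : d.natDegree = 0 := by omega
        apply hd
        rw [Polynomial.eq_C_of_natDegree_eq_zero h0, Polynomial.isUnit_C, isUnit_iff_ne_zero]
        intro h1
        apply hd0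
        rw [Polynomial.eq_C_of_natDegree_eq_zero h0, h1, C_0]
      have hdeg : n = 2 * d.natDegree + G'.natDegree := by
        rw [← hn, hG', Polynomial.natDegree_mul (mul_ne_zero hd0 hd0) hG'0,
          Polynomial.natDegree_mul hd0 hd0]
        ring
      have hns : ∀ (c : ZMod p) (h : (ZMod p)[X]), G' ≠ C c * h ^ 2 := by
        intro c h hc
        apply hG c (d * h)
        rw [hG', hc]
        ring
      have h1 := ih G'.natDegree (by omega) G' rfl hns
      have h2 : ∑ x : ZMod p, (quadraticChar (ZMod p) (G.eval x) : ℝ) =
          ∑ x : ZMod p, (quadraticChar (ZMod p) (G'.eval x) : ℝ) -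
            ∑ x : ZMod p, (if d.eval x = 0 then (quadraticChar (ZMod p) (G'.eval x) : ℝ) else 0) := by
        rw [← Finset.sum_sub_distrib]
        apply Finset.sum_congr rfl
        intro x _
        have h3 : G.eval x = d.eval x ^ 2 * G'.eval x := by
          rw [hG', Polynomial.eval_mul, Polynomial.eval_mul]
          ring
        rw [h3]
        by_cases hx : d.eval x = 0
        · rw [if_pos hx, hx]
          simp
        · rw [if_neg hx, map_mul, quadraticChar_sq_one' hx, one_mul, sub_zero]
      have h4 : |∑ x : ZMod p, (if d.eval x = 0 then (quadraticChar (ZMod p) (G'.eval x) : ℝ) else 0)|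
          ≤ d.natDegree := by
        refine (Finset.abs_sum_le_sum_abs _ _).trans ?_
        have h5 : ∀ x : ZMod p,
            |(if d.eval x = 0 then (quadraticChar (ZMod p) (G'.eval x) : ℝ) else 0)| ≤
              if d.eval x = 0 then (1 : ℝ) else 0 := by
          intro x
          by_cases hx : d.eval x = 0
          · rw [if_pos hx, if_pos hx]
            by_cases h6 : G'.eval x = 0
            · rw [h6]; simp
            · rcases quadraticChar_dichotomy h6 with h7 | h7 <;> rw [h7] <;> simp
          · rw [if_neg hx, if_neg hx, abs_zero]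
        refine (Finset.sum_le_sum fun x _ => h5 x).trans ?_
        rw [← Finset.sum_filter, Finset.sum_const, nsmul_eq_mul, mul_one]
        exact_mod_cast roots_aux p d hd0
      rw [h2]
      refine (abs_sub _ _).trans ?_
      have h8 : (n : ℝ) = 2 * d.natDegree + G'.natDegree := by exact_mod_cast hdeg
      rw [h8]
      have h9 : (1 : ℝ) ≤ d.natDegree := by exact_mod_cast hdd
      have h10 : (d.natDegree : ℝ) ≤ d.natDegree * √p := by nlinarith
      nlinarith

/-- Strong induction on the degree. If `G` is squarefree it is separable (`PerfectField.separable_iff_squarefree`),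
of degree `≥ 1` (a constant is `C c * 1 ^ 2`): `Pool.Agent.SkewGem.weil_bound`. Otherwise `G = d ^ 2 * G'` with
`natDegree d ≥ 1`, `G'` is not a constant times a square, and the two sums differ only at the zeros of `d`
(at most `natDegree d` of them, and `1 ≤ √p`). -/
theorem weil_nonsq (p : ℕ) [Fact p.Prime] (hp2 : p ≠ 2) (G : (ZMod p)[X])
    (hG : ∀ (c : ZMod p) (h : (ZMod p)[X]), G ≠ C c * h ^ 2) :
    |∑ x : ZMod p, (quadraticChar (ZMod p) (G.eval x) : ℝ)| ≤ 41 * G.natDegree * √p :=
  weil_aux p hp2 G.natDegree G rfl hG

end Pool.Agent.FewConics
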